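import Mathlib
import Pool.Agent.Lib.MP_fb225e_nt.Curve

/-!
MP_fb225e_nt, project ZFR (zero-free region for every continuable `L(W/K, s)`): definitions shared
by the modules.
-/

namespace Pool.Agent.MPfb225e.Zfr

open NumberField IsDedekindDomain

universe u

/-- The constant in the error terms of the expansions of the logarithmic derivatives. -/
noncomputable def bd {ι : Type*} (q : ι → ℕ) (Z : Set ι) : ℝ :=
  100 * ((∑' i, (q i : ℝ) ^ (-(3 / 2 : ℝ))) + (Z.ncard : ℝ))

open Classical in
/-- The numbers `x_v = a_v / √(Nv)`, and `0` at the places above 2 and 3. -/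
noncomputable def xK {K : Type u} [Field K] [NumberField K] (W : WeierstrassCurve K)
    (v : HeightOneSpectrum (𝓞 K)) : ℝ :=
  if v ∈ Curve.exc K then 0 else
    -((((W.baseChange (v.adicCompletion K)).localPolynomial
      (v.adicCompletionIntegers K)).coeff 1 : ℤ) : ℝ) / √(Curve.qv v)

end Pool.Agent.MPfb225e.Zfr
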