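import Mathlib
import Pool.Agent.Lib.MP_fb225e_nt.Fam.Places
import Pool.Agent.Lib.MP_fb225e_nt.Fam.LocalFactor
import Pool.Agent.Lib.MP_fb225e_nt.Fam.Coeff
import Pool.Agent.Lib.MP_fb225e_nt.Zfr.Defs

/-!
MP_fb225e_nt, project ZFR, module E: from the places of `K` to the rational primes, uniform
in `K`.
-/

set_option linter.all false

namespace Pool.Agent.MPfb225e.Zfr

open Filter Topology Complex
open NumberField IsDedekindDomain

universe u

theorem pb_log_div_le {x : ℝ} (hx : 1 ≤ x) : Real.log x / x ≤ 4 * x ^ (-(3 / 4 : ℝ)) := by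
  have h1 : Real.log x ≤ x ^ (1 / 4 : ℝ) / (1 / 4) :=
    Real.log_le_rpow_div (by linarith) (by norm_num)
  have hx0 : 0 < x := by linarith
  have h2 : x ^ (-(3 / 4 : ℝ)) = x ^ (1 / 4 : ℝ) / x := by
    rw [eq_div_iff hx0.ne', ← Real.rpow_add_one hx0.ne']
    norm_num
  rw [h2, div_le_iff₀ hx0]
  have h3 : 4 * (x ^ (1 / 4 : ℝ) / x) * x = 4 * x ^ (1 / 4 : ℝ) := by
    field_simp
  rw [h3]
  linarith

theorem pb_term_le {x ε : ℝ} (hx : 1 ≤ x) (hε : 0 < ε) :
    Real.log x * x ^ (-(1 + ε)) ≤ Real.log x / x := by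
  have hx0 : 0 < x := by linarith
  rw [div_eq_mul_inv]
  refine mul_le_mul_of_nonneg_left ?_ (Real.log_nonneg hx)
  rw [← Real.rpow_neg_one]
  exact Real.rpow_le_rpow_of_exponent_le hx (by linarith)

theorem pb_summable {ε : ℝ} (hε : 0 < ε) :
    Summable fun m : ℕ => Real.log m * (m : ℝ) ^ (-(1 + ε)) := by
  have h1 : Summable fun m : ℕ => (2 / ε) * (m : ℝ) ^ (-(1 + ε / 2)) :=
    (Real.summable_nat_rpow.2 (by linarith)).mul_left _
  refine Summable.of_nonneg_of_le (fun m => ?_) (fun m => ?_) h1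
  · rcases Nat.eq_zero_or_pos m with rfl | hm
    · simp
    · exact mul_nonneg (Real.log_nonneg (by exact_mod_cast hm)) (by positivity)
  · rcases Nat.eq_zero_or_pos m with rfl | hm
    · simp only [Nat.cast_zero, Real.log_zero, zero_mul]
      positivity
    · have hm0 : (0 : ℝ) < m := by exact_mod_cast hm
      have h2 : Real.log m ≤ (m : ℝ) ^ (ε / 2) / (ε / 2) :=
        Real.log_le_rpow_div hm0.le (by linarith)
      have h3 : (m : ℝ) ^ (-(1 + ε / 2)) = (m : ℝ) ^ (ε / 2) * (m : ℝ) ^ (-(1 + ε)) := by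
        rw [← Real.rpow_add hm0]
        congr 1
        ring
      rw [h3, ← mul_assoc]
      refine mul_le_mul_of_nonneg_right ?_ (Real.rpow_nonneg hm0.le _)
      calc Real.log m ≤ (m : ℝ) ^ (ε / 2) / (ε / 2) := h2
        _ = 2 / ε * (m : ℝ) ^ (ε / 2) := by field_simp

/-- E. -/
theorem bias_places (E : WeierstrassCurve ℚ) [E.IsElliptic] (n : ℕ) : ∃ C : ℝ,
    ∀ (K : Type u) [Field K] [NumberField K], Module.finrank ℚ K = n → ∀ y ε : ℝ, 0 < ε →
    ∑' v : HeightOneSpectrum (𝓞 K), {v | xK (E.baseChange K) v < y}.indicator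
        (fun v => Real.log (nrm v) * nrm v ^ (-(1 + ε))) v ≤
      n * ∑' p : Nat.Primes, {p : Nat.Primes | Fam.lam E p < y}.indicator
        (fun p : Nat.Primes => Real.log p * (p : ℝ) ^ (-(1 + ε))) p + C := by
  classical
  obtain ⟨W₀, C₀, hC₀⟩ := Fam.exists_int_model E
  have hΔ := Fam.disc_ne_zero E hC₀
  set B : ℕ := max 3 W₀.Δ.natAbs with hB
  -- the bounds in terms of the smallest prime factor
  set F1 : ℕ → ℝ := fun m => 4 * (m : ℝ) ^ (-(3 / 2 : ℝ)) with hF1
  set F2 : ℕ → ℝ := fun m => if m ≤ B then 1 else 0 with hF2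
  have hs1 : Summable F1 := (Real.summable_nat_rpow.2 (by norm_num)).mul_left _
  have hs2 : Summable F2 := by
    refine summable_of_ne_finset_zero (s := Finset.range (B + 1)) fun m hm => ?_
    rw [hF2]
    simp only
    rw [if_neg]
    intro h
    exact hm (Finset.mem_range.2 (by omega))
  have h10 : ∀ m, 0 ≤ F1 m := fun m => by rw [hF1]; positivity
  have h20 : ∀ m, 0 ≤ F2 m := fun m => by rw [hF2]; simp only; split_ifs <;> norm_num
  refine ⟨n * (∑' m, F1 m + ∑' m, F2 m), ?_⟩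
  intro K _ _ hn y ε hε
  set g : Nat.Primes → ℝ := {p : Nat.Primes | Fam.lam E p < y}.indicator
        (fun p : Nat.Primes => Real.log p * (p : ℝ) ^ (-(1 + ε))) with hg
  set F3 : ℕ → ℝ := fun m => if m.Prime ∧ Fam.lam E m < y then
    Real.log m * (m : ℝ) ^ (-(1 + ε)) else 0 with hF3
  have hterm0 : ∀ m : ℕ, 0 ≤ Real.log m * (m : ℝ) ^ (-(1 + ε)) := by
    intro m
    exact mul_nonneg (Real.log_natCast_nonneg m) (by positivity)
  have h30 : ∀ m, 0 ≤ F3 m := fun m => by
    rw [hF3]; simp only; split_ifs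
    · exact hterm0 m
    · exact le_rfl
  have hs3 : Summable F3 := by
    refine Summable.of_nonneg_of_le h30 (fun m => ?_) (pb_summable hε)
    rw [hF3]; simp only; split_ifs
    · exact le_rfl
    · exact hterm0 m
  have hF3g : ∑' m, F3 m = ∑' p, g p := by
    have hsup : Function.support F3 ⊆ {m : ℕ | m.Prime} := by
      intro m hm
      by_contra h
      rw [Set.mem_ofPred_eq] at h
      apply hm
      rw [hF3]
      simp [h]
    rw [← tsum_subtype_eq_of_support_subset hsup]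
    refine tsum_congr fun p => ?_
    have hp : (p : ℕ).Prime := p.2
    by_cases hy : Fam.lam E (p : ℕ) < y
    · have e1 : F3 (p : ℕ) = Real.log (p : ℕ) * ((p : ℕ) : ℝ) ^ (-(1 + ε)) := if_pos ⟨hp, hy⟩
      have e2 : g ⟨(p : ℕ), hp⟩ = Real.log (p : ℕ) * ((p : ℕ) : ℝ) ^ (-(1 + ε)) :=
        Set.indicator_of_mem (s := {p : Nat.Primes | Fam.lam E p < y}) hy _
      exact e1.trans e2.symm
    · have e1 : F3 (p : ℕ) = 0 := if_neg fun h => hy h.2
      have e2 : g ⟨(p : ℕ), hp⟩ = 0 :=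
        Set.indicator_of_notMem (s := {p : Nat.Primes | Fam.lam E p < y}) hy _
      exact e1.trans e2.symm
  -- the pointwise bound
  have hpt : ∀ v : HeightOneSpectrum (𝓞 K), {v | xK (E.baseChange K) v < y}.indicator
        (fun v => Real.log (nrm v) * nrm v ^ (-(1 + ε))) v ≤
      F1 (Fam.N v).minFac + F2 (Fam.N v).minFac + F3 (Fam.N v).minFac := by
    intro v
    have hN1 := Fam.one_lt_N v
    have hN1' : (1 : ℝ) ≤ (Fam.N v : ℝ) := by exact_mod_cast hN1.le
    have h1 := h10 (Fam.N v).minFac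
    have h2 := h20 (Fam.N v).minFac
    have h3 := h30 (Fam.N v).minFac
    by_cases hy : xK (E.baseChange K) v < y
    swap
    · rw [Set.indicator_of_notMem (by exact hy)]
      linarith
    rw [Set.indicator_of_mem (by exact hy), Fam.nrm_eq_N]
    by_cases hp : (Fam.N v).Prime
    · have hmf : (Fam.N v).minFac = Fam.N v := hp.minFac_eq
      rw [hmf] at h1 h2 h3 ⊢
      by_cases hlt : Fam.N v ≤ B
      · have h4 : F2 (Fam.N v) = 1 := by rw [hF2]; simp only; rw [if_pos hlt]
        have h5 := pb_term_le hN1' hε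
        have h6 : Real.log (Fam.N v : ℝ) / (Fam.N v : ℝ) ≤ 1 := by
          rw [div_le_one (by linarith)]
          have := Real.log_le_sub_one_of_pos (show (0 : ℝ) < (Fam.N v : ℝ) by linarith)
          linarith
        linarith
      · rw [not_le] at hlt
        have h3' : 3 < Fam.N v := lt_of_le_of_lt (le_max_left _ _) hlt
        have h4 : W₀.Δ.natAbs < Fam.N v := lt_of_le_of_lt (le_max_right _ _) hlt
        have h5 : ((W₀.Δ : ℤ) : ZMod (Fam.N v)) ≠ 0 := by
          intro h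
          rw [ZMod.intCast_zmod_eq_zero_iff_dvd] at h
          have h6 := Int.natAbs_dvd_natAbs.2 h
          rw [Int.natAbs_natCast] at h6
          have := Nat.le_of_dvd (Nat.pos_of_ne_zero (Int.natAbs_ne_zero.2 hΔ)) h6
          omega
        obtain ⟨h7, h8⟩ := Fam.coeff_eq_yy E W₀ C₀ hC₀ v rfl hp h3' h5
        have h9 := Fam.lam_eq_yy E W₀ C₀ hC₀ hp h3' h5
        have h11 : xK (E.baseChange K) v = Fam.lam E (Fam.N v) := by
          unfold xK
          rw [if_neg h7, h8, h9]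
        have h12 : F3 (Fam.N v) = Real.log (Fam.N v : ℝ) * (Fam.N v : ℝ) ^ (-(1 + ε)) := by
          rw [hF3]; simp only; rw [if_pos ⟨hp, h11 ▸ hy⟩]
        linarith
    · have h4 := Fam.sq_minFac_le v hp
      have hm0 : 0 < (Fam.N v).minFac := Nat.minFac_pos _
      have h5 := pb_term_le hN1' hε
      have h6 := pb_log_div_le hN1'
      have h7 : (Fam.N v : ℝ) ^ (-(3 / 4 : ℝ)) ≤ (((Fam.N v).minFac : ℝ) ^ 2) ^ (-(3 / 4 : ℝ)) := by
        apply Real.rpow_le_rpow_of_nonpos
        · positivity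
        · exact_mod_cast h4
        · norm_num
      have h8 : (((Fam.N v).minFac : ℝ) ^ 2) ^ (-(3 / 4 : ℝ)) =
          ((Fam.N v).minFac : ℝ) ^ (-(3 / 2 : ℝ)) := by
        rw [← Real.rpow_natCast, ← Real.rpow_mul (by positivity)]
        norm_num
      rw [h8] at h7
      have h9 : F1 (Fam.N v).minFac = 4 * ((Fam.N v).minFac : ℝ) ^ (-(3 / 2 : ℝ)) := rfl
      linarith
  -- sum over finite sets
  have hn' : Module.finrank ℤ (𝓞 K) = n := by rw [RingOfIntegers.rank, hn]
  have hgtsum : 0 ≤ ∑' p, g p := by rw [← hF3g]; exact tsum_nonneg h30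
  have h1t : 0 ≤ ∑' m, F1 m := tsum_nonneg h10
  have h2t : 0 ≤ ∑' m, F2 m := tsum_nonneg h20
  refine Real.tsum_le_of_sum_le (fun v => ?_) fun V => ?_
  · rw [Set.indicator_apply]
    split_ifs
    · rw [Fam.nrm_eq_N]
      exact hterm0 _
    · exact le_rfl
  set G : ℕ → ℝ := fun m => F1 m + F2 m + F3 m with hG
  have hG0 : ∀ m, 0 ≤ G m := fun m => by
    have h1 := h10 m
    have h2 := h20 m
    have h3 := h30 m
    rw [hG]; simp only; linarith
  have hGs : Summable G := (hs1.add hs2).add hs3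
  calc ∑ v ∈ V, {v | xK (E.baseChange K) v < y}.indicator
        (fun v => Real.log (nrm v) * nrm v ^ (-(1 + ε))) v
      ≤ ∑ v ∈ V, G (Fam.N v).minFac := Finset.sum_le_sum fun v _ => hpt v
    _ = ∑ p ∈ V.image (fun v => (Fam.N v).minFac),
        ((V.filter fun v => (Fam.N v).minFac = p).card : ℝ) * G p := by
        rw [Finset.sum_comp (fun p : ℕ => G p) fun v => (Fam.N v).minFac]
        simp only [nsmul_eq_mul]
    _ ≤ ∑ p ∈ V.image (fun v => (Fam.N v).minFac), (n : ℝ) * G p := by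
        refine Finset.sum_le_sum fun p hp => ?_
        obtain ⟨v, -, rfl⟩ := Finset.mem_image.1 hp
        refine mul_le_mul_of_nonneg_right ?_ (hG0 _)
        have h1 := Fam.one_lt_N v
        rw [← hn']
        exact_mod_cast Fam.card_above_le (Nat.minFac_prime (by omega)) _
          fun w hw => (Finset.mem_filter.1 hw).2
    _ ≤ ∑' p, (n : ℝ) * G p := (hGs.mul_left _).sum_le_tsum _
        fun p _ => mul_nonneg (by positivity) (hG0 p)
    _ = n * ∑' p, g p + n * (∑' m, F1 m + ∑' m, F2 m) := by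
        rw [tsum_mul_left, hG]
        rw [(hs1.add hs2).tsum_add hs3, hs1.tsum_add hs2, hF3g]
        ring

end Pool.Agent.MPfb225e.Zfr
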