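import Mathlib

/-!
MP_fb225e_nt, project ZFR, module A: Landau's local lemma, one-sided.
-/

namespace Pool.Agent.MPfb225e.Zfr

open Filter Topology Complex Metric

/-- the case without zeros near the centre -/
theorem locA_nozero (f : ℂ → ℂ) (c s : ℂ) (r B : ℝ) (k : ℕ) (hr : 0 < r)
    (hd : ∀ z ∈ closedBall c (4 * r), DifferentiableAt ℂ f z)
    (hB : ∀ z ∈ closedBall c (4 * r), ‖f z‖ ≤ B)
    (hBk : B < 2 ^ (k + 1) * ‖f c‖) (hfc : f c ≠ 0) (hsc : ‖s - c‖ ≤ r)
    (hz : ∀ z ∈ closedBall c (4 / 3 * r), f z ≠ 0) :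
    -(deriv f s / f s).re ≤ 84 * ((k + 1 : ℕ) : ℝ) / r := by
  set R : ℝ := 4 / 3 * r with hR
  have hR0 : 0 < R := by positivity
  have hsub : ball c R ⊆ closedBall c (4 * r) := by
    refine ball_subset_closedBall.trans (closedBall_subset_closedBall ?_)
    rw [hR]; linarith
  have hne : ∀ z ∈ ball c R, f z ≠ 0 := fun z hz' => hz z (ball_subset_closedBall hz')
  have hdb : DifferentiableOn ℂ f (ball c R) := fun z hz' =>
    (hd z (hsub hz')).differentiableWithinAt
  have hdq : DifferentiableOn ℂ (fun z => deriv f z / f z) (ball c R) :=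
    (hdb.deriv isOpen_ball).div hdb hne
  obtain ⟨g, hgc, hg⟩ := hdq.isExactOn_ball.with_val_at c 0
  -- `f = f c * exp g`
  have hconst : ∀ z ∈ ball c R, f z = f c * exp (g z) := by
    have hder : ∀ z ∈ ball c R, HasDerivAt (fun z => f z * exp (-g z)) 0 z := by
      intro z hz'
      have h1 : HasDerivAt f (deriv f z) z := (hd z (hsub hz')).hasDerivAt
      have h2 : HasDerivAt (fun z => exp (-g z)) (exp (-g z) * -(deriv f z / f z)) z :=
        ((hg z hz').neg).cexp
      have h3 := h1.mul h2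
      have h4 : deriv f z * exp (-g z) + f z * (exp (-g z) * -(deriv f z / f z)) = 0 := by
        field_simp [hne z hz']
        ring
      rw [h4] at h3
      exact h3
    intro z hz'
    have hcon : (fun z => f z * exp (-g z)) z = (fun z => f z * exp (-g z)) c := by
      refine (convex_ball c R).is_const_of_fderivWithin_eq_zero (𝕜 := ℂ) (f := fun z => f z * exp (-g z))
        (fun w hw => (hder w hw).differentiableAt.differentiableWithinAt) ?_ hz'
        (mem_ball_self hR0)
      intro w hw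
      rw [fderivWithin_of_isOpen isOpen_ball hw]
      ext
      simp [(hder w hw).deriv]
    simp only [hgc, neg_zero, exp_zero, mul_one] at hcon
    rw [← hcon, mul_assoc, ← exp_add]
    simp
  -- bound for the real part
  set M : ℝ := ((k + 1 : ℕ) : ℝ) * Real.log 2 with hM
  have hM0 : 0 < M := by
    have : 0 < Real.log 2 := Real.log_pos one_lt_two
    positivity
  have hfc0 : 0 < ‖f c‖ := norm_pos_iff.mpr hfc
  have hre : ∀ z ∈ ball c R, (g z).re ≤ M := by
    intro z hz'
    have h1 : ‖f z‖ < 2 ^ (k + 1) * ‖f c‖ := lt_of_le_of_lt (hB z (hsub hz')) hBk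
    rw [hconst z hz', norm_mul, Complex.norm_exp, mul_comm] at h1
    have h2 : Real.exp (g z).re < 2 ^ (k + 1) := lt_of_mul_lt_mul_right h1 hfc0.le
    have h3 : (g z).re < Real.log (2 ^ (k + 1)) := (Real.lt_log_iff_exp_lt (by positivity)).mpr h2
    rw [Real.log_pow] at h3
    exact h3.le
  -- Borel-Caratheodory
  have hgd : DifferentiableOn ℂ g (ball c R) := fun z hz' =>
    (hg z hz').differentiableAt.differentiableWithinAt
  have hbc : ∀ z ∈ closedBall c (7 / 6 * r), ‖g z‖ ≤ 14 * M := by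
    intro z hz'
    rw [mem_closedBall, dist_eq_norm] at hz'
    set G : ℂ → ℂ := fun w => g (c + w) with hG
    have hmaps : Set.MapsTo (fun w => c + w) (ball (0 : ℂ) R) (ball c R) := by
      intro w hw
      rw [mem_ball, dist_zero_right] at hw
      simp only [mem_ball, dist_eq_norm, add_sub_cancel_left]
      exact hw
    have hGd : DifferentiableOn ℂ G (ball 0 R) :=
      hgd.comp (by fun_prop) hmaps
    have hGm : Set.MapsTo G (ball 0 R) {z | z.re ≤ M} := fun w hw => hre _ (hmaps hw)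
    have hw : z - c ∈ ball (0 : ℂ) R := by
      rw [mem_ball, dist_zero_right]
      exact lt_of_le_of_lt hz' (by rw [hR]; linarith)
    have h1 := Complex.borelCaratheodory_zero hM0 hGd hGm hR0 hw (by simp [hG, hgc])
    have h2 : G (z - c) = g z := by simp [hG]
    rw [h2] at h1
    refine h1.trans ?_
    have h3 : r / 6 ≤ R - ‖z - c‖ := by rw [hR]; linarith
    have h4 : 0 < R - ‖z - c‖ := lt_of_lt_of_le (by positivity) h3
    rw [div_le_iff₀ h4]
    nlinarith [norm_nonneg (z - c)]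
  -- Cauchy estimate
  have hball : closedBall s (r / 6) ⊆ closedBall c (7 / 6 * r) := by
    refine closedBall_subset_closedBall' ?_
    rw [dist_eq_norm]
    linarith
  have hball2 : closedBall c (7 / 6 * r) ⊆ ball c R := by
    refine closedBall_subset_ball ?_
    rw [hR]; linarith
  have hdc : DiffContOnCl ℂ g (ball s (r / 6)) :=
    hgd.diffContOnCl_ball (hball.trans hball2)
  have hder : ‖deriv g s‖ ≤ 14 * M / (r / 6) :=
    Complex.norm_deriv_le_of_forall_mem_sphere_norm_le (by positivity) hdc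
      (fun z hz' => hbc z (hball (sphere_subset_closedBall hz')))
  have hs : s ∈ ball c R := by
    rw [mem_ball, dist_eq_norm]
    exact lt_of_le_of_lt hsc (by rw [hR]; linarith)
  rw [(hg s hs).deriv] at hder
  have h5 : -(deriv f s / f s).re ≤ ‖deriv f s / f s‖ := by
    have := abs_re_le_norm (deriv f s / f s)
    exact (neg_le_abs _).trans this
  refine h5.trans (hder.trans ?_)
  rw [div_div_eq_mul_div]
  have hlog : Real.log 2 ≤ 1 := by
    have := Real.log_two_lt_d9
    linarith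
  have hk0 : (0 : ℝ) ≤ ((k + 1 : ℕ) : ℝ) := Nat.cast_nonneg _
  have : 14 * M * 6 ≤ 84 * ((k + 1 : ℕ) : ℝ) := by
    rw [hM]
    nlinarith
  gcongr

/-- the derivative of a product with a linear factor -/
theorem locA_deriv {f h : ℂ → ℂ} {ρ s : ℂ} (hf : ∀ z, f z = (z - ρ) * h z)
    (hh : DifferentiableAt ℂ h s) (hfs : f s ≠ 0) :
    deriv f s / f s = (s - ρ)⁻¹ + deriv h s / h s := by
  have hfe : f = fun z => (z - ρ) * h z := funext hf
  have hsρ : s - ρ ≠ 0 := fun h0 => hfs (by rw [hf, h0, zero_mul])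
  have hhs : h s ≠ 0 := fun h0 => hfs (by rw [hf, h0, mul_zero])
  have h1 : HasDerivAt (fun z => (z - ρ) * h z) (1 * h s + (s - ρ) * deriv h s) s :=
    ((hasDerivAt_id s).sub_const ρ).mul hh.hasDerivAt
  rw [hfe, h1.deriv]
  field_simp

/-- the maximum principle in the form used here -/
theorem locA_max {h : ℂ → ℂ} {c : ℂ} {R C : ℝ} (hR : 0 < R)
    (hd : ∀ z ∈ closedBall c R, DifferentiableAt ℂ h z)
    (hC : ∀ z, ‖z - c‖ = R → ‖h z‖ ≤ C) : ∀ z ∈ closedBall c R, ‖h z‖ ≤ C := by
  intro z hz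
  have hcl : closure (ball c R) = closedBall c R := closure_ball c hR.ne'
  have hdc : DiffContOnCl ℂ h (ball c R) := by
    refine DifferentiableOn.diffContOnCl ?_
    rw [hcl]
    exact fun w hw => (hd w hw).differentiableWithinAt
  refine Complex.norm_le_of_forall_mem_frontier_norm_le isBounded_ball hdc ?_ (by rw [hcl]; exact hz)
  intro w hw
  rw [frontier_ball c hR.ne', mem_sphere, dist_eq_norm] at hw
  exact hC w hw

theorem locA_inv_re {s ρ : ℂ} (h : ρ.re ≤ s.re) : 0 ≤ ((s - ρ)⁻¹).re := by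
  rw [Complex.inv_re]
  refine div_nonneg ?_ (normSq_nonneg _)
  rw [sub_re]
  linarith

theorem locA_ind (k : ℕ) : ∀ (f : ℂ → ℂ) (c s : ℂ) (r B : ℝ), 0 < r →
    (∀ z ∈ closedBall c (4 * r), DifferentiableAt ℂ f z) →
    (∀ z ∈ closedBall c (4 * r), ‖f z‖ ≤ B) →
    B < 2 ^ k * ‖f c‖ → f c ≠ 0 → f s ≠ 0 → ‖s - c‖ ≤ r →
    (∀ z ∈ closedBall c (4 * r), f z = 0 → z.re ≤ s.re) →
    -(deriv f s / f s).re ≤ 84 * (k : ℝ) / r := by
  induction k with
  | zero =>
    intro f c s r B hr _ hB hBk _ _ _ _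
    exfalso
    have h1 := hB c (mem_closedBall_self (by positivity))
    rw [pow_zero, one_mul] at hBk
    linarith
  | succ k ih =>
    intro f c s r B hr hd hB hBk hfc hfs hsc hz
    by_cases hex : ∃ ρ ∈ closedBall c (4 / 3 * r), f ρ = 0
    · obtain ⟨ρ, hρ, hρ0⟩ := hex
      rw [mem_closedBall, dist_eq_norm] at hρ
      have hρb : ρ ∈ ball c (4 * r) := by
        rw [mem_ball, dist_eq_norm]
        linarith
      set h : ℂ → ℂ := dslope f ρ with hh
      have hfh : ∀ z, f z = (z - ρ) * h z := by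
        intro z
        have := sub_smul_dslope f ρ z
        rw [hρ0, sub_zero, smul_eq_mul] at this
        exact this.symm
      have hdh : ∀ z ∈ closedBall c (4 * r), DifferentiableAt ℂ h z := by
        intro z hz'
        by_cases hzρ : z = ρ
        · subst hzρ
          have h1 : DifferentiableOn ℂ (dslope f z) (ball c (4 * r)) :=
            (Complex.differentiableOn_dslope (isOpen_ball.mem_nhds hρb)).mpr
              (fun w hw => (hd w (ball_subset_closedBall hw)).differentiableWithinAt)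
          exact h1.differentiableAt (isOpen_ball.mem_nhds hρb)
        · exact (differentiableAt_dslope_of_ne hzρ).mpr (hd z hz')
      have hhc : h c ≠ 0 := fun h0 => hfc (by rw [hfh, h0, mul_zero])
      have hhs : h s ≠ 0 := fun h0 => hfs (by rw [hfh, h0, mul_zero])
      have hBnn : 0 ≤ B := (norm_nonneg _).trans (hB c (mem_closedBall_self (by positivity)))
      have hbd : ∀ z ∈ closedBall c (4 * r), ‖h z‖ ≤ B / (8 / 3 * r) := by
        refine locA_max (by positivity) hdh ?_
        intro z hz'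
        have h1 : 8 / 3 * r ≤ ‖z - ρ‖ := by
          have h2 : ‖z - c‖ ≤ ‖z - ρ‖ + ‖ρ - c‖ := by
            have : z - c = (z - ρ) + (ρ - c) := by ring
            rw [this]
            exact norm_add_le _ _
          linarith
        have h3 := hB z (by rw [mem_closedBall, dist_eq_norm]; exact hz'.le)
        rw [hfh, norm_mul] at h3
        rw [le_div_iff₀ (by positivity)]
        calc ‖h z‖ * (8 / 3 * r) ≤ ‖h z‖ * ‖z - ρ‖ := by gcongr
          _ = ‖z - ρ‖ * ‖h z‖ := mul_comm _ _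
          _ ≤ B := h3
      have hlow : B / (8 / 3 * r) < 2 ^ k * ‖h c‖ := by
        rw [div_lt_iff₀ (by positivity)]
        refine lt_of_lt_of_le hBk ?_
        rw [hfh c, norm_mul, pow_succ]
        have h1 : ‖c - ρ‖ ≤ 4 / 3 * r := by rw [norm_sub_rev]; exact hρ
        have h2 : ‖c - ρ‖ * ‖h c‖ ≤ 4 / 3 * r * ‖h c‖ := by gcongr
        have h3 : (0 : ℝ) ≤ 2 ^ k * 2 := by positivity
        calc 2 ^ k * 2 * (‖c - ρ‖ * ‖h c‖) ≤ 2 ^ k * 2 * (4 / 3 * r * ‖h c‖) := by gcongr
          _ = 2 ^ k * ‖h c‖ * (8 / 3 * r) := by ring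
      have hrec := ih h c s r (B / (8 / 3 * r)) hr hdh hbd hlow hhc hhs hsc (by
        intro z hz' h0
        exact hz z hz' (by rw [hfh, h0, mul_zero]))
      have hscl : s ∈ closedBall c (4 * r) := by
        rw [mem_closedBall, dist_eq_norm]
        linarith
      have hρre : ρ.re ≤ s.re := hz ρ (ball_subset_closedBall hρb) hρ0
      rw [locA_deriv hfh (hdh s hscl) hfs, add_re]
      have h1 := locA_inv_re hρre
      have h2 : 84 * (k : ℝ) / r ≤ 84 * ((k + 1 : ℕ) : ℝ) / r := by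
        push_cast
        gcongr
        linarith
      linarith
    · push Not at hex
      exact locA_nozero f c s r B k hr hd hB hBk hfc hsc hex

/-- A1. No zeros to the right of `s`: an upper bound for `-Re f'/f`. -/
theorem local_upper : ∃ C : ℝ, 0 < C ∧ ∀ (f : ℂ → ℂ) (c s : ℂ) (r B L : ℝ), 0 < r → 0 ≤ L →
    (∀ z ∈ Metric.closedBall c (4 * r), DifferentiableAt ℂ f z) →
    (∀ z ∈ Metric.closedBall c (4 * r), ‖f z‖ ≤ B) →
    B ≤ Real.exp L * ‖f c‖ → f c ≠ 0 → f s ≠ 0 → ‖s - c‖ ≤ r →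
    (∀ z ∈ Metric.closedBall c (4 * r), f z = 0 → z.re ≤ s.re) →
    -(deriv f s / f s).re ≤ C * (L + 1) / r := by
  refine ⟨168, by norm_num, ?_⟩
  intro f c s r B L hr hL hd hB hBL hfc hfs hsc hz
  set k : ℕ := ⌊2 * L⌋₊ + 1 with hk
  have hk1 : 2 * L < (k : ℝ) := by
    rw [hk]
    push_cast
    exact Nat.lt_floor_add_one _
  have hk2 : (k : ℝ) ≤ 2 * L + 1 := by
    rw [hk]
    push_cast
    have := Nat.floor_le (a := 2 * L) (by positivity)
    linarith
  have hfc0 : 0 < ‖f c‖ := norm_pos_iff.mpr hfc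
  have hlog : (1 : ℝ) / 2 < Real.log 2 := by
    have := Real.log_two_gt_d9
    linarith
  have hexp : Real.exp L < 2 ^ k := by
    have h1 : Real.exp L < Real.exp (k * Real.log 2) := by
      rw [Real.exp_lt_exp]
      nlinarith
    have h2 : Real.exp (k * Real.log 2) = 2 ^ k := by
      rw [← Real.log_pow, Real.exp_log (by positivity)]
    rwa [h2] at h1
  have hBk : B < 2 ^ k * ‖f c‖ := lt_of_le_of_lt hBL (mul_lt_mul_of_pos_right hexp hfc0)
  refine (locA_ind k f c s r B hr hd hB hBk hfc hfs hsc hz).trans ?_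
  have h84 : 84 * (k : ℝ) ≤ 168 * (L + 1) := by linarith
  exact div_le_div_of_nonneg_right h84 hr.le

/-- A2. The same, keeping some of the zeros. -/
theorem local_upper_zeros : ∃ C : ℝ, 0 < C ∧ ∀ (S : Finset ℕ) (ρ : ℕ → ℂ) (f h : ℂ → ℂ) (c s : ℂ)
    (r B L : ℝ), 0 < r → 0 ≤ L → (∀ z, f z = (∏ j ∈ S, (z - ρ j)) * h z) →
    (∀ z ∈ Metric.closedBall c (4 * r), DifferentiableAt ℂ h z) →
    (∀ z ∈ Metric.closedBall c (4 * r), ‖f z‖ ≤ B) →
    B ≤ Real.exp L * ‖f c‖ → f c ≠ 0 → f s ≠ 0 → ‖s - c‖ ≤ r → (∀ j ∈ S, ‖ρ j - c‖ ≤ 2 * r) →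
    (∀ z ∈ Metric.closedBall c (4 * r), f z = 0 → z.re ≤ s.re) →
    -(deriv f s / f s).re ≤ C * (L + 1) / r - ∑ j ∈ S, ((s - ρ j)⁻¹).re := by
  obtain ⟨C, hC, hA⟩ := local_upper
  refine ⟨C, hC, ?_⟩
  intro S ρ f h c s r B L hr hL hfh hd hB hBL hfc hfs hsc hρ hz
  have hhc : h c ≠ 0 := fun h0 => hfc (by rw [hfh, h0, mul_zero])
  have hhs : h s ≠ 0 := fun h0 => hfs (by rw [hfh, h0, mul_zero])
  have hprod0 : ∏ j ∈ S, (s - ρ j) ≠ 0 := fun h0 => hfs (by rw [hfh, h0, zero_mul])
  have hne : ∀ j ∈ S, s - ρ j ≠ 0 := fun j hj => Finset.prod_ne_zero_iff.mp hprod0 j hj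
  have hBnn : 0 ≤ B := (norm_nonneg _).trans (hB c (mem_closedBall_self (by positivity)))
  have hpw : (0 : ℝ) < (2 * r) ^ S.card := by positivity
  have hbd : ∀ z ∈ closedBall c (4 * r), ‖h z‖ ≤ B / (2 * r) ^ S.card := by
    refine locA_max (by positivity) hd ?_
    intro z hz'
    have h1 : (2 * r) ^ S.card ≤ ∏ j ∈ S, ‖z - ρ j‖ := by
      rw [← Finset.prod_const]
      refine Finset.prod_le_prod (fun j _ => by positivity) fun j hj => ?_
      have h2 : ‖z - c‖ ≤ ‖z - ρ j‖ + ‖ρ j - c‖ := by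
        have : z - c = (z - ρ j) + (ρ j - c) := by ring
        rw [this]
        exact norm_add_le _ _
      have h3 := hρ j hj
      linarith
    have h3 := hB z (by rw [mem_closedBall, dist_eq_norm]; exact hz'.le)
    rw [hfh, norm_mul, norm_prod] at h3
    rw [le_div_iff₀ hpw]
    calc ‖h z‖ * (2 * r) ^ S.card ≤ ‖h z‖ * ∏ j ∈ S, ‖z - ρ j‖ := by gcongr
      _ = (∏ j ∈ S, ‖z - ρ j‖) * ‖h z‖ := mul_comm _ _
      _ ≤ B := h3
  have hup : ‖f c‖ ≤ (2 * r) ^ S.card * ‖h c‖ := by
    rw [hfh, norm_mul, norm_prod]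
    gcongr
    rw [← Finset.prod_const]
    refine Finset.prod_le_prod (fun j _ => norm_nonneg _) fun j hj => ?_
    rw [norm_sub_rev]
    exact hρ j hj
  have hBL' : B / (2 * r) ^ S.card ≤ Real.exp L * ‖h c‖ := by
    rw [div_le_iff₀ hpw]
    refine hBL.trans ?_
    calc Real.exp L * ‖f c‖ ≤ Real.exp L * ((2 * r) ^ S.card * ‖h c‖) := by
          gcongr
      _ = Real.exp L * ‖h c‖ * (2 * r) ^ S.card := by ring
  have hmain := hA h c s r (B / (2 * r) ^ S.card) L hr hL hd hbd hBL' hhc hhs hsc (by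
    intro z hz' h0
    exact hz z hz' (by rw [hfh, h0, mul_zero]))
  have hscl : s ∈ closedBall c (4 * r) := by
    rw [mem_closedBall, dist_eq_norm]
    linarith
  have hder : deriv f s / f s = ∑ j ∈ S, (s - ρ j)⁻¹ + deriv h s / h s := by
    have hfe : f = fun z => (∏ j ∈ S, (z - ρ j)) * h z := funext hfh
    have h1 : logDeriv f s = logDeriv (fun z => ∏ j ∈ S, (z - ρ j)) s + logDeriv h s := by
      rw [hfe]
      exact logDeriv_mul s hprod0 hhs (by fun_prop) (hd s hscl)
    have h2 : logDeriv (fun z => ∏ j ∈ S, (z - ρ j)) s = ∑ j ∈ S, (s - ρ j)⁻¹ := by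
      have h3 := logDeriv_prod (s := S) (f := fun j z => z - ρ j) (x := s) hne
        (fun j _ => by fun_prop)
      rw [h3]
      refine Finset.sum_congr rfl fun j _ => ?_
      rw [logDeriv_apply]
      simp
    rw [logDeriv_apply, h2, logDeriv_apply] at h1
    exact h1
  rw [hder, add_re, Complex.re_sum]
  linarith

end Pool.Agent.MPfb225e.Zfr
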