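import Mathlib
import Pool.Agent.Lib.MP_fb225e_nt.Hasse
import Pool.Agent.Lib.MP_fb225e_nt.Fam.LocalFactor
import Pool.Agent.Lib.MP_fb225e_nt.Fam.Mean
import Pool.Agent.Lib.MP_fb225e_nt.Zfr.Defs

/-!
MP_fb225e_nt, project ZFR: the Euler product data of `L(W/K, s)`.
-/

namespace Pool.Agent.MPfb225e.Zfr

open NumberField IsDedekindDomain HeightOneSpectrum IsLocalRing Local LogExp Curve
open ArithmeticFunction (ofPowerSeries eulerProduct)

universe u

variable {K : Type u} [Field K] [NumberField K]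

/-- The Euler product data of `W`. -/
theorem exists_data (W : WeierstrassCurve K) : ∃ (a b : HeightOneSpectrum (𝓞 K) → ℤ)
    (α β : HeightOneSpectrum (𝓞 K) → ℂ) (c : HeightOneSpectrum (𝓞 K) → ℝ),
    Data (qv (K := K)) a b α β c (exc K) ∧ (∀ s, W.LSeries s = L (qv (K := K)) a b s) ∧
    ∀ v, xs (qv (K := K)) a (exc K) v = xK W v := by
  classical
  have hloc : ∀ v : HeightOneSpectrum (𝓞 K), _ := fun v =>
    local_data (v.adicCompletionIntegers K) (W.baseChange (v.adicCompletion K)) hasse_module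
  choose a b α β h1 h2 h3 h4 h5 h6 using hloc
  have D : Data (qv (K := K)) a b α β (fun v => if v ∈ exc K then (qv v : ℝ) else √(qv v))
      (exc K) := by
    refine ⟨one_lt_qv, ?_, finite_exc, h2, h3, ?_, ?_, ?_, ?_⟩
    · intro σ hσ
      have := (Fam.orthogonality K).1 σ hσ
      simpa only [nrm_eq] using this
    · intro v
      split_ifs with hv
      · exact h4 v
      · rw [exc, Set.mem_ofPred_eq, not_or] at hv
        exact (h6 v hv.1 hv.2).1
    · intro v
      split_ifs with hv
      · exact h5 v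
      · rw [exc, Set.mem_ofPred_eq, not_or] at hv
        exact (h6 v hv.1 hv.2).2
    · intro v
      split_ifs with hv
      · exact le_rfl
      · have : (1 : ℝ) ≤ qv v := by exact_mod_cast (one_lt_qv v).le
        rw [Real.sqrt_le_left (by linarith)]
        nlinarith
    · intro v hv
      rw [if_neg hv]
  refine ⟨a, b, α, β, _, D, ?_, ?_⟩
  · intro s
    have e : W.LFunction = eulerProduct fun v : HeightOneSpectrum (𝓞 K) =>
        ofPowerSeries (qv v) (lps (a v) (b v)) := by
      unfold WeierstrassCurve.LFunction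
      congr 1
      funext v
      unfold WeierstrassCurve.localEulerFactor WeierstrassCurve.localPowerSeries lps
      rw [h1 v]
      rfl
    unfold WeierstrassCurve.LSeries L
    rw [e]
    rfl
  · intro v
    unfold xs xK
    by_cases hv : v ∈ exc K
    · rw [if_pos hv, if_pos hv]
    · have h7 : (lpoly (a v) (b v)).coeff 1 = -(a v) := by
        rw [lpoly_coe]
        simp [Polynomial.coeff_one, Polynomial.coeff_X_pow]
      rw [if_neg hv, if_neg hv, h1 v, h7]
      push_cast
      rw [neg_neg]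

theorem abs_xK_le (W : WeierstrassCurve K) (v : HeightOneSpectrum (𝓞 K)) : |xK W v| ≤ 2 := by
  obtain ⟨a, b, α, β, c, D, -, h⟩ := exists_data W
  rw [← h v]
  exact D.abs_xs_le v

theorem LSeries_ne (W : WeierstrassCurve K) {s : ℂ} (hs : 3 / 2 < s.re) : W.LSeries s ≠ 0 := by
  obtain ⟨a, b, α, β, c, D, h, -⟩ := exists_data W
  rw [h s]
  exact D.L_ne hs

theorem summable_lw (ε : ℝ) (hε : 0 < ε) : Summable fun v : HeightOneSpectrum (𝓞 K) =>
    Real.log (nrm v) * nrm v ^ (-(1 + ε)) := by
  have h1 := ((Fam.orthogonality K).1 (1 + ε / 2) (by linarith)).mul_left (2 / ε)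
  refine Summable.of_nonneg_of_le (fun v => ?_) (fun v => ?_) h1
  · have h2 : (1 : ℝ) ≤ nrm v := by
      rw [nrm_eq]; exact_mod_cast (one_lt_qv v).le
    exact mul_nonneg (Real.log_nonneg h2) (Real.rpow_nonneg (by linarith) _)
  · have h2 : (1 : ℝ) ≤ nrm v := by
      rw [nrm_eq]; exact_mod_cast (one_lt_qv v).le
    have h3 : Real.log (nrm v) ≤ nrm v ^ (ε / 2) / (ε / 2) :=
      Real.log_le_rpow_div (by linarith) (by linarith)
    have h4 : 2 / ε * nrm v ^ (-(1 + ε / 2)) =
        nrm v ^ (ε / 2) / (ε / 2) * nrm v ^ (-(1 + ε)) := by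
      have e : -(1 + ε / 2) = ε / 2 + -(1 + ε) := by ring
      rw [e, Real.rpow_add (by linarith)]
      field_simp
    rw [h4]
    exact mul_le_mul_of_nonneg_right h3 (Real.rpow_nonneg (by linarith) _)

theorem lw_nonneg (ε : ℝ) (v : HeightOneSpectrum (𝓞 K)) :
    0 ≤ Real.log (nrm v) * nrm v ^ (-(1 + ε)) := by
  have h2 : (1 : ℝ) ≤ nrm v := by
    rw [nrm_eq]; exact_mod_cast (one_lt_qv v).le
  exact mul_nonneg (Real.log_nonneg h2) (Real.rpow_nonneg (by linarith) _)

end Pool.Agent.MPfb225e.Zfr
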