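import Mathlib
import Pool.Agent.Lib.MP_fb225e_nt.Fam.Places
import Pool.Agent.Lib.MP_fb225e_nt.Zfr.Defs

/-!
MP_fb225e_nt, zero-free region: the constants in the error terms are bounded in terms of the degree.
-/

open Filter Topology Complex
open NumberField IsDedekindDomain

namespace Pool.Agent.MPfb225e.Zfr

universe u

section bdle

variable {K : Type u} [Field K] [NumberField K]

theorem BdLe_minFac {v : HeightOneSpectrum (𝓞 K)} {p : ℕ} (hp : p.Prime)
    (h : ((p : ℕ) : 𝓞 K) ∈ v.asIdeal) : (Fam.N v).minFac = p := by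
  by_contra hne
  have hq : (Fam.N v).minFac.Prime := Nat.minFac_prime (by have := Fam.one_lt_N v; omega)
  have hc : IsCoprime (((Fam.N v).minFac : ℕ) : ℤ) (p : ℤ) :=
    Nat.Coprime.isCoprime ((Nat.coprime_primes hq hp).2 hne)
  obtain ⟨a, b, hab⟩ := hc
  have h1 : (a : 𝓞 K) * (((Fam.N v).minFac : ℕ) : 𝓞 K) + (b : 𝓞 K) * ((p : ℕ) : 𝓞 K) = 1 := by
    exact_mod_cast congrArg (fun z : ℤ => (z : 𝓞 K)) hab
  have h2 : (1 : 𝓞 K) ∈ v.asIdeal := by
    rw [← h1]
    exact v.asIdeal.add_mem (v.asIdeal.mul_mem_left _ (Fam.minFac_mem v))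
      (v.asIdeal.mul_mem_left _ h)
  exact v.isPrime.ne_top ((Ideal.eq_top_iff_one _).2 h2)

theorem BdLe_exc {v : HeightOneSpectrum (𝓞 K)} (hv : v ∈ Curve.exc K) :
    (Fam.N v).minFac = 2 ∨ (Fam.N v).minFac = 3 := by
  have key : ∀ p : ℕ, ((p : ℕ) : IsLocalRing.ResidueField (v.adicCompletionIntegers K)) = 0 →
      ((p : ℕ) : 𝓞 K) ∈ v.asIdeal := by
    intro p hp
    rw [← Residue.phi_eq_zero_iff K v, map_natCast]
    exact hp
  rcases hv with hv | hv
  · exact Or.inl (BdLe_minFac Nat.prime_two (key 2 (by exact_mod_cast hv)))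
  · exact Or.inr (BdLe_minFac Nat.prime_three (key 3 (by exact_mod_cast hv)))

theorem BdLe_ncard : ((Curve.exc K).ncard : ℝ) ≤ 2 * (Module.finrank ℚ K : ℝ) := by
  classical
  have hfin := Curve.finite_exc (K := K)
  have h1 : hfin.toFinset ⊆ (hfin.toFinset.filter fun v => (Fam.N v).minFac = 2) ∪
      (hfin.toFinset.filter fun v => (Fam.N v).minFac = 3) := by
    intro v hv
    rw [Finset.mem_union, Finset.mem_filter, Finset.mem_filter]
    rcases BdLe_exc (hfin.mem_toFinset.1 hv) with h | h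
    · exact Or.inl ⟨hv, h⟩
    · exact Or.inr ⟨hv, h⟩
  have h2 := (Finset.card_le_card h1).trans (Finset.card_union_le _ _)
  have h3 := Fam.card_above_le Nat.prime_two (hfin.toFinset.filter fun v => (Fam.N v).minFac = 2)
    fun v hv => (Finset.mem_filter.1 hv).2
  have h4 := Fam.card_above_le Nat.prime_three (hfin.toFinset.filter fun v => (Fam.N v).minFac = 3)
    fun v hv => (Finset.mem_filter.1 hv).2
  rw [NumberField.RingOfIntegers.rank] at h3 h4
  rw [Set.ncard_eq_toFinset_card _ hfin]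
  have h5 : hfin.toFinset.card ≤ 2 * Module.finrank ℚ K := by omega
  exact_mod_cast h5

theorem BdLe_tsum : (∑' v : HeightOneSpectrum (𝓞 K), (Curve.qv v : ℝ) ^ (-(3 / 2 : ℝ))) ≤
    (Module.finrank ℚ K : ℝ) * ∑' m : ℕ, (m : ℝ) ^ (-(3 / 2 : ℝ)) := by
  classical
  have hs : Summable fun m : ℕ => (m : ℝ) ^ (-(3 / 2 : ℝ)) :=
    Real.summable_nat_rpow.2 (by norm_num)
  have hnn : ∀ m : ℕ, (0 : ℝ) ≤ (m : ℝ) ^ (-(3 / 2 : ℝ)) := fun m =>
    Real.rpow_nonneg (by positivity) _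
  refine tsum_le_of_sum_le' (mul_nonneg (by positivity) (tsum_nonneg hnn)) fun V => ?_
  calc ∑ v ∈ V, (Curve.qv v : ℝ) ^ (-(3 / 2 : ℝ))
      = ∑ m ∈ V.image (fun v => Fam.N v),
        ((V.filter fun v => Fam.N v = m).card : ℝ) * (m : ℝ) ^ (-(3 / 2 : ℝ)) := by
        simp only [Curve.qv_eq]
        rw [Finset.sum_comp (fun m : ℕ => (m : ℝ) ^ (-(3 / 2 : ℝ))) fun v => Fam.N v]
        simp only [nsmul_eq_mul]
    _ ≤ ∑ m ∈ V.image (fun v => Fam.N v),
        (Module.finrank ℚ K : ℝ) * (m : ℝ) ^ (-(3 / 2 : ℝ)) := by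
        refine Finset.sum_le_sum fun m hm => ?_
        obtain ⟨v, -, rfl⟩ := Finset.mem_image.1 hm
        refine mul_le_mul_of_nonneg_right ?_ (hnn _)
        have h1 := Fam.one_lt_N v
        have h2 := Fam.card_above_le (Nat.minFac_prime (n := Fam.N v) (by omega))
          (V.filter fun w => Fam.N w = Fam.N v)
          fun w hw => by rw [(Finset.mem_filter.1 hw).2]
        rw [NumberField.RingOfIntegers.rank] at h2
        exact_mod_cast h2
    _ ≤ ∑' m : ℕ, (Module.finrank ℚ K : ℝ) * (m : ℝ) ^ (-(3 / 2 : ℝ)) :=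
        (hs.mul_left _).sum_le_tsum _ fun m _ => mul_nonneg (by positivity) (hnn m)
    _ = _ := tsum_mul_left

end bdle

/-- B6. The constants are bounded in terms of the degree. -/
theorem bd_le (n : ℕ) : ∃ C : ℝ, ∀ (K : Type u) [Field K] [NumberField K],
    Module.finrank ℚ K = n → bd (Curve.qv (K := K)) (Curve.exc K) ≤ C ∧
      bd (Curve.qv (K := K)) ∅ ≤ C := by
  refine ⟨100 * ((n : ℝ) * (∑' m : ℕ, (m : ℝ) ^ (-(3 / 2 : ℝ))) + 2 * (n : ℝ)), ?_⟩
  intro K _ _ hK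
  have h1 := BdLe_tsum (K := K)
  have h2 := BdLe_ncard (K := K)
  rw [hK] at h1 h2
  constructor
  · unfold bd
    linarith
  · unfold bd
    rw [Set.ncard_empty, Nat.cast_zero]
    have h3 : (0 : ℝ) ≤ (n : ℝ) := by positivity
    linarith

end Pool.Agent.MPfb225e.Zfr
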