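import Mathlib

/-!
MP_fb225e_nt, project ZFR, module B0: the logarithmic derivative of an Euler product of degree two.
-/

namespace Pool.Agent.MPfb225e.Zfr

open Filter Topology Complex

variable {ι : Type*}

theorem LogDeriv_hasDerivAt {q : ℕ} (hq : 1 < q) (α z : ℂ) (hw : ‖α * (q : ℂ) ^ (-z)‖ < 1) :
    HasDerivAt (fun z : ℂ => -Complex.log (1 - α * (q : ℂ) ^ (-z)))
      (-(Real.log q : ℂ) * (α * (q : ℂ) ^ (-z) / (1 - α * (q : ℂ) ^ (-z)))) z := by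
  have hq0 : (q : ℂ) ≠ 0 := by
    have : q ≠ 0 := by omega
    exact_mod_cast this
  have h1 : HasDerivAt (fun z : ℂ => (q : ℂ) ^ (-z)) ((q : ℂ) ^ (-z) * Complex.log q * (-1)) z :=
    (hasDerivAt_id z).neg.const_cpow (Or.inl hq0)
  have h2 : HasDerivAt (fun z : ℂ => 1 - α * (q : ℂ) ^ (-z))
      (-(α * ((q : ℂ) ^ (-z) * Complex.log q * (-1)))) z := (h1.const_mul α).const_sub 1
  have hslit : (1 - α * (q : ℂ) ^ (-z)) ∈ Complex.slitPlane := by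
    rw [sub_eq_add_neg]
    exact Complex.mem_slitPlane_of_norm_lt_one (by rwa [norm_neg])
  have h3 := (h2.clog hslit).fun_neg
  have hne : (1 - α * (q : ℂ) ^ (-z)) ≠ 0 := Complex.slitPlane_ne_zero hslit
  refine h3.congr_deriv ?_
  rw [← Complex.natCast_log]
  field_simp

theorem LogDeriv_norm_log {w : ℂ} {ϱ : ℝ} (hϱ : ϱ < 1) (hw : ‖w‖ ≤ ϱ) :
    ‖Complex.log (1 - w)‖ ≤ ‖w‖ * (1 - ϱ)⁻¹ := by
  have hw1 : ‖-w‖ < 1 := by rw [norm_neg]; exact lt_of_le_of_lt hw hϱ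
  have h := Complex.norm_log_one_add_le hw1
  rw [norm_neg] at h
  rw [← sub_eq_add_neg] at h
  have hw0 : 0 ≤ ‖w‖ := norm_nonneg w
  have h1 : 0 < 1 - ϱ := by linarith
  have h2 : 0 < 1 - ‖w‖ := by linarith
  have h3 : (1 - ‖w‖)⁻¹ ≤ (1 - ϱ)⁻¹ := by
    apply inv_anti₀ h1
    linarith
  have h4 : ‖w‖ ^ 2 * (1 - ‖w‖)⁻¹ / 2 + ‖w‖ ≤ ‖w‖ * (1 - ‖w‖)⁻¹ := by
    have h5 : ‖w‖ * (1 - ‖w‖)⁻¹ - (‖w‖ ^ 2 * (1 - ‖w‖)⁻¹ / 2 + ‖w‖) =
        ‖w‖ ^ 2 / 2 * (1 - ‖w‖)⁻¹ := by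
      field_simp
      ring
    have h6 : 0 ≤ ‖w‖ ^ 2 / 2 * (1 - ‖w‖)⁻¹ := by positivity
    linarith
  calc ‖Complex.log (1 - w)‖ ≤ ‖w‖ ^ 2 * (1 - ‖w‖)⁻¹ / 2 + ‖w‖ := h
    _ ≤ ‖w‖ * (1 - ‖w‖)⁻¹ := h4
    _ ≤ ‖w‖ * (1 - ϱ)⁻¹ := mul_le_mul_of_nonneg_left h3 hw0

theorem LogDeriv_norm_le {q : ℕ} (hq : 1 < q) {α z : ℂ} {c σ : ℝ} (hα : ‖α‖ ≤ c)
    (hz : σ ≤ z.re) : ‖α * (q : ℂ) ^ (-z)‖ ≤ c * (q : ℝ) ^ (-σ) := by
  have hq0 : 0 < q := by omega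
  have hq1 : (1 : ℝ) ≤ q := by exact_mod_cast hq.le
  have hc : 0 ≤ c := le_trans (norm_nonneg _) hα
  rw [norm_mul, Complex.norm_natCast_cpow_of_pos hq0, Complex.neg_re]
  have h1 : (q : ℝ) ^ (-z.re) ≤ (q : ℝ) ^ (-σ) :=
    Real.rpow_le_rpow_of_exponent_le hq1 (by linarith)
  exact mul_le_mul hα h1 (Real.rpow_nonneg (by positivity) _) hc

/-- B0 (file Zfr/LogDeriv.lean). The logarithmic derivative of an Euler product of degree two. -/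
theorem hasSum_logDeriv (q : ι → ℕ) (hq : ∀ i, 1 < q i) (α β : ι → ℂ) (c : ι → ℝ)
    (hα : ∀ i, ‖α i‖ ≤ c i) (hβ : ∀ i, ‖β i‖ ≤ c i) (σ₀ ϱ : ℝ) (hϱ : ϱ < 1)
    (h1 : ∀ (i : ι) (σ : ℝ), σ₀ < σ → c i * (q i : ℝ) ^ (-σ) ≤ ϱ)
    (h2 : ∀ σ : ℝ, σ₀ < σ → Summable fun i => c i * (q i : ℝ) ^ (-σ))
    (E : ℂ → ℂ) (hE : ∀ s : ℂ, σ₀ < s.re →
      HasProd (fun i => (1 - α i * (q i : ℂ) ^ (-s))⁻¹ * (1 - β i * (q i : ℂ) ^ (-s))⁻¹) (E s))
    {s : ℂ} (hs : σ₀ < s.re) :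
    HasSum (fun i => -(Real.log (q i) : ℂ) * (α i * (q i : ℂ) ^ (-s) / (1 - α i * (q i : ℂ) ^ (-s)) +
      β i * (q i : ℂ) ^ (-s) / (1 - β i * (q i : ℂ) ^ (-s)))) (deriv E s / E s) := by
  obtain ⟨σ₁, hσ₁, hσ₁s⟩ := exists_between hs
  set V : Set ℂ := {z : ℂ | σ₁ < z.re} with hV
  have hVo : IsOpen V := isOpen_lt continuous_const Complex.continuous_re
  have hsV : s ∈ V := hσ₁s
  set g : ι → ℂ → ℂ := fun i z => -Complex.log (1 - α i * (q i : ℂ) ^ (-z)) +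
    -Complex.log (1 - β i * (q i : ℂ) ^ (-z)) with hg
  have hwα : ∀ i, ∀ z ∈ V, ‖α i * (q i : ℂ) ^ (-z)‖ ≤ c i * (q i : ℝ) ^ (-σ₁) := fun i z hz =>
    LogDeriv_norm_le (hq i) (hα i) (le_of_lt hz)
  have hwβ : ∀ i, ∀ z ∈ V, ‖β i * (q i : ℂ) ^ (-z)‖ ≤ c i * (q i : ℝ) ^ (-σ₁) := fun i z hz =>
    LogDeriv_norm_le (hq i) (hβ i) (le_of_lt hz)
  have hcϱ : ∀ i, c i * (q i : ℝ) ^ (-σ₁) ≤ ϱ := fun i => h1 i σ₁ hσ₁
  have hder : ∀ i, ∀ z ∈ V, HasDerivAt (g i)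
      (-(Real.log (q i) : ℂ) * (α i * (q i : ℂ) ^ (-z) / (1 - α i * (q i : ℂ) ^ (-z)) +
      β i * (q i : ℂ) ^ (-z) / (1 - β i * (q i : ℂ) ^ (-z)))) z := by
    intro i z hz
    have ha := LogDeriv_hasDerivAt (hq i) (α i) z
      (lt_of_le_of_lt ((hwα i z hz).trans (hcϱ i)) hϱ)
    have hb := LogDeriv_hasDerivAt (hq i) (β i) z
      (lt_of_le_of_lt ((hwβ i z hz).trans (hcϱ i)) hϱ)
    have := ha.add hb
    rw [← mul_add] at this
    exact this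
  have hdiff : ∀ i, DifferentiableOn ℂ (g i) V := fun i z hz =>
    (hder i z hz).differentiableAt.differentiableWithinAt
  set u : ι → ℝ := fun i => c i * (q i : ℝ) ^ (-σ₁) * (1 - ϱ)⁻¹ * 2 with hu
  have husum : Summable u := ((h2 σ₁ hσ₁).mul_right _).mul_right _
  have hbound : ∀ i, ∀ z ∈ V, ‖g i z‖ ≤ u i := by
    intro i z hz
    have h1ϱ : 0 < (1 - ϱ)⁻¹ := inv_pos.mpr (by linarith)
    have ha := LogDeriv_norm_log hϱ ((hwα i z hz).trans (hcϱ i))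
    have hb := LogDeriv_norm_log hϱ ((hwβ i z hz).trans (hcϱ i))
    have ha' := mul_le_mul_of_nonneg_right (hwα i z hz) h1ϱ.le
    have hb' := mul_le_mul_of_nonneg_right (hwβ i z hz) h1ϱ.le
    calc ‖g i z‖ ≤ ‖-Complex.log (1 - α i * (q i : ℂ) ^ (-z))‖ +
          ‖-Complex.log (1 - β i * (q i : ℂ) ^ (-z))‖ := norm_add_le _ _
      _ ≤ u i := by
        rw [norm_neg, norm_neg, hu]
        simp only
        linarith
  set H : ℂ → ℂ := fun z => ∑' i, g i z with hH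
  have hHsum : HasSum (fun i => deriv (g i) s) (deriv H s) :=
    Complex.hasSum_deriv_of_summable_norm husum hdiff hVo hbound hsV
  have hHdiff : DifferentiableOn ℂ H V :=
    Complex.differentiableOn_tsum_of_summable_norm husum hdiff hVo hbound
  have hexp : ∀ z ∈ V, E z = Complex.exp (H z) := by
    intro z hz
    have hsumz : Summable fun i => g i z :=
      Summable.of_norm_bounded husum (fun i => hbound i z hz)
    have hp : HasProd (fun i => Complex.exp (g i z)) (Complex.exp (H z)) := hsumz.hasSum.cexp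
    have hp' := hE z (hσ₁.trans hz)
    refine hp'.unique ?_
    convert hp using 2 with i
    have hsl : ∀ w : ℂ, ‖w‖ ≤ ϱ → (1 - w) ≠ 0 := by
      intro w hw hw0
      have : w = 1 := by
        rw [sub_eq_zero] at hw0
        exact hw0.symm
      rw [this, norm_one] at hw
      linarith
    rw [hg]
    simp only
    rw [Complex.exp_add, Complex.exp_neg, Complex.exp_neg,
      Complex.exp_log (hsl _ ((hwα i z hz).trans (hcϱ i))),
      Complex.exp_log (hsl _ ((hwβ i z hz).trans (hcϱ i)))]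
  have hEe : E =ᶠ[𝓝 s] fun z => Complex.exp (H z) := by
    filter_upwards [hVo.mem_nhds hsV] with z hz using hexp z hz
  have hHs : HasDerivAt H (deriv H s) s :=
    (hHdiff.differentiableAt (hVo.mem_nhds hsV)).hasDerivAt
  have hEd : deriv E s = Complex.exp (H s) * deriv H s := by
    rw [hEe.deriv_eq]
    exact hHs.cexp.deriv
  have hval : deriv E s / E s = deriv H s := by
    rw [hEd, hexp s hsV, mul_div_assoc, mul_comm, div_mul_cancel₀ _ (Complex.exp_ne_zero _)]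
  rw [hval]
  convert hHsum using 2 with i
  exact (hder i s hsV).deriv.symm

end Pool.Agent.MPfb225e.Zfr
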