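import Mathlib
import Pool.Agent.Lib.MP_fb225e_nt.LogExp
import Pool.Agent.Lib.MP_fb225e_nt.Zfr.Defs
import Pool.Agent.Lib.MP_fb225e_nt.Zfr.LogDeriv

/-!
MP_fb225e_nt, project ZFR, modules B1 and B2: expansion of the logarithmic derivative of a degree 2
Euler product near the edge of absolute convergence, and a lower bound for its logarithm.
-/

namespace Pool.Agent.MPfb225e.Zfr

open Filter Topology Complex NumberField IsDedekindDomain

universe u

variable {ι : Type*}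

open LogExp in
theorem Expand_inv_rho : 1 / (1 - rho) ≤ 7 / 2 := by
  have h1 : rho ≤ 5 / 7 := by
    unfold rho
    rw [Real.rpow_neg (by norm_num), ← Real.sqrt_eq_rpow]
    have h2 : (7 / 5 : ℝ) ≤ √2 := by
      apply Real.le_sqrt_of_sq_le
      norm_num
    calc (√2)⁻¹ ≤ (7 / 5 : ℝ)⁻¹ := inv_anti₀ (by norm_num) h2
      _ = 5 / 7 := by norm_num
  rw [div_le_iff₀ (by linarith)]
  linarith

theorem Expand_log_le {q : ℕ} (hq : 1 < q) : Real.log q ≤ 2 * (q : ℝ) ^ (1 / 2 : ℝ) := by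
  have h := Real.log_le_rpow_div (x := (q : ℝ)) (ε := 1 / 2) (by positivity) (by norm_num)
  linarith

/-- The majorant. -/
theorem Expand_hasSum_g {q : ι → ℕ} {Z : Set ι} (hZ : Z.Finite) [DecidablePred (· ∈ Z)]
    (hsum : Summable fun i => (q i : ℝ) ^ (-(3 / 2 : ℝ))) :
    HasSum (fun i => 14 * (q i : ℝ) ^ (-(3 / 2 : ℝ)) + (if i ∈ Z then (14 : ℝ) else 0))
      (14 * (∑' i, (q i : ℝ) ^ (-(3 / 2 : ℝ))) + 14 * (Z.ncard : ℝ)) := by
  refine (hsum.hasSum.mul_left 14).add ?_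
  have h := hasSum_sum_of_ne_finset_zero (f := fun i => if i ∈ Z then (14 : ℝ) else 0)
    (s := hZ.toFinset) (L := SummationFilter.unconditional ι)
    (fun i hi => by
      have : i ∉ Z := fun h => hi (by simpa using h)
      simp [this])
  have e : ∑ i ∈ hZ.toFinset, (if i ∈ Z then (14 : ℝ) else 0) = 14 * (Z.ncard : ℝ) := by
    rw [Finset.sum_congr rfl (g := fun _ => (14 : ℝ)) (fun i hi => by
      have : i ∈ Z := by simpa using hi
      simp [this])]
    rw [Finset.sum_const, Set.ncard_eq_toFinset_card Z hZ]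
    simp [mul_comm]
  rw [e] at h
  exact h

theorem Expand_g_le_bd {q : ι → ℕ} {Z : Set ι} :
    14 * (∑' i, (q i : ℝ) ^ (-(3 / 2 : ℝ))) + 14 * (Z.ncard : ℝ) ≤ bd q Z := by
  have h1 : 0 ≤ ∑' i, (q i : ℝ) ^ (-(3 / 2 : ℝ)) :=
    tsum_nonneg fun i => Real.rpow_nonneg (by positivity) _
  have h2 : (0 : ℝ) ≤ Z.ncard := by positivity
  unfold bd
  linarith

theorem Expand_norm_sub {w : ℂ} {ϱ : ℝ} (hw : ‖w‖ ≤ ϱ) (hϱ : ϱ < 1) :
    ‖w / (1 - w)‖ ≤ 1 / (1 - ϱ) * ‖w‖ ∧ ‖w / (1 - w) - w‖ ≤ 1 / (1 - ϱ) * ‖w‖ ^ 2 := by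
  have h1 : 1 - ϱ ≤ ‖1 - w‖ := by
    have := norm_sub_norm_le (1 : ℂ) w
    simp only [norm_one] at this
    linarith
  have h0 : 0 < 1 - ϱ := by linarith
  have hne : (1 - w) ≠ 0 := by
    intro h
    rw [h, norm_zero] at h1
    linarith
  have h2 : ‖1 - w‖⁻¹ ≤ 1 / (1 - ϱ) := by
    rw [one_div]
    exact inv_anti₀ h0 h1
  constructor
  · rw [norm_div, div_eq_mul_inv, mul_comm]
    exact mul_le_mul_of_nonneg_right h2 (norm_nonneg _)
  · have e : w / (1 - w) - w = w ^ 2 / (1 - w) := by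
      field_simp
      ring
    rw [e, norm_div, norm_pow, div_eq_mul_inv, mul_comm]
    exact mul_le_mul_of_nonneg_right h2 (by positivity)

open LogExp in
theorem Expand_xs_eq {q : ι → ℕ} {a b : ι → ℤ} {α β : ι → ℂ} {c : ι → ℝ} {Z : Set ι}
    (D : Data q a b α β c Z) (t ε : ℝ) {i : ι} (hi : i ∉ Z) :
    xs q a Z i * ((q i : ℝ) ^ (-(1 + ε)) * Real.cos (t * Real.log (q i))) =
      (α i * (q i : ℂ) ^ (-(((3 / 2 + ε : ℝ) : ℂ) + t * I))).re +
      (β i * (q i : ℂ) ^ (-(((3 / 2 + ε : ℝ) : ℂ) + t * I))).re := by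
  have hq := D.hq i
  have hq0 : (0 : ℝ) < q i := by exact_mod_cast (by omega : 0 < q i)
  have hre : (((3 / 2 + ε : ℝ) : ℂ) + t * I).re = 3 / 2 + ε := by simp
  have him : (((3 / 2 + ε : ℝ) : ℂ) + t * I).im = t := by simp
  have e0 : (α i * (q i : ℂ) ^ (-(((3 / 2 + ε : ℝ) : ℂ) + t * I))).re +
      (β i * (q i : ℂ) ^ (-(((3 / 2 + ε : ℝ) : ℂ) + t * I))).re =
      (a i : ℝ) * ((q i : ℝ) ^ (-(3 / 2 + ε)) * Real.cos (t * Real.log (q i))) := by
    rw [← Complex.add_re, ← add_mul, D.hadd i]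
    have h := re_cpow_neg hq (((3 / 2 + ε : ℝ) : ℂ) + t * I)
    rw [hre, him] at h
    rw [← h, Complex.mul_re]
    simp
  rw [e0]
  simp only [xs, if_neg hi]
  have e1 : (q i : ℝ) ^ (-(1 + ε)) = √(q i : ℝ) * (q i : ℝ) ^ (-(3 / 2 + ε)) := by
    rw [Real.sqrt_eq_rpow, ← Real.rpow_add hq0]
    congr 1
    ring
  have hsq : √(q i : ℝ) ≠ 0 := (Real.sqrt_pos.mpr hq0).ne'
  rw [e1]
  field_simp

open LogExp in
/-- B1 (file Zfr/Expand.lean). -/
theorem deriv_expansion {q : ι → ℕ} {a b : ι → ℤ} {α β : ι → ℂ} {c : ι → ℝ} {Z : Set ι}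
    (D : Data q a b α β c Z) [Northcott q] (t ε : ℝ) (hε : 0 < ε) (hε1 : ε ≤ 1) :
    |(deriv (L q a b) ((3 / 2 + ε : ℝ) + t * I) / L q a b ((3 / 2 + ε : ℝ) + t * I)).re +
      ∑' i, xs q a Z i * (Real.log (q i) * (q i : ℝ) ^ (-(1 + ε)) * Real.cos (t * Real.log (q i)))|
      ≤ bd q Z := by
  classical
  set s : ℂ := (3 / 2 + ε : ℝ) + t * I with hs
  have hre : s.re = 3 / 2 + ε := by simp [hs]
  have hs32 : 3 / 2 < s.re := by rw [hre]; linarith
  have hρ : 0 < 1 - rho := by linarith [rho_lt]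
  have hρ7 := Expand_inv_rho
  have hρ0 : 0 ≤ 1 / (1 - rho) := by positivity
  have hB := hasSum_logDeriv q D.hq α β c D.hα D.hβ (3 / 2) rho rho_lt
    (fun i σ hσ => by
      have h := D.r_le (s := (σ : ℂ)) (by simpa using hσ) i
      simpa using h)
    (fun σ hσ => by
      have h := D.summable_r (s := (σ : ℂ)) (by simpa using hσ)
      simpa using h)
    (L q a b) (fun z hz => D.hasProd hz) hs32
  have hBre := Complex.hasSum_re hB
  set T : ι → ℝ := fun i => (-(Real.log (q i) : ℂ) *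
    (α i * (q i : ℂ) ^ (-s) / (1 - α i * (q i : ℂ) ^ (-s)) +
      β i * (q i : ℂ) ^ (-s) / (1 - β i * (q i : ℂ) ^ (-s)))).re with hT
  set S : ι → ℝ := fun i => xs q a Z i *
    (Real.log (q i) * (q i : ℝ) ^ (-(1 + ε)) * Real.cos (t * Real.log (q i))) with hS
  have hg := Expand_hasSum_g (q := q) D.hZ (D.hsum (3 / 2) (by norm_num))
  have hTre : ∀ i, T i = -(Real.log (q i)) *
      ((α i * (q i : ℂ) ^ (-s) / (1 - α i * (q i : ℂ) ^ (-s))).re +
      (β i * (q i : ℂ) ^ (-s) / (1 - β i * (q i : ℂ) ^ (-s))).re) := by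
    intro i
    simp only [hT]
    rw [← Complex.ofReal_neg, Complex.re_ofReal_mul, Complex.add_re]
  have hb : ∀ i, ‖T i + S i‖ ≤
      14 * (q i : ℝ) ^ (-(3 / 2 : ℝ)) + (if i ∈ Z then (14 : ℝ) else 0) := by
    intro i
    have hq := D.hq i
    have hq1 : (1 : ℝ) ≤ q i := by exact_mod_cast (by omega : 1 ≤ q i)
    have hq0 : (0 : ℝ) < q i := by linarith
    have hlog0 : 0 ≤ Real.log (q i) := Real.log_nonneg hq1
    have hlog := Expand_log_le hq
    obtain ⟨hu1, hu2⟩ := Expand_norm_sub ((D.norm_α (s := s) i).trans (D.r_le hs32 i)) rho_lt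
    obtain ⟨hv1, hv2⟩ := Expand_norm_sub ((D.norm_β (s := s) i).trans (D.r_le hs32 i)) rho_lt
    have hu := D.norm_α (s := s) i
    have hv := D.norm_β (s := s) i
    set u : ℂ := α i * (q i : ℂ) ^ (-s) with hudef
    set v : ℂ := β i * (q i : ℂ) ^ (-s) with hvdef
    rw [Real.norm_eq_abs]
    by_cases hi : i ∈ Z
    · have hr : c i * (q i : ℝ) ^ (-s.re) ≤ (q i : ℝ) ^ (-(1 / 2 : ℝ)) := by
        calc c i * (q i : ℝ) ^ (-s.re) ≤ (q i : ℝ) * (q i : ℝ) ^ (-s.re) :=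
              mul_le_mul_of_nonneg_right (D.hcq i) (Real.rpow_nonneg hq0.le _)
          _ = (q i : ℝ) ^ (1 - s.re) := by
              rw [sub_eq_add_neg, Real.rpow_add hq0, Real.rpow_one]
          _ ≤ (q i : ℝ) ^ (-(1 / 2 : ℝ)) :=
              Real.rpow_le_rpow_of_exponent_le (by linarith) (by linarith)
      have hS0 : S i = 0 := by simp [hS, xs, hi]
      rw [hS0, add_zero, hTre, abs_mul, abs_neg, abs_of_nonneg hlog0, if_pos hi]
      have h1 : |(u / (1 - u)).re + (v / (1 - v)).re| ≤ 7 * (q i : ℝ) ^ (-(1 / 2 : ℝ)) := by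
        refine (abs_add_le _ _).trans ?_
        have a1 := (Complex.abs_re_le_norm (u / (1 - u))).trans hu1
        have a2 := (Complex.abs_re_le_norm (v / (1 - v))).trans hv1
        have a3 : 1 / (1 - rho) * ‖u‖ ≤ 7 / 2 * (q i : ℝ) ^ (-(1 / 2 : ℝ)) :=
          mul_le_mul hρ7 (hu.trans hr) (norm_nonneg _) (by norm_num)
        have a4 : 1 / (1 - rho) * ‖v‖ ≤ 7 / 2 * (q i : ℝ) ^ (-(1 / 2 : ℝ)) :=
          mul_le_mul hρ7 (hv.trans hr) (norm_nonneg _) (by norm_num)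
        linarith
      have h2 : (q i : ℝ) ^ (1 / 2 : ℝ) * (q i : ℝ) ^ (-(1 / 2 : ℝ)) = 1 := by
        rw [← Real.rpow_add hq0]
        norm_num
      have h3 : Real.log (q i) * |(u / (1 - u)).re + (v / (1 - v)).re| ≤
          (2 * (q i : ℝ) ^ (1 / 2 : ℝ)) * (7 * (q i : ℝ) ^ (-(1 / 2 : ℝ))) :=
        mul_le_mul hlog h1 (abs_nonneg _) (by positivity)
      have h4 : (2 * (q i : ℝ) ^ (1 / 2 : ℝ)) * (7 * (q i : ℝ) ^ (-(1 / 2 : ℝ))) = 14 := by
        calc (2 * (q i : ℝ) ^ (1 / 2 : ℝ)) * (7 * (q i : ℝ) ^ (-(1 / 2 : ℝ)))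
            = 14 * ((q i : ℝ) ^ (1 / 2 : ℝ) * (q i : ℝ) ^ (-(1 / 2 : ℝ))) := by ring
          _ = 14 := by rw [h2, mul_one]
      have h5 : 0 ≤ 14 * (q i : ℝ) ^ (-(3 / 2 : ℝ)) := by positivity
      linarith
    · have hSi : S i = Real.log (q i) * (u.re + v.re) := by
        have h := Expand_xs_eq D t ε hi
        rw [← hs] at h
        simp only [hS]
        rw [hudef, hvdef, ← h]
        ring
      have e : T i + S i = -(Real.log (q i)) *
          ((u / (1 - u) - u).re + (v / (1 - v) - v).re) := by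
        rw [hTre, hSi, Complex.sub_re, Complex.sub_re]
        ring
      rw [e, abs_mul, abs_neg, abs_of_nonneg hlog0, if_neg hi, add_zero]
      have hr : c i * (q i : ℝ) ^ (-s.re) ≤ (q i : ℝ) ^ (-(1 : ℝ)) := by
        rw [D.r_eq hi]
        exact Real.rpow_le_rpow_of_exponent_le hq1 (by linarith)
      have hsq : ∀ w : ℂ, ‖w‖ ≤ c i * (q i : ℝ) ^ (-s.re) →
          ‖w‖ ^ 2 ≤ (q i : ℝ) ^ (-(2 : ℝ)) := by
        intro w hw
        calc ‖w‖ ^ 2 ≤ ((q i : ℝ) ^ (-(1 : ℝ))) ^ 2 :=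
              pow_le_pow_left₀ (norm_nonneg _) (hw.trans hr) 2
          _ = (q i : ℝ) ^ (-(2 : ℝ)) := by
              rw [← Real.rpow_natCast, ← Real.rpow_mul hq0.le]
              norm_num
      have h1 : |(u / (1 - u) - u).re + (v / (1 - v) - v).re| ≤ 7 * (q i : ℝ) ^ (-(2 : ℝ)) := by
        refine (abs_add_le _ _).trans ?_
        have a1 := (Complex.abs_re_le_norm (u / (1 - u) - u)).trans hu2
        have a2 := (Complex.abs_re_le_norm (v / (1 - v) - v)).trans hv2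
        have a3 : 1 / (1 - rho) * ‖u‖ ^ 2 ≤ 7 / 2 * (q i : ℝ) ^ (-(2 : ℝ)) :=
          mul_le_mul hρ7 (hsq _ hu) (by positivity) (by norm_num)
        have a4 : 1 / (1 - rho) * ‖v‖ ^ 2 ≤ 7 / 2 * (q i : ℝ) ^ (-(2 : ℝ)) :=
          mul_le_mul hρ7 (hsq _ hv) (by positivity) (by norm_num)
        linarith
      have h2 : (q i : ℝ) ^ (1 / 2 : ℝ) * (q i : ℝ) ^ (-(2 : ℝ)) = (q i : ℝ) ^ (-(3 / 2 : ℝ)) := by
        rw [← Real.rpow_add hq0]
        norm_num
      calc Real.log (q i) * |(u / (1 - u) - u).re + (v / (1 - v) - v).re|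
          ≤ (2 * (q i : ℝ) ^ (1 / 2 : ℝ)) * (7 * (q i : ℝ) ^ (-(2 : ℝ))) :=
            mul_le_mul hlog h1 (abs_nonneg _) (by positivity)
        _ = 14 * ((q i : ℝ) ^ (1 / 2 : ℝ) * (q i : ℝ) ^ (-(2 : ℝ))) := by ring
        _ = 14 * (q i : ℝ) ^ (-(3 / 2 : ℝ)) := by rw [h2]
  have hTS : Summable fun i => T i + S i := Summable.of_norm_bounded hg.summable hb
  have hSs : Summable S := by
    have h := hTS.sub hBre.summable
    refine h.congr fun i => ?_
    simp only [hT]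
    ring
  have hsum : (deriv (L q a b) s / L q a b s).re + ∑' i, S i = ∑' i, (T i + S i) := by
    rw [(hBre.summable.tsum_add hSs : ∑' i, (T i + S i) = _), hBre.tsum_eq]
  rw [hsum, ← Real.norm_eq_abs]
  have hn := Summable.of_nonneg_of_le (fun _ => norm_nonneg _) hb hg.summable
  calc ‖∑' i, (T i + S i)‖ ≤ ∑' i, ‖T i + S i‖ := norm_tsum_le_tsum_norm hn
    _ ≤ ∑' i, (14 * (q i : ℝ) ^ (-(3 / 2 : ℝ)) + (if i ∈ Z then (14 : ℝ) else 0)) :=
        hn.tsum_le_tsum hb hg.summable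
    _ = 14 * (∑' i, (q i : ℝ) ^ (-(3 / 2 : ℝ))) + 14 * (Z.ncard : ℝ) := hg.tsum_eq
    _ ≤ bd q Z := Expand_g_le_bd

open LogExp in
/-- B2 (file Zfr/Expand.lean). -/
theorem log_lower {q : ι → ℕ} {a b : ι → ℤ} {α β : ι → ℂ} {c : ι → ℝ} {Z : Set ι}
    (D : Data q a b α β c Z) [Northcott q] (t ε : ℝ) (hε : 0 < ε) (hε1 : ε ≤ 1) :
    -2 * (∑' i, (q i : ℝ) ^ (-(1 + ε))) - bd q Z ≤
      Real.log ‖L q a b ((3 / 2 + ε : ℝ) + t * I)‖ := by
  classical
  set s : ℂ := (3 / 2 + ε : ℝ) + t * I with hs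
  have hre : s.re = 3 / 2 + ε := by simp [hs]
  have him : s.im = t := by simp [hs]
  have hs32 : 3 / 2 < s.re := by rw [hre]; linarith
  have hρ : 0 < 1 - rho := by linarith [rho_lt]
  have hρ7 := Expand_inv_rho
  rw [D.log_L hs32]
  have hg := Expand_hasSum_g (q := q) D.hZ (D.hsum (3 / 2) (by norm_num))
  have hq1s := (D.hsum (1 + ε) (by linarith)).hasSum.mul_left 2
  have hlog := (D.summable_log hs32).hasSum
  have htot := (hlog.add hq1s).add hg
  have hpos : ∀ i, 0 ≤ Real.log ‖fac q α β s i‖ + 2 * (q i : ℝ) ^ (-(1 + ε)) +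
      (14 * (q i : ℝ) ^ (-(3 / 2 : ℝ)) + (if i ∈ Z then (14 : ℝ) else 0)) := by
    intro i
    have hq := D.hq i
    have hq1 : (1 : ℝ) ≤ q i := by exact_mod_cast (by omega : 1 ≤ q i)
    have hq0 : (0 : ℝ) < q i := by linarith
    have p1 : 0 ≤ (q i : ℝ) ^ (-(1 + ε)) := Real.rpow_nonneg hq0.le _
    have p2 : 0 ≤ (q i : ℝ) ^ (-(3 / 2 : ℝ)) := Real.rpow_nonneg hq0.le _
    by_cases hi : i ∈ Z
    · have h1 := D.abs_log_fac_le hs32 i
      have h2 := D.r_le hs32 i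
      have h3 := (abs_le.mp h1).1
      have h4 : 4 / (1 - rho) * (c i * (q i : ℝ) ^ (-s.re)) ≤ 14 * 1 := by
        have e : 4 / (1 - rho) = 4 * (1 / (1 - rho)) := by ring
        refine mul_le_mul ?_ (h2.trans rho_lt.le) ?_ (by norm_num)
        · rw [e]; linarith
        · exact mul_nonneg (D.c_nonneg i) (Real.rpow_nonneg hq0.le _)
      rw [if_pos hi]
      linarith
    · have h1 := D.abs_log_fac_sub_le hs32 hi
      have h3 := (abs_le.mp h1).1
      have e : xs q a Z i * ((q i : ℝ) ^ (-(1 + ε)) * Real.cos (t * Real.log (q i))) =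
          (a i : ℝ) * ((q i : ℝ) ^ (-s.re) * Real.cos (s.im * Real.log (q i))) := by
        rw [hre, him]
        simp only [xs, if_neg hi]
        have e1 : (q i : ℝ) ^ (-(1 + ε)) = √(q i : ℝ) * (q i : ℝ) ^ (-(3 / 2 + ε)) := by
          rw [Real.sqrt_eq_rpow, ← Real.rpow_add hq0]
          congr 1
          ring
        have hsq : √(q i : ℝ) ≠ 0 := (Real.sqrt_pos.mpr hq0).ne'
        rw [e1]
        field_simp
      rw [← e] at h3
      have h4 : |xs q a Z i * ((q i : ℝ) ^ (-(1 + ε)) * Real.cos (t * Real.log (q i)))| ≤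
          2 * (q i : ℝ) ^ (-(1 + ε)) := by
        rw [abs_mul, abs_mul, abs_of_nonneg p1]
        calc |xs q a Z i| * ((q i : ℝ) ^ (-(1 + ε)) * |Real.cos (t * Real.log (q i))|)
            ≤ 2 * ((q i : ℝ) ^ (-(1 + ε)) * 1) := by
              refine mul_le_mul (D.abs_xs_le i)
                (mul_le_mul_of_nonneg_left (Real.abs_cos_le_one _) p1) (by positivity)
                (by norm_num)
          _ = 2 * (q i : ℝ) ^ (-(1 + ε)) := by ring
      have h5 := (abs_le.mp h4).1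
      have h6 : 2 / (1 - rho) * (q i : ℝ) ^ (-(2 : ℝ)) ≤ 7 * (q i : ℝ) ^ (-(3 / 2 : ℝ)) := by
        have e : 2 / (1 - rho) = 2 * (1 / (1 - rho)) := by ring
        refine mul_le_mul ?_ ?_ (Real.rpow_nonneg hq0.le _) (by norm_num)
        · rw [e]; linarith
        · exact Real.rpow_le_rpow_of_exponent_le hq1 (by norm_num)
      rw [if_neg hi]
      linarith
  have h := htot.nonneg hpos
  have h' := Expand_g_le_bd (q := q) (Z := Z)
  linarith

end Pool.Agent.MPfb225e.Zfr
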