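import Mathlib
import Pool.Agent.Lib.MP_fb225e_nt.OrthogProof

/-!
MP_fb225e_nt, project ZFR, module C: `(s - 1) ζ_K(s)` to the left of `Re s = 1`.
-/

namespace Pool.Agent.MPfb225e.Zfr

open Filter Topology Complex
open NumberField IsDedekindDomain

universe u

/-- the error term of the counting function, extended by zero -/
noncomputable def ZK_err (a : ℕ → ℝ) (κ : ℝ) (t : ℝ) : ℂ :=
  if 1 ≤ t then ((∑ k ∈ Finset.Icc 1 ⌊t⌋₊, a k - κ * t : ℝ) : ℂ) else 0

theorem ZK_err_measurable (a : ℕ → ℝ) (κ : ℝ) : Measurable (ZK_err a κ) := by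
  unfold ZK_err
  refine Measurable.ite measurableSet_Ici ?_ measurable_const
  refine Complex.measurable_ofReal.comp ?_
  refine Measurable.sub ?_ (measurable_const.mul measurable_id)
  exact (measurable_from_nat (f := fun n : ℕ => ∑ k ∈ Finset.Icc 1 n, a k)).comp
    Nat.measurable_floor

theorem ZK_err_le (a : ℕ → ℝ) (κ M δ : ℝ) (hM : 0 ≤ M)
    (hcount : ∀ x : ℝ, 1 ≤ x →
      |∑ k ∈ Finset.Icc 1 ⌊x⌋₊, a k - κ * x| ≤ M * x ^ (1 - δ)) (t : ℝ) (ht : 0 ≤ t) :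
    ‖ZK_err a κ t‖ ≤ M * t ^ (1 - δ) := by
  unfold ZK_err
  split_ifs with h
  · rw [Complex.norm_real, Real.norm_eq_abs]
    exact hcount t h
  · rw [norm_zero]
    positivity

theorem ZK_mellin_eq (a : ℕ → ℝ) (κ : ℝ) (s : ℂ) :
    mellin (ZK_err a κ) (-s) =
      ∫ t in Set.Ioi (1 : ℝ), (t : ℂ) ^ (-s - 1) • ZK_err a κ t := by
  unfold mellin
  apply MeasureTheory.setIntegral_eq_of_subset_of_ae_sdiff_eq_zero
  · exact measurableSet_Ioi.nullMeasurableSet
  · exact Set.Ioi_subset_Ioi zero_le_one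
  · have hne : ∀ᵐ x : ℝ, x ≠ 1 := by
      simp [MeasureTheory.ae_iff]
    filter_upwards [hne] with x hx1 hx
    have h5 : x < 1 := by
      rcases hx with ⟨h5, h6⟩
      rw [Set.mem_Ioi, not_lt] at h6
      exact lt_of_le_of_ne h6 hx1
    simp [ZK_err, not_le.2 h5]

theorem ZK_norm_le (a : ℕ → ℝ) (κ M δ : ℝ) (hM : 0 ≤ M)
    (hcount : ∀ x : ℝ, 1 ≤ x →
      |∑ k ∈ Finset.Icc 1 ⌊x⌋₊, a k - κ * x| ≤ M * x ^ (1 - δ)) (s : ℂ)
    (t : ℝ) (ht : t ∈ Set.Ioi (1 : ℝ)) :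
    ‖(t : ℂ) ^ (-s - 1) • ZK_err a κ t‖ ≤ M * t ^ (-(δ + s.re)) := by
  rw [Set.mem_Ioi] at ht
  have ht0 : 0 < t := by linarith
  rw [norm_smul, Complex.norm_cpow_eq_rpow_re_of_pos ht0]
  calc t ^ (-s - 1).re * ‖ZK_err a κ t‖ ≤ t ^ (-s - 1).re * (M * t ^ (1 - δ)) :=
        mul_le_mul_of_nonneg_left (ZK_err_le a κ M δ hM hcount t ht0.le) (by positivity)
    _ = M * (t ^ (-s - 1).re * t ^ (1 - δ)) := by ring
    _ = M * t ^ (-(δ + s.re)) := by
        rw [← Real.rpow_add ht0]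
        congr 2
        simp
        ring

theorem ZK_integrable (M δ : ℝ) (s : ℂ) (hs : 1 < δ + s.re) :
    MeasureTheory.IntegrableOn (fun t : ℝ => M * t ^ (-(δ + s.re))) (Set.Ioi 1) :=
  (integrableOn_Ioi_rpow_of_lt (by linarith) one_pos).const_mul M

theorem ZK_mellin_le (a : ℕ → ℝ) (κ M δ : ℝ) (hM : 0 ≤ M)
    (hcount : ∀ x : ℝ, 1 ≤ x →
      |∑ k ∈ Finset.Icc 1 ⌊x⌋₊, a k - κ * x| ≤ M * x ^ (1 - δ)) (s : ℂ)
    (hs : 1 < δ + s.re) :
    ‖mellin (ZK_err a κ) (-s)‖ ≤ M / (δ + s.re - 1) := by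
  rw [ZK_mellin_eq]
  have h1 := MeasureTheory.norm_integral_le_of_norm_le (ZK_integrable M δ s hs)
    (MeasureTheory.ae_restrict_of_forall_mem measurableSet_Ioi
      (fun t ht => ZK_norm_le a κ M δ hM hcount s t ht))
  refine h1.trans (le_of_eq ?_)
  rw [MeasureTheory.integral_const_mul, integral_Ioi_rpow_of_lt (by linarith) one_pos]
  rw [Real.one_rpow]
  have h2 : -(δ + s.re) + 1 = -(δ + s.re - 1) := by ring
  rw [h2, neg_div_neg_eq]
  ring

theorem ZK_abstract (a : ℕ → ℝ) (ha : ∀ n, 0 ≤ a n) (ha1 : a 1 ≤ 1) (κ M δ : ℝ) (hδ : 0 < δ)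
    (hδ1 : δ ≤ 1 / 2) (hM : 1 ≤ M)
    (hcount : ∀ x : ℝ, 1 ≤ x →
      |∑ k ∈ Finset.Icc 1 ⌊x⌋₊, a k - κ * x| ≤ M * x ^ (1 - δ)) :
    ∃ Z : ℂ → ℂ, (∀ s : ℂ, 1 - δ < s.re → DifferentiableAt ℂ Z s) ∧
      (∀ s : ℂ, 1 < s.re → Z s = (s - 1) * LSeries (fun n => (a n : ℂ)) s) ∧
      ∀ s : ℂ, 1 - 3 / 4 * δ ≤ s.re → ‖Z s‖ ≤ 10 * M * (1 + ‖s‖) ^ 2 / δ := by
  have hM0 : 0 ≤ M := by linarith
  refine ⟨fun s => κ * s + (s - 1) * s * mellin (ZK_err a κ) (-s), ?_, ?_, ?_⟩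
  · intro s hs
    have hloc : MeasureTheory.LocallyIntegrableOn (ZK_err a κ) (Set.Ioi 0) := by
      have hg : MeasureTheory.LocallyIntegrableOn (fun t : ℝ => M * t ^ (1 - δ)) (Set.Ioi 0) := by
        refine ContinuousOn.locallyIntegrableOn ?_ measurableSet_Ioi
        refine continuousOn_const.mul (ContinuousOn.rpow_const continuousOn_id ?_)
        intro x hx
        exact Or.inl (ne_of_gt hx)
      refine fun x hx => ?_
      obtain ⟨U, hU, hU2⟩ := hg x hx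
      refine ⟨U ∩ Set.Ioi 0, Filter.inter_mem hU self_mem_nhdsWithin, ?_⟩
      refine MeasureTheory.Integrable.mono (hU2.mono_set Set.inter_subset_left)
        (ZK_err_measurable a κ).aestronglyMeasurable ?_
      have : ∀ᵐ t ∂(MeasureTheory.volume.restrict (U ∩ Set.Ioi (0:ℝ))), t ∈ Set.Ioi (0:ℝ) := by
        have h1 : ∀ᵐ t ∂(MeasureTheory.volume.restrict (Set.Ioi (0:ℝ))), t ∈ Set.Ioi (0:ℝ) :=
          MeasureTheory.ae_restrict_mem measurableSet_Ioi
        exact MeasureTheory.ae_mono (MeasureTheory.Measure.restrict_mono Set.inter_subset_right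
          le_rfl) h1
      filter_upwards [this] with t ht
      rw [Real.norm_of_nonneg (by have := (Set.mem_Ioi.1 ht).le; positivity)]
      exact ZK_err_le a κ M δ hM0 hcount t (Set.mem_Ioi.1 ht).le
    have htop : ZK_err a κ =O[atTop] fun t : ℝ => t ^ (-(-(1 - δ))) := by
      rw [neg_neg]
      refine Asymptotics.IsBigO.of_bound M ?_
      filter_upwards [eventually_ge_atTop 0] with t ht
      rw [Real.norm_of_nonneg (by positivity)]
      exact ZK_err_le a κ M δ hM0 hcount t ht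
    have hbot : ∀ c : ℝ, ZK_err a κ =O[𝓝[>] 0] fun t : ℝ => t ^ (-c) := by
      intro c
      refine Asymptotics.IsBigO.of_bound 0 ?_
      have hsmall : ∀ᶠ ε : ℝ in 𝓝[>] 0, ε < 1 := by
        have : ∀ᶠ ε : ℝ in 𝓝 0, ε < 1 := gt_mem_nhds (by norm_num)
        exact this.filter_mono nhdsWithin_le_nhds
      filter_upwards [hsmall] with ε hε
      simp [ZK_err, not_le.2 hε]
    have h1 : DifferentiableAt ℂ (mellin (ZK_err a κ)) (-s) :=
      mellin_differentiableAt_of_isBigO_rpow (a := -(1 - δ)) (b := (-s).re - 1) hloc htop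
        (by rw [Complex.neg_re]; linarith) (hbot _) (by linarith)
    have h2 : DifferentiableAt ℂ (fun s : ℂ => mellin (ZK_err a κ) (-s)) s :=
      h1.comp s differentiableAt_id.neg
    exact ((differentiableAt_const _).mul differentiableAt_id).add
      (((differentiableAt_id.sub (differentiableAt_const _)).mul differentiableAt_id).mul h2)
  · intro s hs
    have hs0 : s ≠ 0 := by
      intro h; rw [h] at hs; norm_num at hs
    have hs1 : s - 1 ≠ 0 := by
      intro h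
      have : s = 1 := sub_eq_zero.1 h
      rw [this] at hs; norm_num at hs
    have hO : (fun n : ℕ => ∑ k ∈ Finset.Icc 1 n, a k) =O[atTop] fun n : ℕ => (n : ℝ) ^ (1 : ℝ) := by
      refine Asymptotics.IsBigO.of_bound (M + |κ|) ?_
      filter_upwards [eventually_ge_atTop 1] with n hn
      have hn' : (1 : ℝ) ≤ n := by exact_mod_cast hn
      have h := hcount n hn'
      rw [Nat.floor_natCast] at h
      rw [Real.rpow_one, Real.norm_eq_abs, Real.norm_of_nonneg (by positivity)]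
      have h1 : |∑ k ∈ Finset.Icc 1 n, a k| ≤ |∑ k ∈ Finset.Icc 1 n, a k - κ * n| + |κ * n| := by
        have := abs_add_le (∑ k ∈ Finset.Icc 1 n, a k - κ * n) (κ * n)
        rwa [sub_add_cancel] at this
      have h2 : (n : ℝ) ^ (1 - δ) ≤ n := by
        have := Real.rpow_le_rpow_of_exponent_le hn' (by linarith : 1 - δ ≤ 1)
        rwa [Real.rpow_one] at this
      have h3 : |κ * n| = |κ| * n := by rw [abs_mul, abs_of_nonneg (by positivity : (0:ℝ) ≤ n)]
      rw [h3] at h1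
      have h4 : M * (n : ℝ) ^ (1 - δ) ≤ M * n := mul_le_mul_of_nonneg_left h2 hM0
      linarith
    show κ * s + (s - 1) * s * mellin (ZK_err a κ) (-s) = _
    rw [LSeries_eq_mul_integral_of_nonneg a zero_le_one hs hO ha, ZK_mellin_eq]
    have e1 : ∫ t in Set.Ioi (1 : ℝ), (∑ k ∈ Finset.Icc 1 ⌊t⌋₊, (a k : ℂ)) * (t : ℂ) ^ (-(s + 1)) =
        ∫ t in Set.Ioi (1 : ℝ), ((t : ℂ) ^ (-s - 1) • ZK_err a κ t + κ * (t : ℂ) ^ (-s)) := by
      refine MeasureTheory.setIntegral_congr_fun measurableSet_Ioi fun t ht => ?_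
      have ht1 : (1:ℝ) < t := ht
      have ht0 : (t : ℂ) ≠ 0 := by
        intro h; rw [Complex.ofReal_eq_zero] at h; linarith
      have e2 : (t : ℂ) ^ (-s) = (t : ℂ) ^ (-s - 1) * t := by
        nth_rewrite 3 [← Complex.cpow_one (t : ℂ)]
        rw [← Complex.cpow_add _ _ ht0]
        congr 1
        ring
      simp only [ZK_err, if_pos ht1.le, smul_eq_mul]
      rw [e2, show -(s + 1) = -s - 1 by ring]
      push_cast
      ring
    have i1 : MeasureTheory.IntegrableOn (fun t : ℝ => (t : ℂ) ^ (-s - 1) • ZK_err a κ t)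
        (Set.Ioi 1) := by
      refine MeasureTheory.Integrable.mono' (ZK_integrable M δ s (by linarith)) ?_
        (MeasureTheory.ae_restrict_of_forall_mem measurableSet_Ioi
          (fun t ht => ZK_norm_le a κ M δ hM0 hcount s t ht))
      have hcp : MeasureTheory.AEStronglyMeasurable (fun t : ℝ => (t : ℂ) ^ (-s - 1))
          (MeasureTheory.volume.restrict (Set.Ioi 1)) := ?_
      · exact hcp.smul (ZK_err_measurable a κ).aestronglyMeasurable
      refine ContinuousOn.aestronglyMeasurable ?_ measurableSet_Ioi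
      intro t ht
      refine (continuousAt_ofReal_cpow_const _ _ (Or.inr ?_)).continuousWithinAt
      exact (zero_lt_one.trans ht).ne'
    have i2 : MeasureTheory.IntegrableOn (fun t : ℝ => (t : ℂ) ^ (-s)) (Set.Ioi 1) :=
      integrableOn_Ioi_cpow_of_lt (by rw [Complex.neg_re]; linarith) one_pos
    rw [e1, MeasureTheory.integral_add i1 (i2.const_mul _), MeasureTheory.integral_const_mul,
      integral_Ioi_cpow_of_lt (by rw [Complex.neg_re]; linarith) one_pos]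
    have e3 : -((1 : ℝ) : ℂ) ^ (-s + 1) / (-s + 1) = 1 / (s - 1) := by
      rw [Complex.ofReal_one, Complex.one_cpow, show -s + 1 = -(s - 1) by ring, neg_div_neg_eq]
    rw [e3]
    field_simp
    ring
  · intro s hs
    have h1 : δ / 4 ≤ δ + s.re - 1 := by linarith
    have h2 := ZK_mellin_le a κ M δ hM0 hcount s (by linarith)
    have h3 : M / (δ + s.re - 1) ≤ M / (δ / 4) :=
      div_le_div_of_nonneg_left hM0 (by linarith) h1
    have h4 : M / (δ / 4) = 4 * M / δ := by field_simp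
    have h5 : |κ| ≤ 2 * M := by
      have h := hcount 1 le_rfl
      have e : ∑ k ∈ Finset.Icc 1 ⌊(1:ℝ)⌋₊, a k = a 1 := by simp
      rw [e] at h
      have h6 : M * (1 : ℝ) ^ (1 - δ) = M := by rw [Real.one_rpow, mul_one]
      rw [h6, abs_le] at h
      have h7 := ha 1
      rw [abs_le]
      constructor <;> linarith [h.1, h.2]
    have hn : 0 ≤ ‖s‖ := norm_nonneg s
    have h8 : ‖s - 1‖ ≤ 1 + ‖s‖ := by
      have := norm_sub_le s 1
      rw [norm_one] at this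
      linarith
    have h9 : ‖mellin (ZK_err a κ) (-s)‖ ≤ 4 * M / δ := h2.trans (h3.trans h4.le)
    have h10 : 0 ≤ 4 * M / δ := by positivity
    calc ‖(κ : ℂ) * s + (s - 1) * s * mellin (ZK_err a κ) (-s)‖
        ≤ ‖(κ : ℂ) * s‖ + ‖(s - 1) * s * mellin (ZK_err a κ) (-s)‖ := norm_add_le _ _
      _ = |κ| * ‖s‖ + ‖s - 1‖ * ‖s‖ * ‖mellin (ZK_err a κ) (-s)‖ := by
          rw [norm_mul, norm_mul, norm_mul, Complex.norm_real, Real.norm_eq_abs]
      _ ≤ 2 * M * (1 + ‖s‖) ^ 2 + (1 + ‖s‖) * (1 + ‖s‖) * (4 * M / δ) := by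
          refine add_le_add ?_ ?_
          · refine mul_le_mul h5 ?_ hn (by linarith)
            nlinarith
          · refine mul_le_mul ?_ h9 (norm_nonneg _) (by positivity)
            exact mul_le_mul h8 (by linarith) hn (by linarith)
      _ ≤ 10 * M * (1 + ‖s‖) ^ 2 / δ := by
          have h11 : 2 * M * (1 + ‖s‖) ^ 2 ≤ 2 * M * (1 + ‖s‖) ^ 2 / δ := by
            rw [le_div_iff₀ hδ]
            have : 0 ≤ 2 * M * (1 + ‖s‖) ^ 2 := by positivity
            nlinarith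
          have h12 : (1 + ‖s‖) * (1 + ‖s‖) * (4 * M / δ) = 4 * M * (1 + ‖s‖) ^ 2 / δ := by
            ring
          have h13 : 10 * M * (1 + ‖s‖) ^ 2 / δ = 2 * M * (1 + ‖s‖) ^ 2 / δ +
            4 * M * (1 + ‖s‖) ^ 2 / δ + 4 * M * (1 + ‖s‖) ^ 2 / δ := by ring
          have h14 : 0 ≤ 4 * M * (1 + ‖s‖) ^ 2 / δ := by positivity
          rw [h12, h13]
          linarith

/-- C. -/
theorem exists_Z (K : Type u) [Field K] [NumberField K] (κ M δ : ℝ) (hδ : 0 < δ) (hδ1 : δ ≤ 1 / 2)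
    (hM : 1 ≤ M)
    (hcount : ∀ x : ℝ, 1 ≤ x →
      |(Nat.card {J : Ideal (𝓞 K) // J ≠ ⊥ ∧ (Ideal.absNorm J : ℝ) ≤ x} : ℝ) - κ * x| ≤
        M * x ^ (1 - δ)) :
    ∃ Z : ℂ → ℂ, (∀ s : ℂ, 1 - δ < s.re → DifferentiableAt ℂ Z s) ∧
      (∀ s : ℂ, 1 < s.re → Z s = (s - 1) * dedekindZeta K s) ∧
      ∀ s : ℂ, 1 - 3 / 4 * δ ≤ s.re → ‖Z s‖ ≤ 10 * M * (1 + ‖s‖) ^ 2 / δ := by
  have ha1 : (Nat.card {I : Ideal (𝓞 K) // Ideal.absNorm I = 1} : ℝ) ≤ 1 := by
    have : Subsingleton {I : Ideal (𝓞 K) // Ideal.absNorm I = 1} := by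
      refine ⟨fun I J => Subtype.ext ?_⟩
      rw [Ideal.absNorm_eq_one_iff.1 I.2, Ideal.absNorm_eq_one_iff.1 J.2]
    exact_mod_cast Finite.card_le_one_iff_subsingleton.2 this
  obtain ⟨Z, h1, h2, h3⟩ := ZK_abstract
    (fun k => (Nat.card {I : Ideal (𝓞 K) // Ideal.absNorm I = k} : ℝ)) (fun n => by positivity)
    ha1 κ M δ hδ hδ1 hM (by
      intro x hx
      rw [OrthogProof.sum_coeff]
      have e : (Nat.card {I : Ideal (𝓞 K) // I ≠ ⊥ ∧ (Ideal.absNorm I : ℝ) ≤ (⌊x⌋₊ : ℕ)} : ℝ) =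
          (Nat.card {J : Ideal (𝓞 K) // J ≠ ⊥ ∧ (Ideal.absNorm J : ℝ) ≤ x} : ℝ) := by
        congr 1
        refine Nat.card_congr (Equiv.subtypeEquivRight fun I => ?_)
        rw [Nat.cast_le, Nat.le_floor_iff (by linarith)]
      rw [e]
      exact hcount x hx)
  refine ⟨Z, h1, ?_, h3⟩
  intro s hs
  rw [h2 s hs]
  rfl

end Pool.Agent.MPfb225e.Zfr
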