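import Mathlib
import Pool.Agent.Lib.MP_fb225e_nt.Zeta
import Pool.Agent.Lib.MP_fb225e_nt.Zfr.Defs
import Pool.Agent.Lib.MP_fb225e_nt.Zfr.LogDeriv

/-!
MP_fb225e_nt, project ZFR, modules B3, B4, B5: expansions for the Dedekind zeta function.
-/

namespace Pool.Agent.MPfb225e.Zfr

open Filter Topology Complex
open NumberField IsDedekindDomain
open Curve (qv one_lt_qv nrm_eq)

universe u

theorem ZetaExp_log_le {x : ℝ} (hx : 0 < x) : Real.log x ≤ 2 * x ^ (1 / 2 : ℝ) := by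
  have h := Real.log_le_rpow_div hx.le (ε := 1 / 2) (by norm_num)
  linarith

section Bzeta

variable (K : Type u) [Field K] [NumberField K]

theorem ZetaExp_term {s : ℂ} (hs : 1 < s.re) (v : HeightOneSpectrum (𝓞 K)) :
    ‖-(Real.log (qv v : ℝ)) * ((qv v : ℂ) ^ (-s) / (1 - (qv v : ℂ) ^ (-s))).re +
      Real.log (qv v : ℝ) * ((qv v : ℂ) ^ (-s)).re‖ ≤ 4 * (qv v : ℝ) ^ (-(3 / 2 : ℝ)) := by
  have hq := one_lt_qv v
  have hq0 : (0 : ℝ) < qv v := by exact_mod_cast (by omega : 0 < qv v)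
  have hq1 : (1 : ℝ) ≤ qv v := by exact_mod_cast (by omega : 1 ≤ qv v)
  set w : ℂ := (qv v : ℂ) ^ (-s) with hw
  have hw1 : ‖w‖ = (qv v : ℝ) ^ (-s.re) := Zeta.norm_w s v
  have hw2 : ‖w‖ ≤ 1 / 2 := by rw [hw1]; exact Zeta.r_le hs v
  have hne : 1 - w ≠ 0 := Zeta.one_sub_ne hs v
  have e1 : -(Real.log (qv v : ℝ)) * (w / (1 - w)).re + Real.log (qv v : ℝ) * w.re =
      -(Real.log (qv v : ℝ)) * (w ^ 2 / (1 - w)).re := by
    have : w / (1 - w) = w + w ^ 2 / (1 - w) := by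
      field_simp
      ring
    rw [this, Complex.add_re]
    ring
  rw [e1, norm_mul, norm_neg, Real.norm_eq_abs, abs_of_nonneg (Real.log_nonneg hq1)]
  have h1 : ‖(w ^ 2 / (1 - w)).re‖ ≤ 2 * (qv v : ℝ) ^ (-(2 : ℝ)) := by
    rw [Real.norm_eq_abs]
    refine (Complex.abs_re_le_norm _).trans ?_
    rw [norm_div, norm_pow]
    have h2 : 1 / 2 ≤ ‖1 - w‖ := by
      have := norm_sub_norm_le (1 : ℂ) w
      rw [norm_one] at this
      linarith
    have h3 : ‖w‖ ^ 2 ≤ (qv v : ℝ) ^ (-(2 : ℝ)) := by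
      rw [hw1, ← Real.rpow_natCast, ← Real.rpow_mul hq0.le]
      refine Real.rpow_le_rpow_of_exponent_le hq1 ?_
      push_cast
      linarith
    rw [div_le_iff₀ (by linarith)]
    have h4 : 0 ≤ (qv v : ℝ) ^ (-(2 : ℝ)) := Real.rpow_nonneg hq0.le _
    nlinarith
  have h5 := ZetaExp_log_le hq0
  calc Real.log (qv v : ℝ) * ‖(w ^ 2 / (1 - w)).re‖
      ≤ (2 * (qv v : ℝ) ^ (1 / 2 : ℝ)) * (2 * (qv v : ℝ) ^ (-(2 : ℝ))) :=
        mul_le_mul h5 h1 (norm_nonneg _) (by positivity)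
    _ = 4 * ((qv v : ℝ) ^ (1 / 2 : ℝ) * (qv v : ℝ) ^ (-(2 : ℝ))) := by ring
    _ = 4 * (qv v : ℝ) ^ (-(3 / 2 : ℝ)) := by
        rw [← Real.rpow_add hq0]
        norm_num

theorem ZetaExp_bd : bd (qv (K := K)) ∅ =
    100 * ∑' v : HeightOneSpectrum (𝓞 K), (qv v : ℝ) ^ (-(3 / 2 : ℝ)) := by
  unfold bd
  rw [Set.ncard_empty, Nat.cast_zero, add_zero]

theorem ZetaExp_bd_nonneg : 0 ≤ bd (qv (K := K)) ∅ := by
  rw [ZetaExp_bd]
  exact mul_nonneg (by norm_num) (tsum_nonneg fun v => Real.rpow_nonneg (by positivity) _)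

/-- B3 (file Zfr/ZetaExp.lean). -/
theorem zeta_deriv_expansion (t ε : ℝ) (hε : 0 < ε) (hε1 : ε ≤ 1) :
    |(deriv (dedekindZeta K) ((1 + ε : ℝ) + t * I) / dedekindZeta K ((1 + ε : ℝ) + t * I)).re +
      ∑' v : HeightOneSpectrum (𝓞 K),
        Real.log (nrm v) * nrm v ^ (-(1 + ε)) * Real.cos (t * Real.log (nrm v))| ≤
      bd (Curve.qv (K := K)) ∅ := by
  set s : ℂ := (1 + ε : ℝ) + t * I with hs
  have hre : s.re = 1 + ε := by simp [hs]
  have him : s.im = t := by simp [hs]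
  have hs1 : 1 < s.re := by rw [hre]; linarith
  have h0 := hasSum_logDeriv (qv (K := K)) one_lt_qv (fun _ => 1) (fun _ => 0) (fun _ => 1)
    (fun _ => by simp) (fun _ => by simp) 1 (1 / 2) (by norm_num)
    (fun v σ hσ => by
      have := Zeta.r_le (K := K) (s := (σ : ℂ)) (by simpa using hσ) v
      simpa using this)
    (fun σ hσ => by simpa using Zeta.summable_qv K hσ) (dedekindZeta K)
    (fun s hs => by simpa using Zeta.hasProd (K := K) hs) hs1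
  have h1 : HasSum (fun v : HeightOneSpectrum (𝓞 K) =>
      -(Real.log (qv v : ℝ)) * ((qv v : ℂ) ^ (-s) / (1 - (qv v : ℂ) ^ (-s))).re)
      (deriv (dedekindZeta K) s / dedekindZeta K s).re := by
    have h := Complex.hasSum_re h0
    have e : (fun v : HeightOneSpectrum (𝓞 K) => (-(Real.log (qv v) : ℂ) *
        (1 * (qv v : ℂ) ^ (-s) / (1 - 1 * (qv v : ℂ) ^ (-s)) +
          0 * (qv v : ℂ) ^ (-s) / (1 - 0 * (qv v : ℂ) ^ (-s)))).re) =
        fun v : HeightOneSpectrum (𝓞 K) =>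
          -(Real.log (qv v : ℝ)) * ((qv v : ℂ) ^ (-s) / (1 - (qv v : ℂ) ^ (-s))).re := by
      funext v
      rw [zero_mul, zero_div, add_zero, one_mul, ← Complex.ofReal_neg, Complex.re_ofReal_mul]
    rw [e] at h
    exact h
  have hg : Summable fun v : HeightOneSpectrum (𝓞 K) => 4 * (qv v : ℝ) ^ (-(3 / 2 : ℝ)) :=
    (Zeta.summable_qv K (by norm_num)).mul_left _
  have hd : Summable fun v : HeightOneSpectrum (𝓞 K) =>
      -(Real.log (qv v : ℝ)) * ((qv v : ℂ) ^ (-s) / (1 - (qv v : ℂ) ^ (-s))).re +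
      Real.log (qv v : ℝ) * ((qv v : ℂ) ^ (-s)).re :=
    Summable.of_norm_bounded hg fun v => ZetaExp_term K hs1 v
  have hx : Summable fun v : HeightOneSpectrum (𝓞 K) =>
      Real.log (qv v : ℝ) * ((qv v : ℂ) ^ (-s)).re := by
    have := hd.sub h1.summable
    refine this.congr fun v => ?_
    ring
  have e2 : ∀ v : HeightOneSpectrum (𝓞 K), Real.log (nrm v) * nrm v ^ (-(1 + ε)) *
      Real.cos (t * Real.log (nrm v)) = Real.log (qv v : ℝ) * ((qv v : ℂ) ^ (-s)).re := by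
    intro v
    rw [nrm_eq, LogExp.re_cpow_neg (one_lt_qv v), hre, him, mul_assoc]
  rw [tsum_congr e2, ← h1.tsum_eq, ← h1.summable.tsum_add hx, ZetaExp_bd]
  have hn : Summable fun v : HeightOneSpectrum (𝓞 K) =>
      ‖-(Real.log (qv v : ℝ)) * ((qv v : ℂ) ^ (-s) / (1 - (qv v : ℂ) ^ (-s))).re +
      Real.log (qv v : ℝ) * ((qv v : ℂ) ^ (-s)).re‖ :=
    Summable.of_nonneg_of_le (fun _ => norm_nonneg _) (fun v => ZetaExp_term K hs1 v) hg
  refine (norm_tsum_le_tsum_norm hn).trans ((hn.tsum_le_tsum (fun v => ZetaExp_term K hs1 v)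
    hg).trans ?_)
  rw [tsum_mul_left]
  refine mul_le_mul_of_nonneg_right (by norm_num) (tsum_nonneg fun v => Real.rpow_nonneg
    (by positivity) _)

/-- B4 (file Zfr/ZetaExp.lean). -/
theorem zeta_log_lower (t ε : ℝ) (hε : 0 < ε) (hε1 : ε ≤ 1) :
    -(∑' v : HeightOneSpectrum (𝓞 K), nrm v ^ (-(1 + ε))) - bd (Curve.qv (K := K)) ∅ ≤
      Real.log ‖dedekindZeta K ((1 + ε : ℝ) + t * I)‖ := by
  set s : ℂ := (1 + ε : ℝ) + t * I with hs
  have hre : s.re = 1 + ε := by simp [hs]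
  have hs1 : 1 < s.re := by rw [hre]; linarith
  rw [Zeta.norm_zeta hs1, Real.log_exp]
  have h1 : -(∑' v : HeightOneSpectrum (𝓞 K), nrm v ^ (-(1 + ε))) ≤
      ∑' v : HeightOneSpectrum (𝓞 K), -Real.log ‖1 - (qv v : ℂ) ^ (-s)‖ := by
    rw [← tsum_neg]
    simp only [nrm_eq]
    refine (Zeta.summable_qv K (σ := 1 + ε) (by linarith)).neg.tsum_le_tsum (fun v => ?_)
      (Zeta.summable_log (K := K) hs1)
    have h2 : ‖1 - (qv v : ℂ) ^ (-s)‖ ≤ 1 + (qv v : ℝ) ^ (-(1 + ε)) := by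
      refine (norm_sub_le _ _).trans ?_
      rw [norm_one, Zeta.norm_w, hre]
    have h3 : 0 < ‖1 - (qv v : ℂ) ^ (-s)‖ := norm_pos_iff.2 (Zeta.one_sub_ne hs1 v)
    have h4 := Real.log_le_sub_one_of_pos h3
    linarith
  have := ZetaExp_bd_nonneg K
  linarith

/-- B5 (file Zfr/ZetaExp.lean). -/
theorem sum_le_log_zeta (ε : ℝ) (hε : 0 < ε) (hε1 : ε ≤ 1) :
    (∑' v : HeightOneSpectrum (𝓞 K), nrm v ^ (-(1 + ε))) ≤
      Real.log ‖dedekindZeta K ((1 + ε : ℝ) : ℂ)‖ := by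
  set s : ℂ := ((1 + ε : ℝ) : ℂ) with hs
  have hre : s.re = 1 + ε := by simp [hs]
  have hs1 : 1 < s.re := by rw [hre]; linarith
  rw [Zeta.norm_zeta hs1, Real.log_exp]
  simp only [nrm_eq]
  refine (Zeta.summable_qv K (σ := 1 + ε) (by linarith)).tsum_le_tsum (fun v => ?_)
      (Zeta.summable_log (K := K) hs1)
  have hq := one_lt_qv v
  have hq0 : (0 : ℝ) < qv v := by exact_mod_cast (by omega : 0 < qv v)
  have e1 : (qv v : ℂ) ^ (-s) = (((qv v : ℝ) ^ (-(1 + ε)) : ℝ) : ℂ) := by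
    rw [Complex.ofReal_cpow hq0.le, hs]
    push_cast
    rfl
  have h2 : (qv v : ℝ) ^ (-(1 + ε)) ≤ 1 / 2 := by
    have := Zeta.r_le (K := K) hs1 v
    rwa [hre] at this
  have e2 : ‖1 - (qv v : ℂ) ^ (-s)‖ = 1 - (qv v : ℝ) ^ (-(1 + ε)) := by
    rw [e1, ← Complex.ofReal_one, ← Complex.ofReal_sub, Complex.norm_real, Real.norm_eq_abs,
      abs_of_nonneg (by linarith)]
  rw [e2]
  have h4 := Real.log_le_sub_one_of_pos (x := 1 - (qv v : ℝ) ^ (-(1 + ε))) (by linarith)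
  linarith

end Bzeta

end Pool.Agent.MPfb225e.Zfr
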