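import Mathlib
import Pool.Agent.Lib.MP_fb225e_nt.Zfr.CurveData
import Pool.Agent.Lib.MP_fb225e_nt.Zfr.Expand
import Pool.Agent.Lib.MP_fb225e_nt.Zfr.Local
import Pool.Agent.Lib.MP_fb225e_nt.Zfr.ZetaExp
import Pool.Agent.Lib.MP_fb225e_nt.Zfr.BdLe
import Pool.Agent.Lib.MP_fb225e_nt.Zfr.ZK

/-!
MP_fb225e_nt, project ZFR: the two one-sided inequalities (H1) and (H2).
-/

namespace Pool.Agent.MPfb225e.Zfr

open Filter Topology Complex
open NumberField IsDedekindDomain

universe u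

/-! ### The scale -/

/-- `log (M (T+2) / δ)` -/
noncomputable def Lg (M T δ : ℝ) : ℝ := Real.log (M * (T + 2) / δ)

theorem two_le_Lg {M T δ : ℝ} (hδ : 0 < δ) (hδ1 : δ ≤ 1 / 2) (hT : 0 ≤ T) (hM : 2 ≤ M) :
    2 ≤ Lg M T δ := by
  unfold Lg
  have h1 : (8 : ℝ) ≤ M * (T + 2) / δ := by
    rw [le_div_iff₀ hδ]
    nlinarith
  have h2 : Real.exp 2 ≤ 8 := by
    have h3 : Real.exp 2 = Real.exp 1 * Real.exp 1 := by
      rw [← Real.exp_add]; norm_num
    have h4 := Real.exp_one_lt_d9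
    have h5 := Real.exp_pos 1
    rw [h3]
    nlinarith
  calc (2 : ℝ) = Real.log (Real.exp 2) := (Real.log_exp 2).symm
    _ ≤ Real.log (M * (T + 2) / δ) := Real.log_le_log (Real.exp_pos 2) (h2.trans h1)

theorem log_M_le {M T δ : ℝ} (hδ : 0 < δ) (hδ1 : δ ≤ 1 / 2) (hT : 0 ≤ T) (hM : 2 ≤ M) :
    Real.log M ≤ Lg M T δ := by
  unfold Lg
  refine Real.log_le_log (by linarith) ?_
  rw [le_div_iff₀ hδ]
  nlinarith

theorem log_T_le {M T δ : ℝ} (hδ : 0 < δ) (hδ1 : δ ≤ 1 / 2) (hT : 0 ≤ T) (hM : 2 ≤ M) :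
    Real.log (T + 2) ≤ Lg M T δ := by
  unfold Lg
  refine Real.log_le_log (by linarith) ?_
  rw [le_div_iff₀ hδ]
  nlinarith

theorem log_δ_le {M T δ : ℝ} (hδ : 0 < δ) (hδ1 : δ ≤ 1 / 2) (hT : 0 ≤ T) (hM : 2 ≤ M) :
    -Real.log δ ≤ Lg M T δ := by
  unfold Lg
  rw [← Real.log_inv]
  refine Real.log_le_log (by positivity) ?_
  rw [div_eq_mul_inv]
  have : 1 ≤ M * (T + 2) := by nlinarith
  exact le_mul_of_one_le_left (by positivity) this

/-- `1 / (1 + (t/ε)²)` -/
noncomputable def gk (ε t : ℝ) : ℝ := 1 / (1 + (t / ε) ^ 2)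

theorem gk_nonneg (ε t : ℝ) : 0 ≤ gk ε t := by unfold gk; positivity

theorem gk_le_one (ε t : ℝ) : gk ε t ≤ 1 := by
  unfold gk
  rw [div_le_one (by positivity)]
  nlinarith [sq_nonneg (t / ε)]

theorem gk_zero (ε : ℝ) : gk ε 0 = 1 := by simp [gk]

theorem gk_anti {ε : ℝ} {s t : ℝ} (h : |s| ≤ |t|) : gk ε t ≤ gk ε s := by
  unfold gk
  have h1 : (s / ε) ^ 2 ≤ (t / ε) ^ 2 := by
    rw [div_pow, div_pow]
    exact div_le_div_of_nonneg_right (sq_le_sq.2 h) (sq_nonneg ε)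
  exact one_div_le_one_div_of_le (by positivity) (by linarith)

/-- `ε · Re 1/(a + iu)` for `a = λ ε` -/
theorem re_inv_ge {ε a u κ : ℝ} (hε : 0 < ε) (ha : ε ≤ a) (ha2 : a ≤ (1 + κ) * ε) :
    (1 - κ) * gk ε u ≤ ε * (((a : ℂ) + u * I)⁻¹).re := by
  have ha0 : 0 < a := lt_of_lt_of_le hε ha
  have e1 : (((a : ℂ) + u * I)⁻¹).re = a / (a ^ 2 + u ^ 2) := by
    rw [Complex.inv_re, Complex.normSq_apply]
    simp
    ring
  rw [e1]
  unfold gk
  have hκ : 0 ≤ κ := by nlinarith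
  have e2 : 1 / (1 + (u / ε) ^ 2) = ε ^ 2 / (ε ^ 2 + u ^ 2) := by
    field_simp
  rw [e2]
  rw [mul_div_assoc', mul_div_assoc']
  rw [div_le_div_iff₀ (by positivity) (by positivity)]
  rcases le_or_gt 1 κ with h | h
  · have h1 : (1 - κ) * ε ^ 2 * (a ^ 2 + u ^ 2) ≤ 0 :=
      mul_nonpos_of_nonpos_of_nonneg (mul_nonpos_of_nonpos_of_nonneg (by linarith) (by positivity))
        (by positivity)
    have h2 : 0 ≤ ε * a * (ε ^ 2 + u ^ 2) := by positivity
    linarith
  · -- (1-κ) ε (a²+u²) ≤ a (ε² + u²)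
    have h1 : (1 - κ) * a ≤ ε := by nlinarith
    have h2 : (1 - κ) * (ε * a ^ 2) ≤ a * ε ^ 2 := by
      have : (1 - κ) * (ε * a ^ 2) = ((1 - κ) * a) * (ε * a) := by ring
      rw [this]
      have : a * ε ^ 2 = ε * (ε * a) := by ring
      rw [this]
      exact mul_le_mul_of_nonneg_right h1 (by positivity)
    have h3 : (1 - κ) * (ε * u ^ 2) ≤ a * u ^ 2 := by
      have h4 : (1 - κ) * ε ≤ a := by nlinarith
      nlinarith [mul_le_mul_of_nonneg_right h4 (sq_nonneg u)]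
    nlinarith

theorem re_inv_nonneg {a u : ℝ} (ha : 0 ≤ a) : 0 ≤ (((a : ℂ) + u * I)⁻¹).re := by
  have e1 : (((a : ℂ) + u * I)⁻¹).re = a / (a ^ 2 + u ^ 2) := by
    rw [Complex.inv_re, Complex.normSq_apply]
    simp
    ring
  rw [e1]
  positivity

section zeta

variable (K : Type u) [Field K] [NumberField K]

/-- a bound for `Σ_v Nv^(-1-r)` from the ideal count -/
theorem sum_le_of_Z {M δ : ℝ} (hδ : 0 < δ) (hδ1 : δ ≤ 1 / 2) (hM : 2 ≤ M) {Z : ℂ → ℂ}
    (hZ1 : ∀ s : ℂ, 1 < s.re → Z s = (s - 1) * dedekindZeta K s)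
    (hZ2 : ∀ s : ℂ, 1 - 3 / 4 * δ ≤ s.re → ‖Z s‖ ≤ 10 * M * (1 + ‖s‖) ^ 2 / δ) :
    (∑' v : HeightOneSpectrum (𝓞 K), nrm v ^ (-(1 + δ / 4))) ≤ Real.log (360 * M / δ ^ 2) := by
  have hr : (0 : ℝ) < δ / 4 := by linarith
  refine (sum_le_log_zeta K (δ / 4) hr (by linarith)).trans ?_
  have hs : (1 : ℝ) < (((1 + δ / 4 : ℝ) : ℂ)).re := by simp; linarith
  have h1 := hZ1 ((1 + δ / 4 : ℝ) : ℂ) hs
  have h2 := hZ2 ((1 + δ / 4 : ℝ) : ℂ) (by rw [Complex.ofReal_re]; linarith)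
  rw [h1, norm_mul] at h2
  have h3 : ‖(((1 + δ / 4 : ℝ) : ℂ)) - 1‖ = δ / 4 := by
    have : (((1 + δ / 4 : ℝ) : ℂ)) - 1 = ((δ / 4 : ℝ) : ℂ) := by push_cast; ring
    rw [this, Complex.norm_real, Real.norm_of_nonneg hr.le]
  have h4 : ‖(((1 + δ / 4 : ℝ) : ℂ))‖ = 1 + δ / 4 := by
    rw [Complex.norm_real, Real.norm_of_nonneg (by linarith)]
  rw [h3, h4] at h2
  have h5 : ‖dedekindZeta K ((1 + δ / 4 : ℝ) : ℂ)‖ ≤ 360 * M / δ ^ 2 := by
    have h6 : (1 + (1 + δ / 4)) ^ 2 ≤ 9 := by nlinarith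
    have h7 : δ / 4 * ‖dedekindZeta K ((1 + δ / 4 : ℝ) : ℂ)‖ ≤ 90 * M / δ := by
      refine h2.trans ?_
      refine div_le_div_of_nonneg_right ?_ hδ.le
      nlinarith
    have e : 360 * M / δ ^ 2 = 90 * M / δ / (δ / 4) := by field_simp; ring
    rw [e, le_div_iff₀ hr, mul_comm]
    exact h7
  have h8 : 0 < ‖dedekindZeta K ((1 + δ / 4 : ℝ) : ℂ)‖ := norm_pos_iff.2 (Zeta.zeta_ne hs)
  exact Real.log_le_log h8 h5

end zeta

/-- (H1). -/
theorem one_sided_zeta' (n N : ℕ) (κ' : ℝ) (hκ' : 0 < κ') : ∃ θ₀ : ℝ, 0 < θ₀ ∧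
    ∀ (K : Type u) [Field K] [NumberField K], Module.finrank ℚ K = n →
    ∀ (κ δ T M θ : ℝ), 0 < δ → δ ≤ 1 / 2 → 0 ≤ T → 2 ≤ M → 0 < θ → θ ≤ θ₀ →
    (∀ x : ℝ, 1 ≤ x →
      |(Nat.card {J : Ideal (𝓞 K) // J ≠ ⊥ ∧ (Ideal.absNorm J : ℝ) ≤ x} : ℝ) - κ * x| ≤
        M * x ^ (1 - δ)) →
    ∀ ε : ℝ, ε = θ * δ / Lg M T δ → ∀ t : ℝ, |t| ≤ N * T →
    ∑' v : HeightOneSpectrum (𝓞 K), ε * (Real.log (nrm v) * nrm v ^ (-(1 + ε))) *
      Real.cos (t * Real.log (nrm v)) ≤ κ' + gk ε t := by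
  obtain ⟨CA, hCA, hA⟩ := local_upper
  obtain ⟨CB, hB⟩ := bd_le.{u} n
  set C1 : ℝ := Real.log (14400 * ((N : ℝ) + 3) ^ 2) + |CB| with hC1
  have hC1' : 0 ≤ C1 := by
    have : 0 ≤ Real.log (14400 * ((N : ℝ) + 3) ^ 2) := by
      refine Real.log_nonneg ?_
      have : (1 : ℝ) ≤ ((N : ℝ) + 3) ^ 2 := by nlinarith [Nat.cast_nonneg (α := ℝ) N]
      linarith
    positivity
  set D : ℝ := 4 * CA * (8 + C1 + 1) + |CB| with hD
  have hD0 : 0 < D := by positivity
  refine ⟨min (κ' / D) (1 / 2), by positivity, ?_⟩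
  intro K _ _ hn κ δ T M θ hδ hδ1 hT hM hθ hθ0 hcount ε hε t ht
  have hbd : bd (Curve.qv (K := K)) ∅ ≤ |CB| := (hB K hn).2.trans (le_abs_self _)
  obtain ⟨Z, hZd, hZ1, hZ2⟩ := exists_Z K κ M δ hδ hδ1 (by linarith) hcount
  have hL2 := two_le_Lg hδ hδ1 hT hM
  have hLM := log_M_le hδ hδ1 hT hM
  have hLT := log_T_le hδ hδ1 hT hM
  have hLδ := log_δ_le hδ hδ1 hT hM
  set L := Lg M T δ with hL
  have hLpos : 0 < L := by linarith
  have hεpos : 0 < ε := by rw [hε]; positivity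
  have hθ1 : θ ≤ 1 / 2 := hθ0.trans (min_le_right _ _)
  have hθ2 : θ ≤ κ' / D := hθ0.trans (min_le_left _ _)
  have hεδ : ε ≤ δ / 4 := by
    rw [hε, div_le_div_iff₀ hLpos (by norm_num)]
    nlinarith
  set r : ℝ := δ / 4 with hr
  have hrpos : 0 < r := by positivity
  set c : ℂ := ((1 + r : ℝ) : ℂ) + t * I with hc
  set s : ℂ := ((1 + ε : ℝ) : ℂ) + t * I with hs
  have hcre : c.re = 1 + r := by simp [hc]
  have hcim : c.im = t := by simp [hc]
  have hsre : s.re = 1 + ε := by simp [hs]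
  have hsim : s.im = t := by simp [hs]
  have hball : ∀ z ∈ Metric.closedBall c (4 * r), 1 - 3 / 4 * δ ≤ z.re ∧ ‖z‖ ≤ 2 + |t| := by
    intro z hz
    rw [Metric.mem_closedBall, dist_eq_norm] at hz
    have h1 := (Complex.abs_re_le_norm (z - c)).trans hz
    rw [Complex.sub_re, hcre, abs_le] at h1
    refine ⟨by rw [hr] at h1; linarith [h1.1], ?_⟩
    have h2 : ‖c‖ ≤ (1 + r) + |t| := by
      rw [hc]
      refine (norm_add_le _ _).trans ?_
      rw [Complex.norm_real, norm_mul, Complex.norm_real, Complex.norm_I, mul_one,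
        Real.norm_of_nonneg (by linarith), Real.norm_eq_abs]
    have h3 : ‖z‖ ≤ ‖z - c‖ + ‖c‖ := by
      have := norm_add_le (z - c) c
      rwa [sub_add_cancel] at this
    rw [hr] at h2 hz
    linarith
  set B : ℝ := 10 * M * (3 + |t|) ^ 2 / δ with hBdef
  have hBpos : 0 < B := by positivity
  have hZB : ∀ z ∈ Metric.closedBall c (4 * r), ‖Z z‖ ≤ B := by
    intro z hz
    obtain ⟨h1, h2⟩ := hball z hz
    refine (hZ2 z h1).trans ?_
    rw [hBdef]
    refine div_le_div_of_nonneg_right ?_ hδ.le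
    refine mul_le_mul_of_nonneg_left ?_ (by linarith)
    refine pow_le_pow_left₀ (by positivity) (by linarith) 2
  have hne : ∀ z : ℂ, 1 < z.re → Z z ≠ 0 := by
    intro z hz
    rw [hZ1 z hz]
    refine mul_ne_zero ?_ (Zeta.zeta_ne hz)
    intro h
    rw [sub_eq_zero] at h
    rw [h] at hz
    simp at hz
  have hc1 : 1 < c.re := by rw [hcre]; linarith
  have hs1 : 1 < s.re := by rw [hsre]; linarith
  -- lower bound at the centre
  have hlow : Real.log (δ / 4) - Real.log (360 * M / δ ^ 2) - |CB| ≤ Real.log ‖Z c‖ := by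
    have h1 := sum_le_of_Z K hδ hδ1 hM hZ1 hZ2
    have h2 := zeta_log_lower K t r hrpos (by rw [hr]; linarith)
    rw [hZ1 c hc1, norm_mul, Real.log_mul (norm_ne_zero_iff.2 ?_)
      (norm_ne_zero_iff.2 (Zeta.zeta_ne hc1))]
    · have h3 : Real.log (δ / 4) ≤ Real.log ‖c - 1‖ := by
        refine Real.log_le_log (by positivity) ?_
        have h4 := Complex.abs_re_le_norm (c - 1)
        rw [Complex.sub_re, hcre, Complex.one_re, add_sub_cancel_left, abs_of_pos hrpos] at h4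
        exact h4
      have h5 : Real.log ‖dedekindZeta K c‖ =
          Real.log ‖dedekindZeta K (((1 + r : ℝ) : ℂ) + t * I)‖ := rfl
      rw [h5]
      linarith
    · intro h
      rw [sub_eq_zero] at h
      rw [h] at hc1
      simp at hc1
  set L' : ℝ := 8 * L + C1 with hL'
  have hL'0 : 0 ≤ L' := by positivity
  have hBc : B ≤ Real.exp L' * ‖Z c‖ := by
    have hZc : 0 < ‖Z c‖ := norm_pos_iff.2 (hne c hc1)
    have h1 : Real.log B ≤ L' + Real.log ‖Z c‖ := by
      have h2 : Real.log B = Real.log 10 + Real.log M + 2 * Real.log (3 + |t|) - Real.log δ := by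
        rw [hBdef, Real.log_div (by positivity) (by positivity), Real.log_mul (by positivity)
          (by positivity), Real.log_mul (by positivity) (by positivity), Real.log_pow]
        push_cast; ring
      have h3 : Real.log (δ / 4) = Real.log δ - Real.log 4 :=
        Real.log_div (by positivity) (by positivity)
      have h4 : Real.log (360 * M / δ ^ 2) = Real.log 360 + Real.log M - 2 * Real.log δ := by
        rw [Real.log_div (by positivity) (by positivity), Real.log_mul (by positivity)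
          (by positivity), Real.log_pow]
        push_cast; ring
      have h5 : Real.log (3 + |t|) ≤ Real.log ((N : ℝ) + 3) + Real.log (T + 2) := by
        rw [← Real.log_mul (by positivity) (by positivity)]
        refine Real.log_le_log (by positivity) ?_
        have : (0 : ℝ) ≤ N := Nat.cast_nonneg N
        nlinarith
      have h6 : Real.log (14400 * ((N : ℝ) + 3) ^ 2) = Real.log 10 + Real.log 4 + Real.log 360 +
          2 * Real.log ((N : ℝ) + 3) := by
        rw [Real.log_mul (by positivity) (by positivity), Real.log_pow,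
          show (14400 : ℝ) = 10 * 4 * 360 by norm_num, Real.log_mul (by norm_num) (by norm_num),
          Real.log_mul (by norm_num) (by norm_num)]
        push_cast; ring
      rw [h3, h4] at hlow
      rw [h2, hL', hC1, h6]
      linarith
    calc B = Real.exp (Real.log B) := (Real.exp_log hBpos).symm
      _ ≤ Real.exp (L' + Real.log ‖Z c‖) := Real.exp_le_exp.2 h1
      _ = Real.exp L' * ‖Z c‖ := by rw [Real.exp_add, Real.exp_log hZc]
  have hsc : ‖s - c‖ ≤ r := by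
    have e : s - c = ((ε - r : ℝ) : ℂ) := by rw [hs, hc]; push_cast; ring
    rw [e, Complex.norm_real, Real.norm_eq_abs, abs_le]
    constructor <;> linarith
  have key := hA Z c s r B L' hrpos hL'0 (fun z hz => hZd z (by linarith [(hball z hz).1])) hZB hBc
    (hne c hc1) (hne s hs1) hsc (fun z _ hz0 => by
      by_contra hcon
      exact hne z (by linarith) hz0)
  -- logarithmic derivative of `Z`
  have hlog : deriv Z s / Z s = (s - 1)⁻¹ + deriv (dedekindZeta K) s / dedekindZeta K s := by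
    have hev : Z =ᶠ[𝓝 s] fun z => (z - 1) * dedekindZeta K z := by
      have hopen : IsOpen {z : ℂ | 1 < z.re} := isOpen_lt continuous_const Complex.continuous_re
      filter_upwards [hopen.mem_nhds hs1] with z hz
      exact hZ1 z hz
    have hs0 : s - 1 ≠ 0 := by
      intro h
      rw [sub_eq_zero] at h
      rw [h] at hs1
      simp at hs1
    have hdz : DifferentiableAt ℂ (dedekindZeta K) s := by
      have h1 : DifferentiableAt ℂ Z s := hZd s (by linarith)
      have h2 : dedekindZeta K =ᶠ[𝓝 s] fun z => Z z / (z - 1) := by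
        have hopen : IsOpen {z : ℂ | 1 < z.re} := isOpen_lt continuous_const Complex.continuous_re
        filter_upwards [hopen.mem_nhds hs1] with z hz
        have : z - 1 ≠ 0 := by
          intro h
          rw [sub_eq_zero] at h
          have hz' : 1 < z.re := hz
          rw [h] at hz'
          simp at hz'
        rw [hZ1 z hz, mul_div_cancel_left₀ _ this]
      exact (h1.div (differentiableAt_id.sub_const 1) hs0).congr_of_eventuallyEq h2
    have h3 : HasDerivAt (fun z : ℂ => (z - 1) * dedekindZeta K z)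
        (1 * dedekindZeta K s + (s - 1) * deriv (dedekindZeta K) s) s :=
      ((hasDerivAt_id s).sub_const 1).mul hdz.hasDerivAt
    rw [hev.deriv_eq, h3.deriv, hZ1 s hs1]
    have := Zeta.zeta_ne (K := K) hs1
    field_simp
  rw [hlog, Complex.add_re] at key
  have hre : ((s - 1)⁻¹).re = ε / (ε ^ 2 + t ^ 2) := by
    have e : s - 1 = (ε : ℂ) + t * I := by rw [hs]; push_cast; ring
    rw [e, Complex.inv_re, Complex.normSq_apply]
    simp
    ring
  have hexp := zeta_deriv_expansion K t ε hεpos (by linarith)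
  rw [abs_le] at hexp
  have hexp1 := hexp.2
  have hs' : deriv (dedekindZeta K) ((1 + ε : ℝ) + t * I) / dedekindZeta K ((1 + ε : ℝ) + t * I) =
      deriv (dedekindZeta K) s / dedekindZeta K s := rfl
  rw [hs'] at hexp1
  set X := (∑' v : HeightOneSpectrum (𝓞 K),
        Real.log (nrm v) * nrm v ^ (-(1 + ε)) * Real.cos (t * Real.log (nrm v))) with hX
  have hXle : X ≤ CA * (L' + 1) / r + ε / (ε ^ 2 + t ^ 2) + |CB| := by
    rw [hre] at key
    linarith
  have hsum : (∑' v : HeightOneSpectrum (𝓞 K), ε * (Real.log (nrm v) * nrm v ^ (-(1 + ε))) *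
      Real.cos (t * Real.log (nrm v))) = ε * X := by
    rw [hX, ← tsum_mul_left]
    exact tsum_congr fun v => by ring
  rw [hsum]
  have h1 : ε * (ε / (ε ^ 2 + t ^ 2)) = gk ε t := by
    unfold gk
    field_simp
  have h2 : ε * (CA * (L' + 1) / r + |CB|) ≤ κ' := by
    have h3 : ε * (CA * (L' + 1) / r) ≤ θ * (4 * CA * (8 + C1 + 1)) := by
      have e : ε * (CA * (L' + 1) / r) = θ * (4 * CA * ((L' + 1) / L)) := by
        rw [hε, hr]; field_simp
      rw [e]
      refine mul_le_mul_of_nonneg_left (mul_le_mul_of_nonneg_left ?_ (by positivity)) hθ.le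
      rw [div_le_iff₀ hLpos, hL']
      nlinarith
    have h4 : ε * |CB| ≤ θ * |CB| := by
      refine mul_le_mul_of_nonneg_right ?_ (abs_nonneg _)
      rw [hε, div_le_iff₀ hLpos]
      nlinarith
    have h5 : θ * D ≤ κ' := by
      rw [le_div_iff₀ hD0] at hθ2
      exact hθ2
    rw [mul_add]
    rw [hD, mul_add] at h5
    linarith
  calc ε * X ≤ ε * (CA * (L' + 1) / r + ε / (ε ^ 2 + t ^ 2) + |CB|) :=
        mul_le_mul_of_nonneg_left hXle hεpos.le
    _ = ε * (CA * (L' + 1) / r + |CB|) + ε * (ε / (ε ^ 2 + t ^ 2)) := by ring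
    _ ≤ κ' + gk ε t := by rw [h1]; linarith

end Pool.Agent.MPfb225e.Zfr
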