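import Mathlib

/-!
MP_fb225e_nt, project ZFR, module F3: the entire continuation of the L-series of a Weierstrass
curve over a number field satisfies `F (conj s) = conj (F s)`.
-/

namespace Pool.Agent.MPfb225e.Zfr

open Complex Filter Topology

universe u

/-- The terms of an L-series with integer coefficients commute with conjugation. -/
theorem conj_term (f : ℕ → ℤ) (s : ℂ) (n : ℕ) :
    LSeries.term (fun k => (f k : ℂ)) ((starRingEnd ℂ) s) n =
      (starRingEnd ℂ) (LSeries.term (fun k => (f k : ℂ)) s n) := by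
  rcases Nat.eq_zero_or_pos n with h | h
  · subst h
    simp
  · rw [LSeries.term_of_ne_zero h.ne', LSeries.term_of_ne_zero h.ne', map_div₀]
    congr 1
    · simp
    · rw [cpow_conj _ _ (by rw [Complex.natCast_arg]; exact Real.pi_pos.ne)]
      simp

theorem conj_LSeries (f : ℕ → ℤ) (s : ℂ) :
    LSeries (fun k => (f k : ℂ)) ((starRingEnd ℂ) s) =
      (starRingEnd ℂ) (LSeries (fun k => (f k : ℂ)) s) := by
  unfold LSeries
  rw [Complex.conj_tsum]
  exact tsum_congr (conj_term f s)

/-- F3. The entire continuation of an L-series with real (integer) coefficients is real. -/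
theorem conj_symm (K : Type u) [Field K] [NumberField K] (W : WeierstrassCurve K) (F : ℂ → ℂ)
    (hF : Differentiable ℂ F) (hFL : ∀ s : ℂ, 3 / 2 < s.re → F s = W.LSeries s) (s : ℂ) :
    F ((starRingEnd ℂ) s) = (starRingEnd ℂ) (F s) := by
  have hG : Differentiable ℂ (fun z => (starRingEnd ℂ) (F ((starRingEnd ℂ) z))) := by
    intro z
    have h := (hF ((starRingEnd ℂ) z)).conj_conj
    simpa [Function.comp_def] using h
  have hev : F =ᶠ[𝓝 (2 : ℂ)] fun z => (starRingEnd ℂ) (F ((starRingEnd ℂ) z)) := by
    have hop : IsOpen {z : ℂ | 3 / 2 < z.re} := isOpen_lt continuous_const Complex.continuous_re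
    have hmem : {z : ℂ | 3 / 2 < z.re} ∈ 𝓝 (2 : ℂ) := hop.mem_nhds (by simp; norm_num)
    filter_upwards [hmem] with z hz
    rw [hFL z hz, hFL _ (by simpa using hz)]
    have h1 := conj_LSeries (fun n => W.LFunction n) z
    have h2 : W.LSeries ((starRingEnd ℂ) z) = (starRingEnd ℂ) (W.LSeries z) := h1
    rw [h2, Complex.conj_conj]
  have h := AnalyticOnNhd.eq_of_eventuallyEq
    (fun z _ => hF.analyticAt z : AnalyticOnNhd ℂ F Set.univ)
    (fun z _ => hG.analyticAt z : AnalyticOnNhd ℂ _ Set.univ) hev
  have h3 := congrFun h ((starRingEnd ℂ) s)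
  simpa using h3

end Pool.Agent.MPfb225e.Zfr
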