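import Mathlib
import Pool.Agent.Lib.MP_fb225e_nt.Zfr.OneSided

/-!
MP_fb225e_nt, project ZFR: the one-sided inequality (H2).
-/

namespace Pool.Agent.MPfb225e.Zfr

open Filter Topology Complex
open NumberField IsDedekindDomain

universe u

/-- The entire continuation does not vanish to the right of the edge. -/
theorem re_le_of_zero {K : Type u} [Field K] [NumberField K] (W : WeierstrassCurve K) {F : ℂ → ℂ}
    (hFL : ∀ s : ℂ, 3 / 2 < s.re → F s = W.LSeries s) {z : ℂ} (hz : F z = 0) : z.re ≤ 3 / 2 := by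
  by_contra h
  push Not at h
  rw [hFL z h] at hz
  exact LSeries_ne W h hz

/-- (H2). -/
theorem one_sided_curve' (n N k : ℕ) (κ' : ℝ) (hκ' : 0 < κ') (hκ1 : κ' ≤ 1) :
    ∃ θ₀ : ℝ, 0 < θ₀ ∧
    ∀ (K : Type u) [Field K] [NumberField K] (W : WeierstrassCurve K), Module.finrank ℚ K = n →
    ∀ (F : ℂ → ℂ), Differentiable ℂ F → (∀ s : ℂ, 3 / 2 < s.re → F s = W.LSeries s) →
    ∀ (κ δ T M θ : ℝ), 0 < δ → δ ≤ 1 / 2 → 0 ≤ T → 2 ≤ M → 0 < θ → θ ≤ θ₀ →
    (∀ s : ℂ, 3 / 2 - δ ≤ s.re → |s.im| ≤ (N + 1) * (T + 1) → ‖F s‖ ≤ M) →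
    (∀ x : ℝ, 1 ≤ x →
      |(Nat.card {J : Ideal (𝓞 K) // J ≠ ⊥ ∧ (Ideal.absNorm J : ℝ) ≤ x} : ℝ) - κ * x| ≤
        M * x ^ (1 - δ)) →
    ∀ (ρ : Fin k → ℂ) (h : ℂ → ℂ), Differentiable ℂ h → (∀ z, F z = (∏ j, (z - ρ j)) * h z) →
    ∀ ε : ℝ, ε = θ * δ / Lg M T δ →
    (∀ j, 3 / 2 - κ' * ε ≤ (ρ j).re) → ∀ t : ℝ, |t| ≤ N * T →
    ∑' v : HeightOneSpectrum (𝓞 K), ε * (Real.log (nrm v) * nrm v ^ (-(1 + ε))) * xK W v *
      Real.cos (t * Real.log (nrm v)) ≤ κ' - (1 - κ') * ∑ j, gk ε (t - (ρ j).im) := by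
  classical
  obtain ⟨CA, hCA, hA⟩ := local_upper_zeros
  obtain ⟨CB, hB⟩ := bd_le.{u} n
  set C1 : ℝ := 2 * Real.log 360 + |CB| with hC1
  have hC1' : 0 ≤ C1 := by
    have : 0 ≤ Real.log 360 := Real.log_nonneg (by norm_num)
    positivity
  set D : ℝ := 4 * CA * (7 + C1 + 1) + |CB| with hD
  have hD0 : 0 < D := by positivity
  set E : ℝ := 16 * k + 1 with hE
  have hE0 : 0 < E := by positivity
  refine ⟨min (min (κ' / 2 / D) (κ' / 2 / E)) (1 / 4), by positivity, ?_⟩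
  intro K _ _ W hn F hF hFL κ δ T M θ hδ hδ1 hT hM hθ hθ0 hFM hcount ρ h hh hfac ε hε hρ t ht
  have hbd : bd (Curve.qv (K := K)) (Curve.exc K) ≤ |CB| := (hB K hn).1.trans (le_abs_self _)
  obtain ⟨Z, hZd, hZ1, hZ2⟩ := exists_Z K κ M δ hδ hδ1 (by linarith) hcount
  obtain ⟨a, b, α, β, cc, Dt, hLs, hxs⟩ := exists_data W
  have hL2 := two_le_Lg hδ hδ1 hT hM
  have hLM := log_M_le hδ hδ1 hT hM
  have hLδ := log_δ_le hδ hδ1 hT hM
  set L := Lg M T δ with hL
  have hLpos : 0 < L := by linarith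
  have hεpos : 0 < ε := by rw [hε]; positivity
  have hθ1 : θ ≤ 1 / 4 := hθ0.trans (min_le_right _ _)
  have hθ2 : θ ≤ κ' / 2 / D := (hθ0.trans (min_le_left _ _)).trans (min_le_left _ _)
  have hθ3 : θ ≤ κ' / 2 / E := (hθ0.trans (min_le_left _ _)).trans (min_le_right _ _)
  have hεδ : ε ≤ δ / 4 * θ * 2 := by
    rw [hε, div_le_iff₀ hLpos]
    nlinarith [mul_pos hδ hθ]
  set r : ℝ := δ / 4 with hr
  have hrpos : 0 < r := by positivity
  have hεr : ε ≤ r := by nlinarith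
  have hκε : κ' * ε ≤ r / 2 := by
    have h1 : κ' * ε ≤ 1 * (r * θ * 2) := mul_le_mul hκ1 hεδ hεpos.le (by norm_num)
    nlinarith
  set c : ℂ := ((3 / 2 + r : ℝ) : ℂ) + t * I with hc
  set s : ℂ := ((3 / 2 + ε : ℝ) : ℂ) + t * I with hs
  have hcre : c.re = 3 / 2 + r := by simp [hc]
  have hcim : c.im = t := by simp [hc]
  have hsre : s.re = 3 / 2 + ε := by simp [hs]
  have hsim : s.im = t := by simp [hs]
  have hc1 : 3 / 2 < c.re := by rw [hcre]; linarith
  have hs1 : 3 / 2 < s.re := by rw [hsre]; linarith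
  have hne : ∀ z : ℂ, 3 / 2 < z.re → F z ≠ 0 := fun z hz h0 =>
    absurd (re_le_of_zero W hFL h0) (not_le.2 hz)
  have hball : ∀ z ∈ Metric.closedBall c (4 * r), ‖F z‖ ≤ M := by
    intro z hz
    rw [Metric.mem_closedBall, dist_eq_norm] at hz
    have h1 := (Complex.abs_re_le_norm (z - c)).trans hz
    have h2 := (Complex.abs_im_le_norm (z - c)).trans hz
    rw [Complex.sub_re, hcre, abs_le] at h1
    rw [Complex.sub_im, hcim] at h2
    refine hFM z (by rw [hr] at h1; linarith [h1.1]) ?_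
    have h3 : |z.im| ≤ |z.im - t| + |t| := by
      have := abs_add_le (z.im - t) t
      rwa [sub_add_cancel] at this
    rw [hr] at h2
    nlinarith
  -- lower bound at the centre
  have hlow : -2 * Real.log (360 * M / δ ^ 2) - |CB| ≤ Real.log ‖F c‖ := by
    have h1 := sum_le_of_Z K hδ hδ1 hM hZ1 hZ2
    have h2 := log_lower Dt t r hrpos (by rw [hr]; linarith)
    have h3 : Real.log ‖F c‖ = Real.log ‖LogExp.L (Curve.qv (K := K)) a b
        (((3 / 2 + r : ℝ) : ℂ) + t * I)‖ := by rw [hFL c hc1, hLs c]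
    have h4 : (∑' v : HeightOneSpectrum (𝓞 K), nrm v ^ (-(1 + δ / 4))) =
        ∑' v : HeightOneSpectrum (𝓞 K), (Curve.qv v : ℝ) ^ (-(1 + r)) := by
      refine tsum_congr fun v => ?_
      rw [Curve.nrm_eq]
    rw [h4] at h1
    rw [h3]
    linarith
  set L' : ℝ := 7 * L + C1 with hL'
  have hL'0 : 0 ≤ L' := by positivity
  have hFc : F c ≠ 0 := hne c hc1
  have hBc : M ≤ Real.exp L' * ‖F c‖ := by
    have hZc : 0 < ‖F c‖ := norm_pos_iff.2 hFc
    have h1 : Real.log M ≤ L' + Real.log ‖F c‖ := by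
      have h4 : Real.log (360 * M / δ ^ 2) = Real.log 360 + Real.log M - 2 * Real.log δ := by
        rw [Real.log_div (by positivity) (by positivity), Real.log_mul (by positivity)
          (by positivity), Real.log_pow]
        push_cast; ring
      rw [h4] at hlow
      rw [hL', hC1]
      linarith
    calc M = Real.exp (Real.log M) := (Real.exp_log (by linarith)).symm
      _ ≤ Real.exp (L' + Real.log ‖F c‖) := Real.exp_le_exp.2 h1
      _ = Real.exp L' * ‖F c‖ := by rw [Real.exp_add, Real.exp_log hZc]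
  have hsc : ‖s - c‖ ≤ r := by
    have e : s - c = ((ε - r : ℝ) : ℂ) := by rw [hs, hc]; push_cast; ring
    rw [e, Complex.norm_real, Real.norm_eq_abs, abs_le]
    constructor <;> linarith
  -- the zeros near `t`
  have hρ2 : ∀ j, (ρ j).re ≤ 3 / 2 := by
    intro j
    refine re_le_of_zero W hFL (z := ρ j) ?_
    rw [hfac]
    rw [Finset.prod_eq_zero (Finset.mem_univ j) (by rw [sub_self]), zero_mul]
  set S : Finset (Fin k) := Finset.univ.filter fun j => |(ρ j).im - t| ≤ r with hS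
  set ρ' : ℕ → ℂ := fun j => if hj : j < k then ρ ⟨j, hj⟩ else 0 with hρ'
  set S' : Finset ℕ := S.map Fin.valEmbedding with hS'
  have hρ'' : ∀ j : Fin k, ρ' j = ρ j := fun j => by simp [hρ']
  have hprod : ∀ z, (∏ j ∈ S', (z - ρ' j)) = ∏ j ∈ S, (z - ρ j) := by
    intro z
    rw [hS', Finset.prod_map]
    exact Finset.prod_congr rfl fun j _ => by rw [Fin.valEmbedding_apply, hρ'']
  set h' : ℂ → ℂ := fun z => (∏ j ∈ Sᶜ, (z - ρ j)) * h z with hh'
  have hh'd : Differentiable ℂ h' := by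
    rw [hh']
    exact (Differentiable.fun_finsetProd fun j _ => differentiable_id.sub_const _).mul hh
  have hfac' : ∀ z, F z = (∏ j ∈ S', (z - ρ' j)) * h' z := by
    intro z
    rw [hprod, hh', hfac z, ← Finset.prod_mul_prod_compl S]
    ring
  have hnear : ∀ j ∈ S', ‖ρ' j - c‖ ≤ 2 * r := by
    intro j hj
    rw [hS', Finset.mem_map] at hj
    obtain ⟨i, hi, rfl⟩ := hj
    rw [Fin.valEmbedding_apply, hρ'']
    rw [hS, Finset.mem_filter] at hi
    have h1 : |(ρ i - c).im| ≤ r := by rw [Complex.sub_im, hcim]; exact hi.2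
    have h2 : |(ρ i - c).re| ≤ 3 / 2 * r := by
      rw [Complex.sub_re, hcre, abs_le]
      have h3 := hρ i
      have h4 := hρ2 i
      constructor <;> linarith
    have h5 : ‖ρ i - c‖ ^ 2 ≤ (2 * r) ^ 2 := by
      rw [Complex.sq_norm, Complex.normSq_apply]
      have h6 : (ρ i - c).re * (ρ i - c).re ≤ (3 / 2 * r) ^ 2 := by
        rw [← sq, ← sq_abs]; exact pow_le_pow_left₀ (abs_nonneg _) h2 2
      have h7 : (ρ i - c).im * (ρ i - c).im ≤ r ^ 2 := by
        rw [← sq, ← sq_abs]; exact pow_le_pow_left₀ (abs_nonneg _) h1 2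
      nlinarith
    exact (sq_le_sq₀ (norm_nonneg _) (by positivity)).1 h5
  have key := hA S' ρ' F h' c s r M L' hrpos hL'0 hfac' (fun z _ => hh'd z) hball hBc hFc
    (hne s hs1) hsc hnear (fun z _ hz0 => by
      have := re_le_of_zero W hFL hz0
      linarith)
  have hsum1 : (∑ j ∈ S', ((s - ρ' j)⁻¹).re) = ∑ j ∈ S, ((s - ρ j)⁻¹).re := by
    rw [hS', Finset.sum_map]
    exact Finset.sum_congr rfl fun j _ => by rw [Fin.valEmbedding_apply, hρ'']
  rw [hsum1] at key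
  -- the sum over the zeros
  have hsρ : ∀ j, s - ρ j = (((3 / 2 + ε - (ρ j).re : ℝ) : ℂ)) + ((t - (ρ j).im : ℝ) : ℂ) * I := by
    intro j
    apply Complex.ext
    · simp [hsre]
    · simp [hsim]
  have hzer : (1 - κ') * (∑ j, gk ε (t - (ρ j).im)) - κ' / 2 ≤ ε * ∑ j ∈ S, ((s - ρ j)⁻¹).re := by
    have h1 : ∀ j ∈ S, (1 - κ') * gk ε (t - (ρ j).im) ≤ ε * ((s - ρ j)⁻¹).re := by
      intro j _
      rw [hsρ j]
      refine re_inv_ge hεpos ?_ ?_
      · linarith [hρ2 j]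
      · linarith [hρ j]
    have h2 : ∀ j ∈ Sᶜ, (1 - κ') * gk ε (t - (ρ j).im) ≤ 16 * θ := by
      intro j hj
      rw [Finset.mem_compl, hS, Finset.mem_filter, not_and] at hj
      have h3 := hj (Finset.mem_univ j)
      rw [not_le] at h3
      have h4 : gk ε (t - (ρ j).im) ≤ 16 * θ := by
        unfold gk
        have h5 : r ^ 2 ≤ (t - (ρ j).im) ^ 2 := by
          rw [← sq_abs (t - (ρ j).im), abs_sub_comm]
          exact pow_le_pow_left₀ hrpos.le h3.le 2
        have h6 : 1 / (4 * θ ^ 2) ≤ ((t - (ρ j).im) / ε) ^ 2 := by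
          rw [div_pow, div_le_div_iff₀ (by positivity) (by positivity), one_mul]
          have h7 : ε ^ 2 ≤ (r * θ * 2) ^ 2 := pow_le_pow_left₀ hεpos.le hεδ 2
          nlinarith [mul_le_mul_of_nonneg_right h5 (by positivity : 0 ≤ 4 * θ ^ 2)]
        rw [div_le_iff₀ (by positivity)]
        have h8 : 1 ≤ 16 * θ * (1 / (4 * θ ^ 2)) * (1 / 1) := by
          have e : 16 * θ * (1 / (4 * θ ^ 2)) = 4 / θ := by field_simp; ring
          rw [e, div_one, mul_one, one_le_div hθ]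
          linarith
        have h9 : 16 * θ * (1 / (4 * θ ^ 2)) ≤ 16 * θ * (1 + ((t - (ρ j).im) / ε) ^ 2) :=
          mul_le_mul_of_nonneg_left (by linarith) (by positivity)
        linarith
      have h5 : (1 - κ') * gk ε (t - (ρ j).im) ≤ 1 * gk ε (t - (ρ j).im) :=
        mul_le_mul_of_nonneg_right (by linarith) (gk_nonneg _ _)
      linarith
    have h3 : (1 - κ') * (∑ j, gk ε (t - (ρ j).im)) =
        (∑ j ∈ S, (1 - κ') * gk ε (t - (ρ j).im)) + ∑ j ∈ Sᶜ, (1 - κ') * gk ε (t - (ρ j).im) := by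
      rw [Finset.sum_add_sum_compl, Finset.mul_sum]
    have h4 : (∑ j ∈ Sᶜ, (1 - κ') * gk ε (t - (ρ j).im)) ≤ κ' / 2 := by
      calc (∑ j ∈ Sᶜ, (1 - κ') * gk ε (t - (ρ j).im)) ≤ ∑ j ∈ Sᶜ, 16 * θ := Finset.sum_le_sum h2
        _ = (Sᶜ).card * (16 * θ) := by rw [Finset.sum_const, nsmul_eq_mul]
        _ ≤ k * (16 * θ) := by
            refine mul_le_mul_of_nonneg_right ?_ (by positivity)
            have := Finset.card_le_univ (Sᶜ)
            rw [Fintype.card_fin] at this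
            exact_mod_cast this
        _ ≤ κ' / 2 := by
            rw [le_div_iff₀ hE0, hE] at hθ3
            nlinarith
    have h5 : (∑ j ∈ S, (1 - κ') * gk ε (t - (ρ j).im)) ≤ ε * ∑ j ∈ S, ((s - ρ j)⁻¹).re := by
      rw [Finset.mul_sum]
      exact Finset.sum_le_sum h1
    linarith
  -- expansion
  have hexp := deriv_expansion Dt t ε hεpos (by linarith)
  rw [abs_le] at hexp
  have hexp1 := hexp.2
  have hder : deriv (LogExp.L (Curve.qv (K := K)) a b) (((3 / 2 + ε : ℝ) : ℂ) + t * I) /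
      LogExp.L (Curve.qv (K := K)) a b (((3 / 2 + ε : ℝ) : ℂ) + t * I) = deriv F s / F s := by
    have hev : F =ᶠ[𝓝 s] LogExp.L (Curve.qv (K := K)) a b := by
      have hopen : IsOpen {z : ℂ | 3 / 2 < z.re} := isOpen_lt continuous_const Complex.continuous_re
      filter_upwards [hopen.mem_nhds hs1] with z hz
      rw [hFL z hz, hLs z]
    rw [hev.deriv_eq, hev.eq_of_nhds]
  rw [hder] at hexp1
  set X := (∑' v : HeightOneSpectrum (𝓞 K), LogExp.xs (Curve.qv (K := K)) a (Curve.exc K) v *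
    (Real.log (Curve.qv v) * (Curve.qv v : ℝ) ^ (-(1 + ε)) *
      Real.cos (t * Real.log (Curve.qv v)))) with hX
  have hsum : (∑' v : HeightOneSpectrum (𝓞 K), ε * (Real.log (nrm v) * nrm v ^ (-(1 + ε))) *
      xK W v * Real.cos (t * Real.log (nrm v))) = ε * X := by
    rw [hX, ← tsum_mul_left]
    refine tsum_congr fun v => ?_
    rw [hxs v, Curve.nrm_eq]
    ring
  rw [hsum]
  have hXle : X ≤ CA * (L' + 1) / r - (∑ j ∈ S, ((s - ρ j)⁻¹).re) + |CB| := by linarith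
  have h2 : ε * (CA * (L' + 1) / r + |CB|) ≤ κ' / 2 := by
    have h3 : ε * (CA * (L' + 1) / r) ≤ θ * (4 * CA * (7 + C1 + 1)) := by
      have e : ε * (CA * (L' + 1) / r) = θ * (4 * CA * ((L' + 1) / L)) := by
        rw [hε, hr]; field_simp
      rw [e]
      refine mul_le_mul_of_nonneg_left (mul_le_mul_of_nonneg_left ?_ (by positivity)) hθ.le
      rw [div_le_iff₀ hLpos, hL']
      nlinarith
    have h4 : ε * |CB| ≤ θ * |CB| := by
      refine mul_le_mul_of_nonneg_right ?_ (abs_nonneg _)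
      rw [hε, div_le_iff₀ hLpos]
      nlinarith
    have h5 : θ * D ≤ κ' / 2 := by
      rw [le_div_iff₀ hD0] at hθ2
      exact hθ2
    rw [mul_add]
    rw [hD, mul_add] at h5
    linarith
  calc ε * X ≤ ε * (CA * (L' + 1) / r - (∑ j ∈ S, ((s - ρ j)⁻¹).re) + |CB|) :=
        mul_le_mul_of_nonneg_left hXle hεpos.le
    _ = ε * (CA * (L' + 1) / r + |CB|) - ε * (∑ j ∈ S, ((s - ρ j)⁻¹).re) := by ring
    _ ≤ κ' - (1 - κ') * ∑ j, gk ε (t - (ρ j).im) := by linarith

end Pool.Agent.MPfb225e.Zfr
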