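import Mathlib

/-!
MP_fb225e_nt, project ZFR, module D2: a pair of zeros forces a bias (Fejer kernel, one-sided).
-/

namespace Pool.Agent.MPfb225e.Zfr

open Filter Topology

universe u

theorem D2_fej_eq (N : ℕ) (t : ℝ) :
    (∑ j ∈ Finset.range N, ∑ l ∈ Finset.range N, Real.cos (((j : ℝ) - l) * t)) =
      (∑ j ∈ Finset.range N, Real.cos (j * t)) ^ 2 +
        (∑ j ∈ Finset.range N, Real.sin (j * t)) ^ 2 := by
  rw [sq, sq, Finset.sum_mul_sum, Finset.sum_mul_sum, ← Finset.sum_add_distrib]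
  refine Finset.sum_congr rfl fun j _ => ?_
  rw [← Finset.sum_add_distrib]
  refine Finset.sum_congr rfl fun l _ => ?_
  rw [← Real.cos_sub]
  congr 1
  ring

theorem D2_fej_nonneg (N : ℕ) (t : ℝ) :
    0 ≤ ∑ j ∈ Finset.range N, ∑ l ∈ Finset.range N, Real.cos (((j : ℝ) - l) * t) := by
  rw [D2_fej_eq]
  positivity

theorem D2_fej_le (N : ℕ) (t : ℝ) :
    ∑ j ∈ Finset.range N, ∑ l ∈ Finset.range N, Real.cos (((j : ℝ) - l) * t) ≤ (N : ℝ) ^ 2 := by
  refine le_trans (Finset.sum_le_sum fun j _ => Finset.sum_le_sum fun l _ =>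
    Real.cos_le_one _) ?_
  simp [sq]

section G

variable {G : ℝ → ℝ} (hmono : ∀ s t, |s| ≤ |t| → G t ≤ G s)

include hmono

theorem D2_even (t : ℝ) : G (-t) = G t :=
  le_antisymm (hmono _ _ (by rw [abs_neg])) (hmono _ _ (by rw [abs_neg]))

/-- the sum over a row -/
theorem D2_row {N m : ℕ} (hm : m < N) (γ : ℝ) :
    ∑ j ∈ Finset.range N, G (j * γ) ≤ ∑ l ∈ Finset.range N, G (((m : ℝ) - l) * γ) := by
  have h1 : ∑ j ∈ Finset.range N, G (j * γ) =
      ∑ l ∈ Finset.range N, G (((if l ≤ m then m - l else l : ℕ) : ℝ) * γ) := by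
    refine Finset.sum_nbij' (fun l => if l ≤ m then m - l else l)
      (fun l => if l ≤ m then m - l else l) ?_ ?_ ?_ ?_ ?_
    · intro l hl
      rw [Finset.mem_range] at hl ⊢
      split_ifs <;> omega
    · intro l hl
      rw [Finset.mem_range] at hl ⊢
      split_ifs <;> omega
    · intro l hl
      split_ifs <;> omega
    · intro l hl
      split_ifs <;> omega
    · intro l hl
      have h0 : l = (if (if l ≤ m then m - l else l) ≤ m then m - (if l ≤ m then m - l else l)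
          else (if l ≤ m then m - l else l)) := by
        split_ifs <;> omega
      exact congrArg (fun k : ℕ => G (k * γ)) h0
  rw [h1]
  refine Finset.sum_le_sum fun l _ => hmono _ _ ?_
  rw [abs_mul, abs_mul]
  refine mul_le_mul_of_nonneg_right ?_ (abs_nonneg γ)
  split_ifs with h
  · rw [Nat.cast_sub h]
  · have h2 : (m : ℝ) < l := by exact_mod_cast not_le.1 h
    have h3 : (0 : ℝ) ≤ m := Nat.cast_nonneg m
    have h4 : |(l : ℝ)| = l := abs_of_nonneg (Nat.cast_nonneg l)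
    rw [h4, abs_of_neg (by linarith)]
    linarith

theorem D2_shift (hG : ∀ t, 0 ≤ G t) {N : ℕ} (hN : 0 < N) (γ : ℝ) :
    (1 - 1 / (N : ℝ)) * ∑ m ∈ Finset.range N, ∑ l ∈ Finset.range N, G (((m : ℝ) - l) * γ) ≤
      ∑ m ∈ Finset.range N, ∑ l ∈ Finset.range N, G (((m : ℝ) - l) * γ - γ) := by
  set R := ∑ j ∈ Finset.range N, G (j * γ) with hR
  set Ψ := ∑ m ∈ Finset.range N, ∑ l ∈ Finset.range N, G (((m : ℝ) - l) * γ) with hΨ
  have hN0 : (0 : ℝ) < N := by exact_mod_cast hN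
  have h1 : N * R ≤ Ψ := by
    have : ∑ _m ∈ Finset.range N, R ≤ Ψ :=
      Finset.sum_le_sum fun m hm => D2_row hmono (Finset.mem_range.1 hm) γ
    simpa using this
  obtain ⟨k, rfl⟩ : ∃ k, N = k + 1 := ⟨N - 1, by omega⟩
  have h2 : Ψ = (∑ m ∈ Finset.range k, ∑ l ∈ Finset.range (k + 1), G (((m : ℝ) - l) * γ)) + R := by
    rw [hΨ, Finset.sum_range_succ, hR]
    congr 1
    rw [← Finset.sum_range_reflect]
    refine Finset.sum_congr rfl fun l hl => ?_
    rw [Finset.mem_range] at hl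
    congr 2
    have : k + 1 - 1 - l = k - l := by omega
    rw [this, Nat.cast_sub (by omega)]
    ring
  have h3 : (∑ m ∈ Finset.range k, ∑ l ∈ Finset.range (k + 1), G (((m : ℝ) - l) * γ)) ≤
      ∑ m ∈ Finset.range (k + 1), ∑ l ∈ Finset.range (k + 1), G (((m : ℝ) - l) * γ - γ) := by
    rw [Finset.sum_range_succ' _ k]
    refine le_trans (le_of_eq ?_) (le_add_of_nonneg_right
      (Finset.sum_nonneg fun l _ => hG _))
    refine Finset.sum_congr rfl fun m _ => Finset.sum_congr rfl fun l _ => ?_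
    congr 1
    push_cast
    ring
  have h4 : (1 - 1 / ((k + 1 : ℕ) : ℝ)) * Ψ = Ψ - Ψ / ((k + 1 : ℕ) : ℝ) := by ring
  have h5 : R ≤ Ψ / ((k + 1 : ℕ) : ℝ) := by
    rw [le_div_iff₀ hN0]
    linarith
  rw [h4]
  linarith

theorem D2_shift' (hG : ∀ t, 0 ≤ G t) {N : ℕ} (hN : 0 < N) (γ : ℝ) :
    (1 - 1 / (N : ℝ)) * ∑ m ∈ Finset.range N, ∑ l ∈ Finset.range N, G (((m : ℝ) - l) * γ) ≤
      ∑ m ∈ Finset.range N, ∑ l ∈ Finset.range N, G (((m : ℝ) - l) * γ + γ) := by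
  refine (D2_shift hmono hG hN γ).trans (le_of_eq ?_)
  rw [Finset.sum_comm]
  refine Finset.sum_congr rfl fun m _ => Finset.sum_congr rfl fun l _ => ?_
  rw [← D2_even hmono]
  congr 1
  ring

end G

/-- D2 (file Zfr/Pair.lean). A pair of zeros forces a bias. -/
theorem pair_bias (η : ℝ) (hη : 0 < η) (hη1 : η ≤ 1) : ∃ (N : ℕ) (κ : ℝ), 0 < κ ∧
    ∀ {ι : Type u} (W x ℓ : ι → ℝ) (G : ℝ → ℝ)
    (γ T : ℝ), (∀ i, 0 ≤ W i) → Summable W → (∀ i, |x i| ≤ 2) →
    (∀ t, 0 ≤ G t) → (∀ s t, |s| ≤ |t| → G t ≤ G s) → G 0 = 1 → |γ| ≤ T →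
    (∀ t, |t| ≤ N * T → ∑' i, W i * Real.cos (t * ℓ i) ≤ κ + G t) →
    (∀ t, |t| ≤ N * T → ∑' i, W i * x i * Real.cos (t * ℓ i) ≤
      κ - (1 - κ) * (G (t - γ) + G (t + γ))) →
    η / 12 ≤ ∑' i, {i | x i < -2 + η}.indicator W i := by
  set N : ℕ := ⌈4 / η⌉₊ with hN
  set κ : ℝ := η ^ 2 / 300 with hκ
  have hN1 : 4 / η ≤ N := Nat.le_ceil _
  have hN2 : (N : ℝ) < 4 / η + 1 := Nat.ceil_lt_add_one (by positivity)
  have hN3 : (4 : ℝ) ≤ N := by
    refine le_trans ?_ hN1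
    rw [le_div_iff₀ hη]
    linarith
  have hNpos : 0 < N := by
    have : (0 : ℝ) < N := by linarith
    exact_mod_cast this
  have hN0 : (0 : ℝ) < N := by exact_mod_cast hNpos
  have hN4 : 4 ≤ N * η := by
    rwa [div_le_iff₀ hη] at hN1
  have hN5 : N * η ≤ 5 := by
    have h1 : (N : ℝ) * η < (4 / η + 1) * η := mul_lt_mul_of_pos_right hN2 hη
    have h2 : (4 / η + 1) * η = 4 + η := by field_simp
    linarith
  have hκ0 : 0 < κ := by positivity
  have hκ1 : κ ≤ 1 / 300 := by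
    rw [hκ]
    have : η ^ 2 ≤ 1 := pow_le_one₀ hη.le hη1
    linarith
  refine ⟨N, κ, hκ0, ?_⟩
  intro ι W x ℓ G γ T hW hWs hx hG hmono hG0 hγ hc hb
  have hT : 0 ≤ T := (abs_nonneg γ).trans hγ
  -- the kernel
  set D : ι → ℝ := fun i => ∑ m ∈ Finset.range N, ∑ l ∈ Finset.range N,
    Real.cos (((m : ℝ) - l) * γ * ℓ i) with hD
  have hD' : ∀ i, D i = ∑ m ∈ Finset.range N, ∑ l ∈ Finset.range N,
      Real.cos (((m : ℝ) - l) * (γ * ℓ i)) := by
    intro i
    rw [hD]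
    refine Finset.sum_congr rfl fun m _ => Finset.sum_congr rfl fun l _ => ?_
    rw [mul_assoc]
  have hD0 : ∀ i, 0 ≤ D i := fun i => by rw [hD']; exact D2_fej_nonneg N _
  have hD1 : ∀ i, D i ≤ (N : ℝ) ^ 2 := fun i => by rw [hD']; exact D2_fej_le N _
  set Ψ := ∑ m ∈ Finset.range N, ∑ l ∈ Finset.range N, G (((m : ℝ) - l) * γ) with hΨ
  have hΨN : (N : ℝ) ≤ Ψ := by
    have h1 : ∀ m ∈ Finset.range N, (1 : ℝ) ≤ ∑ l ∈ Finset.range N, G (((m : ℝ) - l) * γ) := by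
      intro m hm
      have h2 := Finset.single_le_sum (f := fun l : ℕ => G (((m : ℝ) - l) * γ))
        (fun l _ => hG _) hm
      simp only [sub_self, zero_mul, hG0] at h2
      exact h2
    have h3 := Finset.sum_le_sum h1
    simpa using h3
  have hbd : ∀ m ∈ Finset.range N, ∀ l ∈ Finset.range N, |((m : ℝ) - l) * γ| ≤ N * T := by
    intro m hm l hl
    rw [Finset.mem_range] at hm hl
    rw [abs_mul]
    refine mul_le_mul ?_ hγ (abs_nonneg _) hN0.le
    rw [abs_le]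
    have h1 : (m : ℝ) < N := by exact_mod_cast hm
    have h2 : (l : ℝ) < N := by exact_mod_cast hl
    have h3 : (0 : ℝ) ≤ m := Nat.cast_nonneg m
    have h4 : (0 : ℝ) ≤ l := Nat.cast_nonneg l
    constructor <;> linarith
  -- summability
  have hs1 : ∀ t, Summable fun i => W i * Real.cos (t * ℓ i) := by
    intro t
    refine Summable.of_norm_bounded hWs fun i => ?_
    rw [Real.norm_eq_abs, abs_mul, abs_of_nonneg (hW i)]
    exact mul_le_of_le_one_right (hW i) (Real.abs_cos_le_one _)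
  have hs2 : ∀ t, Summable fun i => W i * x i * Real.cos (t * ℓ i) := by
    intro t
    refine Summable.of_norm_bounded (hWs.mul_left 2) fun i => ?_
    rw [Real.norm_eq_abs, abs_mul, abs_mul, abs_of_nonneg (hW i)]
    calc W i * |x i| * |Real.cos (t * ℓ i)| ≤ W i * 2 * 1 := by
          refine mul_le_mul (mul_le_mul_of_nonneg_left (hx i) (hW i))
            (Real.abs_cos_le_one _) (abs_nonneg _) ?_
          exact mul_nonneg (hW i) (by norm_num)
      _ = 2 * W i := by ring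
  have hS1 : HasSum (fun i => W i * D i) (∑ m ∈ Finset.range N, ∑ l ∈ Finset.range N,
      ∑' i, W i * Real.cos (((m : ℝ) - l) * γ * ℓ i)) := by
    have h1 : (fun i => W i * D i) = fun i => ∑ m ∈ Finset.range N, ∑ l ∈ Finset.range N,
        W i * Real.cos (((m : ℝ) - l) * γ * ℓ i) := by
      funext i
      rw [hD]
      simp only [Finset.mul_sum]
    rw [h1]
    exact hasSum_sum fun m _ => hasSum_sum fun l _ => (hs1 _).hasSum
  have hS2 : HasSum (fun i => W i * x i * D i) (∑ m ∈ Finset.range N, ∑ l ∈ Finset.range N,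
      ∑' i, W i * x i * Real.cos (((m : ℝ) - l) * γ * ℓ i)) := by
    have h1 : (fun i => W i * x i * D i) = fun i => ∑ m ∈ Finset.range N, ∑ l ∈ Finset.range N,
        W i * x i * Real.cos (((m : ℝ) - l) * γ * ℓ i) := by
      funext i
      rw [hD]
      simp only [Finset.mul_sum]
    rw [h1]
    exact hasSum_sum fun m _ => hasSum_sum fun l _ => (hs2 _).hasSum
  set S1 := ∑ m ∈ Finset.range N, ∑ l ∈ Finset.range N,
      ∑' i, W i * Real.cos (((m : ℝ) - l) * γ * ℓ i) with hS1d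
  set S2 := ∑ m ∈ Finset.range N, ∑ l ∈ Finset.range N,
      ∑' i, W i * x i * Real.cos (((m : ℝ) - l) * γ * ℓ i) with hS2d
  have hconst : ∀ a : ℝ, ∑ _m ∈ Finset.range N, ∑ _l ∈ Finset.range N, a = (N : ℝ) ^ 2 * a := by
    intro a
    simp only [Finset.sum_const, Finset.card_range, nsmul_eq_mul]
    ring
  have hB1 : S1 ≤ (N : ℝ) ^ 2 * κ + Ψ := by
    have h1 : S1 ≤ ∑ m ∈ Finset.range N, ∑ l ∈ Finset.range N, (κ + G (((m : ℝ) - l) * γ)) :=
      Finset.sum_le_sum fun m hm => Finset.sum_le_sum fun l hl => hc _ (hbd m hm l hl)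
    refine h1.trans (le_of_eq ?_)
    simp only [Finset.sum_add_distrib]
    rw [← hΨ]
    congr 1
    exact hconst κ
  have hB2 : S2 ≤ (N : ℝ) ^ 2 * κ - (1 - κ) * (2 * ((1 - 1 / (N : ℝ)) * Ψ)) := by
    have h1 : S2 ≤ ∑ m ∈ Finset.range N, ∑ l ∈ Finset.range N,
        (κ - (1 - κ) * (G (((m : ℝ) - l) * γ - γ) + G (((m : ℝ) - l) * γ + γ))) :=
      Finset.sum_le_sum fun m hm => Finset.sum_le_sum fun l hl => hb _ (hbd m hm l hl)
    refine h1.trans ?_
    simp only [Finset.sum_sub_distrib, ← Finset.mul_sum, Finset.sum_add_distrib]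
    have h2 := D2_shift hmono hG hNpos γ
    have h3 := D2_shift' hmono hG hNpos γ
    rw [← hΨ] at h2 h3
    have h4 : (0 : ℝ) ≤ 1 - κ := by linarith
    have h5 := mul_le_mul_of_nonneg_left (add_le_add h2 h3) h4
    have h6 : ∑ _m ∈ Finset.range N, ∑ _l ∈ Finset.range N, κ = (N : ℝ) ^ 2 * κ := hconst κ
    rw [h6]
    linarith
  -- the pointwise inequality
  have hS3 : HasSum (fun i => (1 - 2 / η) * (W i * D i) - 1 / η * (W i * x i * D i))
      ((1 - 2 / η) * S1 - 1 / η * S2) := (hS1.mul_left _).sub (hS2.mul_left _)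
  have hS4 : HasSum (fun i => (N : ℝ) ^ 2 * {i | x i < -2 + η}.indicator W i)
      ((N : ℝ) ^ 2 * ∑' i, {i | x i < -2 + η}.indicator W i) :=
    ((hWs.indicator _).hasSum).mul_left _
  have hpt : ∀ i, (1 - 2 / η) * (W i * D i) - 1 / η * (W i * x i * D i) ≤
      (N : ℝ) ^ 2 * {i | x i < -2 + η}.indicator W i := by
    intro i
    have h1 : (1 - 2 / η) * (W i * D i) - 1 / η * (W i * x i * D i) =
        W i * D i * (1 - (2 + x i) / η) := by ring
    rw [h1]
    have h2 : 0 ≤ W i * D i := mul_nonneg (hW i) (hD0 i)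
    have h3 : -2 ≤ x i := (abs_le.1 (hx i)).1
    by_cases h : x i < -2 + η
    · rw [Set.indicator_of_mem (show i ∈ {i | x i < -2 + η} from h)]
      have h4 : 1 - (2 + x i) / η ≤ 1 := by
        have : 0 ≤ (2 + x i) / η := div_nonneg (by linarith) hη.le
        linarith
      calc W i * D i * (1 - (2 + x i) / η) ≤ W i * D i * 1 :=
            mul_le_mul_of_nonneg_left h4 h2
        _ ≤ W i * (N : ℝ) ^ 2 := by
          rw [mul_one]
          exact mul_le_mul_of_nonneg_left (hD1 i) (hW i)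
        _ = (N : ℝ) ^ 2 * W i := by ring
    · rw [Set.indicator_of_notMem (show i ∉ {i | x i < -2 + η} from h), mul_zero]
      apply mul_nonpos_of_nonneg_of_nonpos h2
      have : 1 ≤ (2 + x i) / η := by
        rw [le_div_iff₀ hη]
        linarith
      linarith
  have hfin := hasSum_le hpt hS3 hS4
  -- numerics
  set I := ∑' i, {i | x i < -2 + η}.indicator W i with hI
  have h2η : 0 ≤ 2 / η - 1 := by
    have : 2 ≤ 2 / η := by
      rw [le_div_iff₀ hη]
      nlinarith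
    linarith
  have hη' : 0 < 1 / η := by positivity
  have h7 : (2 / η - 1) * S1 ≤ (2 / η - 1) * ((N : ℝ) ^ 2 * κ + Ψ) :=
    mul_le_mul_of_nonneg_left hB1 h2η
  have h8 : 1 / η * S2 ≤ 1 / η * ((N : ℝ) ^ 2 * κ - (1 - κ) * (2 * ((1 - 1 / (N : ℝ)) * Ψ))) :=
    mul_le_mul_of_nonneg_left hB2 hη'.le
  have h9 : -((2 / η - 1) * ((N : ℝ) ^ 2 * κ + Ψ)) -
      1 / η * ((N : ℝ) ^ 2 * κ - (1 - κ) * (2 * ((1 - 1 / (N : ℝ)) * Ψ))) ≤ (N : ℝ) ^ 2 * I := by
    linarith
  -- multiply by η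
  have h10 : -((2 - η) * ((N : ℝ) ^ 2 * κ + Ψ)) -
      ((N : ℝ) ^ 2 * κ - (1 - κ) * (2 * ((1 - 1 / (N : ℝ)) * Ψ))) ≤ (N : ℝ) ^ 2 * I * η := by
    have := mul_le_mul_of_nonneg_right h9 hη.le
    refine le_trans (le_of_eq ?_) this
    field_simp
  have h11 : (1 - 1 / (N : ℝ)) * Ψ = Ψ - Ψ / N := by ring
  rw [h11] at h10
  -- Ψ / N ≤ η Ψ / 4
  have hΨ0 : 0 < Ψ := by linarith
  have h12 : Ψ / N ≤ η * Ψ / 4 := by
    rw [div_le_iff₀ hN0]
    nlinarith
  have h13 : 0 ≤ Ψ / N := by positivity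
  have h14 : Ψ * (η / 2 - 2 * κ) - 3 * (N : ℝ) ^ 2 * κ ≤ (N : ℝ) ^ 2 * I * η := by
    refine le_trans ?_ h10
    have h15 : 0 ≤ (N : ℝ) ^ 2 * κ := by positivity
    have h16 : 0 ≤ η * ((N : ℝ) ^ 2 * κ) := by positivity
    have h17 : 0 ≤ κ * (Ψ / N) := by positivity
    nlinarith
  have h18 : 0 ≤ η / 2 - 2 * κ := by
    rw [hκ]
    nlinarith
  have h19 : (N : ℝ) * (η / 2 - 2 * κ) - 3 * (N : ℝ) ^ 2 * κ ≤ (N : ℝ) ^ 2 * I * η := by
    have := mul_le_mul_of_nonneg_right hΨN h18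
    linarith
  -- divide by N ^ 2 * η
  have h20 : (N : ℝ) ^ 2 * η * (η / 12) ≤ (N : ℝ) * (η / 2 - 2 * κ) - 3 * (N : ℝ) ^ 2 * κ := by
    have h21 : (N : ℝ) ^ 2 * η ≤ 5 * N := by nlinarith
    have h22 : (N : ℝ) ^ 2 * η * η ≤ 5 * N * η := mul_le_mul_of_nonneg_right h21 hη.le
    rw [hκ]
    have h23 : (N : ℝ) * η ^ 2 ≤ N * η := by
      apply mul_le_mul_of_nonneg_left _ hN0.le
      nlinarith
    nlinarith
  have h24 : (N : ℝ) ^ 2 * η * (η / 12) ≤ (N : ℝ) ^ 2 * η * I := by linarith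
  exact le_of_mul_le_mul_left h24 (by positivity)

end Pool.Agent.MPfb225e.Zfr
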