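import Mathlib

/-!
MP_fb225e_nt, project ZFR, module F0: splitting off zeros of an entire function.
-/

namespace Pool.Agent.MPfb225e.Zfr

open Filter Topology Complex

theorem split_analytic {F : ℂ → ℂ} (hF : Differentiable ℂ F) (z : ℂ) : AnalyticAt ℂ F z :=
  hF.analyticAt z

theorem split_order_ne_top {F : ℂ → ℂ} (hF : Differentiable ℂ F) (h0 : ∃ z, F z ≠ 0) (z : ℂ) :
    analyticOrderAt F z ≠ ⊤ := by
  intro h
  obtain ⟨w, hw⟩ := h0
  have h1 : F = 0 := by
    have := (analyticOrderAt_eq_top.1 h)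
    have h2 : AnalyticOnNhd ℂ F Set.univ := fun x _ => hF.analyticAt x
    funext x
    exact h2.eqOn_zero_of_preconnected_of_eventuallyEq_zero isPreconnected_univ (Set.mem_univ z)
      this (Set.mem_univ x)
  exact hw (by rw [h1]; rfl)

/-- F0. Splitting off zeros. -/
theorem split_zeros (F : ℂ → ℂ) (hF : Differentiable ℂ F) (h0 : ∃ z, F z ≠ 0) (k : ℕ)
    (S : Finset ℂ) (hS : k ≤ ∑ ρ ∈ S, analyticOrderNatAt F ρ) :
    ∃ (ρ : Fin k → ℂ) (h : ℂ → ℂ), Differentiable ℂ h ∧ (∀ j, ρ j ∈ S) ∧
      ∀ z, F z = (∏ j, (z - ρ j)) * h z := by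
  classical
  induction k generalizing F with
  | zero => exact ⟨Fin.elim0, F, hF, fun j => j.elim0, fun z => by simp⟩
  | succ k ih =>
    obtain ⟨ρ, hρS, hρ⟩ : ∃ ρ ∈ S, analyticOrderNatAt F ρ ≠ 0 := by
      by_contra hcon
      push Not at hcon
      rw [Finset.sum_eq_zero hcon] at hS
      omega
    have hF0 : F ρ = 0 := apply_eq_zero_of_analyticOrderNatAt_ne_zero hρ
    have hG : Differentiable ℂ (dslope F ρ) := by
      have h1 : DifferentiableOn ℂ (dslope F ρ) Set.univ :=
        (Complex.differentiableOn_dslope (by simp)).2 hF.differentiableOn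
      exact differentiableOn_univ.1 h1
    have hfac : ∀ z, F z = (z - ρ) * dslope F ρ z := by
      intro z
      have := sub_smul_dslope F ρ z
      rw [hF0, sub_zero, smul_eq_mul] at this
      exact this.symm
    have hG0 : ∃ z, dslope F ρ z ≠ 0 := by
      obtain ⟨w, hw⟩ := h0
      exact ⟨w, fun h => hw (by rw [hfac w, h, mul_zero])⟩
    have hlin : Differentiable ℂ (fun z : ℂ => z - ρ) := differentiable_id.sub_const ρ
    have hlin0 : ∃ z : ℂ, z - ρ ≠ 0 := ⟨ρ + 1, by simp⟩
    have hord : ∀ x, analyticOrderNatAt F x = analyticOrderNatAt (fun z : ℂ => z - ρ) x +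
        analyticOrderNatAt (dslope F ρ) x := by
      intro x
      have h1 : F = (fun z : ℂ => z - ρ) * dslope F ρ := funext hfac
      conv_lhs => rw [h1]
      exact analyticOrderNatAt_mul (hlin.analyticAt x) (hG.analyticAt x)
        (split_order_ne_top hlin hlin0 x) (split_order_ne_top hG hG0 x)
    have h1 : ∑ x ∈ S, analyticOrderNatAt (fun z : ℂ => z - ρ) x ≤ 1 := by
      rw [Finset.sum_eq_single_of_mem ρ hρS]
      · have := analyticOrderAt_id_sub_const_self (𝕜 := ℂ) (c := ρ)
        have h2 : analyticOrderAt (fun z : ℂ => z - ρ) ρ = 1 := this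
        simp [analyticOrderNatAt, h2]
      · intro x _ hx
        have h2 : analyticOrderAt (fun z : ℂ => z - ρ) x = 0 := by
          rw [(hlin.analyticAt x).analyticOrderAt_eq_zero]
          exact sub_ne_zero.2 hx
        simp [analyticOrderNatAt, h2]
    have h2 : k ≤ ∑ x ∈ S, analyticOrderNatAt (dslope F ρ) x := by
      rw [Finset.sum_congr rfl (fun x _ => hord x), Finset.sum_add_distrib] at hS
      omega
    obtain ⟨σ, h, hh, hσ, hprod⟩ := ih (dslope F ρ) hG hG0 h2
    refine ⟨Fin.cons ρ σ, h, hh, ?_, fun z => ?_⟩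
    · intro j
      refine Fin.cases ?_ (fun i => ?_) j
      · simpa using hρS
      · simpa using hσ i
    · rw [hfac z, hprod z, Fin.prod_univ_succ]
      simp [mul_assoc]

end Pool.Agent.MPfb225e.Zfr
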