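import Mathlib

/-!
MP_fb225e_nt, zero-free region: three zeros are impossible (boxes in `ℤ³` and positivity).
-/

open Filter Topology Complex

namespace Pool.Agent.MPfb225e.Zfr

universe u

/-- The box of radius `r`. -/
noncomputable def ThreeBox (r : ℕ) : Finset (Fin 3 → ℤ) :=
  Fintype.piFinset fun _ => Finset.Icc (-(r : ℤ)) r

/-- The linear combination of the `γ j` with coefficients `m j`. -/
noncomputable def ThreeTau (γ : Fin 3 → ℝ) (m : Fin 3 → ℤ) : ℝ := ∑ j, (m j : ℝ) * γ j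

/-- The sum of `G` over the differences of a box. -/
noncomputable def ThreePsi (G : ℝ → ℝ) (γ : Fin 3 → ℝ) (r : ℕ) : ℝ :=
  ∑ m ∈ ThreeBox r, ∑ m' ∈ ThreeBox r, G (ThreeTau γ m - ThreeTau γ m')

theorem Three_mem {r : ℕ} {m : Fin 3 → ℤ} : m ∈ ThreeBox r ↔ ∀ j, -(r : ℤ) ≤ m j ∧ m j ≤ r := by
  unfold ThreeBox
  rw [Fintype.mem_piFinset]
  simp only [Finset.mem_Icc]

theorem Three_card (r : ℕ) : (ThreeBox r).card = (2 * r + 1) ^ 3 := by
  unfold ThreeBox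
  rw [Fintype.card_piFinset]
  simp only [Int.card_Icc, Finset.prod_const, Finset.card_univ, Fintype.card_fin]
  congr 1
  omega

theorem Three_le {G : ℝ → ℝ} (hG1 : ∀ t, G t ≤ 1) (γ : Fin 3 → ℝ) (r : ℕ) :
    ThreePsi G γ r ≤ (2 * (r : ℝ) + 1) ^ 6 := by
  unfold ThreePsi
  calc (∑ m ∈ ThreeBox r, ∑ m' ∈ ThreeBox r, G (ThreeTau γ m - ThreeTau γ m'))
      ≤ ∑ m ∈ ThreeBox r, ∑ m' ∈ ThreeBox r, (1 : ℝ) :=
        Finset.sum_le_sum fun m _ => Finset.sum_le_sum fun m' _ => hG1 _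
    _ = (2 * (r : ℝ) + 1) ^ 6 := by
        simp only [Finset.sum_const, Three_card, nsmul_eq_mul, mul_one]
        push_cast
        ring

theorem Three_ge {G : ℝ → ℝ} (hG : ∀ t, 0 ≤ G t) (hG0 : G 0 = 1) (γ : Fin 3 → ℝ) (r : ℕ) :
    1 ≤ ThreePsi G γ r := by
  unfold ThreePsi
  have h0 : (0 : Fin 3 → ℤ) ∈ ThreeBox r := by
    rw [Three_mem]
    intro j
    simp
  calc (1 : ℝ) = G (ThreeTau γ 0 - ThreeTau γ 0) := by rw [sub_self, hG0]
    _ ≤ ∑ m' ∈ ThreeBox r, G (ThreeTau γ 0 - ThreeTau γ m') :=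
        Finset.single_le_sum (f := fun m' => G (ThreeTau γ 0 - ThreeTau γ m'))
          (fun _ _ => hG _) h0
    _ ≤ _ := Finset.single_le_sum
        (f := fun m => ∑ m' ∈ ThreeBox r, G (ThreeTau γ m - ThreeTau γ m'))
          (fun _ _ => Finset.sum_nonneg fun _ _ => hG _) h0

theorem Three_tau_sub (γ : Fin 3 → ℝ) (m : Fin 3 → ℤ) (j : Fin 3) :
    ThreeTau γ (m - Pi.single j 1) = ThreeTau γ m - γ j := by
  unfold ThreeTau
  have : ∀ i, (((m - Pi.single j 1 : Fin 3 → ℤ) i : ℤ) : ℝ) * γ i =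
      (m i : ℝ) * γ i - (if i = j then γ i else 0) := by
    intro i
    rw [Pi.sub_apply, Pi.single_apply]
    split_ifs <;> push_cast <;> ring
  simp only [this, Finset.sum_sub_distrib, Finset.sum_ite_eq', Finset.mem_univ, if_true]

theorem Three_shift {G : ℝ → ℝ} (hG : ∀ t, 0 ≤ G t) (γ : Fin 3 → ℝ) (r : ℕ) (j : Fin 3) :
    ThreePsi G γ r ≤ ∑ m ∈ ThreeBox (r + 1), ∑ m' ∈ ThreeBox (r + 1),
      G (ThreeTau γ m - ThreeTau γ m' - γ j) := by
  classical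
  unfold ThreePsi
  have hsub : ThreeBox r ⊆ ThreeBox (r + 1) := by
    intro m hm
    rw [Three_mem] at hm ⊢
    intro i
    have := hm i
    push_cast
    omega
  have himg : (ThreeBox r).image (fun m => m - Pi.single j 1) ⊆ ThreeBox (r + 1) := by
    intro m hm
    rw [Finset.mem_image] at hm
    obtain ⟨m', hm', rfl⟩ := hm
    rw [Three_mem] at hm' ⊢
    intro i
    have h1 := hm' i
    have h2 : (Pi.single j (1 : ℤ) : Fin 3 → ℤ) i = 0 ∨ (Pi.single j (1 : ℤ) : Fin 3 → ℤ) i = 1 := by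
      rw [Pi.single_apply]
      split_ifs
      · right; rfl
      · left; rfl
    rw [Pi.sub_apply]
    push_cast
    rcases h2 with h2 | h2 <;> rw [h2] <;> omega
  refine le_trans (Finset.sum_le_sum fun m _ => ?_)
    (Finset.sum_le_sum_of_subset_of_nonneg hsub fun m _ _ => Finset.sum_nonneg fun _ _ => hG _)
  calc (∑ m' ∈ ThreeBox r, G (ThreeTau γ m - ThreeTau γ m'))
      = ∑ m' ∈ ThreeBox r, G (ThreeTau γ m - ThreeTau γ (m' - Pi.single j 1) - γ j) := by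
        refine Finset.sum_congr rfl fun m' _ => ?_
        rw [Three_tau_sub]
        congr 1
        ring
    _ = ∑ m' ∈ (ThreeBox r).image (fun m => m - Pi.single j 1),
          G (ThreeTau γ m - ThreeTau γ m' - γ j) := by
        rw [Finset.sum_image]
        intro a _ b _ hab
        exact sub_left_injective hab
    _ ≤ _ := Finset.sum_le_sum_of_subset_of_nonneg himg fun _ _ _ => hG _

theorem Three_exists_R : ∃ R : ℕ, (2 * (R : ℝ) + 1) ^ 6 < (20 / 19 : ℝ) ^ R := by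
  have h := tendsto_pow_const_mul_const_pow_of_abs_lt_one 6
    (r := (19 / 20 : ℝ)) (by rw [abs_of_pos] <;> norm_num)
  have h1 : ∀ᶠ n : ℕ in atTop, (n : ℝ) ^ 6 * (19 / 20 : ℝ) ^ n < 1 / 729 :=
    h.eventually (gt_mem_nhds (by norm_num))
  obtain ⟨n, hn, hn1⟩ := (h1.and (eventually_ge_atTop 1)).exists
  refine ⟨n, ?_⟩
  have hn1' : (1 : ℝ) ≤ n := by exact_mod_cast hn1
  have h2 : (2 * (n : ℝ) + 1) ^ 6 ≤ 729 * (n : ℝ) ^ 6 := by
    calc (2 * (n : ℝ) + 1) ^ 6 ≤ (3 * (n : ℝ)) ^ 6 :=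
          pow_le_pow_left₀ (by positivity) (by linarith) 6
      _ = 729 * (n : ℝ) ^ 6 := by ring
  have h3 : (20 / 19 : ℝ) ^ n * (19 / 20 : ℝ) ^ n = 1 := by
    rw [← mul_pow]
    norm_num
  have h4 : (0 : ℝ) < (20 / 19 : ℝ) ^ n := by positivity
  have h5 : (n : ℝ) ^ 6 * ((20 / 19 : ℝ) ^ n * (19 / 20 : ℝ) ^ n) < (20 / 19 : ℝ) ^ n * (1 / 729) := by
    calc (n : ℝ) ^ 6 * ((20 / 19 : ℝ) ^ n * (19 / 20 : ℝ) ^ n)
        = (20 / 19 : ℝ) ^ n * ((n : ℝ) ^ 6 * (19 / 20 : ℝ) ^ n) := by ring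
      _ < _ := mul_lt_mul_of_pos_left hn h4
  rw [h3, mul_one] at h5
  linarith

theorem Three_exists_r {G : ℝ → ℝ} (hG : ∀ t, 0 ≤ G t) (hG1 : ∀ t, G t ≤ 1) (hG0 : G 0 = 1)
    (γ : Fin 3 → ℝ) {R : ℕ} (hR : (2 * (R : ℝ) + 1) ^ 6 < (20 / 19 : ℝ) ^ R) :
    ∃ r < R, 19 / 20 * ThreePsi G γ (r + 1) ≤ ThreePsi G γ r := by
  by_contra hcon
  push Not at hcon
  have h : ∀ r ≤ R, (20 / 19 : ℝ) ^ r ≤ ThreePsi G γ r := by
    intro r
    induction r with
    | zero =>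
      intro _
      rw [pow_zero]
      exact Three_ge hG hG0 γ 0
    | succ n ih =>
      intro hn
      have h1 := ih (by omega)
      have h2 := hcon n (by omega)
      rw [pow_succ]
      linarith
  have h1 := h R le_rfl
  have h2 := Three_le hG1 γ R
  linarith

theorem Three_cos_nonneg {α : Type*} (s : Finset α) (τ : α → ℝ) (ℓ : ℝ) :
    0 ≤ ∑ m ∈ s, ∑ m' ∈ s, Real.cos ((τ m - τ m') * ℓ) := by
  have h2 : (∑ m ∈ s, ∑ m' ∈ s, Real.cos ((τ m - τ m') * ℓ)) =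
      (∑ m ∈ s, Real.cos (τ m * ℓ)) ^ 2 + (∑ m ∈ s, Real.sin (τ m * ℓ)) ^ 2 := by
    rw [sq, sq, Finset.sum_mul_sum, Finset.sum_mul_sum, ← Finset.sum_add_distrib]
    refine Finset.sum_congr rfl fun j _ => ?_
    rw [← Finset.sum_add_distrib]
    refine Finset.sum_congr rfl fun l _ => ?_
    rw [sub_mul, Real.cos_sub]
  rw [h2]
  positivity

theorem Three_tau_abs {γ : Fin 3 → ℝ} {T : ℝ} (hγ : ∀ j, |γ j| ≤ T) {r : ℕ} {m : Fin 3 → ℤ}
    (hm : m ∈ ThreeBox r) : |ThreeTau γ m| ≤ 3 * r * T := by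
  unfold ThreeTau
  rw [Three_mem] at hm
  refine le_trans (Finset.abs_sum_le_sum_abs _ _) ?_
  have h1 : ∀ j ∈ (Finset.univ : Finset (Fin 3)), |(m j : ℝ) * γ j| ≤ r * T := by
    intro j _
    rw [abs_mul]
    have h2 : |(m j : ℝ)| ≤ r := by
      rw [abs_le]
      have := hm j
      constructor
      · have h3 : ((-(r : ℤ) : ℤ) : ℝ) ≤ (m j : ℝ) := by exact_mod_cast this.1
        push_cast at h3
        exact h3
      · exact_mod_cast this.2
    exact mul_le_mul h2 (hγ j) (abs_nonneg _) (by positivity)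
  refine le_trans (Finset.sum_le_sum h1) ?_
  simp only [Finset.sum_const, Finset.card_univ, Fintype.card_fin, nsmul_eq_mul]
  push_cast
  apply le_of_eq
  ring

/-- D1. Three zeros are impossible. -/
theorem no_three : ∃ (N : ℕ) (κ : ℝ), 0 < κ ∧ ∀ {ι : Type u} (W x ℓ : ι → ℝ) (G : ℝ → ℝ)
    (γ : Fin 3 → ℝ) (T : ℝ), (∀ i, 0 ≤ W i) → Summable W → (∀ i, |x i| ≤ 2) →
    (∀ t, 0 ≤ G t) → (∀ t, G t ≤ 1) → G 0 = 1 → (∀ j, |γ j| ≤ T) →
    (∀ t, |t| ≤ N * T → ∑' i, W i * Real.cos (t * ℓ i) ≤ κ + G t) →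
    (∀ t, |t| ≤ N * T → ∑' i, W i * x i * Real.cos (t * ℓ i) ≤
      κ - 9 / 10 * ∑ j, G (t - γ j)) → False := by
  obtain ⟨R, hR⟩ := Three_exists_R
  refine ⟨6 * R, 1 / (6 * (2 * (R : ℝ) + 1) ^ 6), by positivity, ?_⟩
  intro ι W x ℓ G γ T hW hWs hx hG hG1 hG0 hγ h1 h2
  obtain ⟨r, hrR, hr⟩ := Three_exists_r hG hG1 hG0 γ hR
  set κ : ℝ := 1 / (6 * (2 * (R : ℝ) + 1) ^ 6) with hκ
  have hT : 0 ≤ T := le_trans (abs_nonneg _) (hγ 0)
  set B := ThreeBox (r + 1) with hB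
  have hτ : ∀ m ∈ B, ∀ m' ∈ B, |ThreeTau γ m - ThreeTau γ m'| ≤ ((6 * R : ℕ) : ℝ) * T := by
    intro m hm m' hm'
    have e1 := Three_tau_abs hγ hm
    have e2 := Three_tau_abs hγ hm'
    have e3 : ((r + 1 : ℕ) : ℝ) ≤ R := by exact_mod_cast hrR
    have e4 : ((r + 1 : ℕ) : ℝ) * T ≤ R * T := mul_le_mul_of_nonneg_right e3 hT
    refine le_trans (abs_sub _ _) ?_
    push_cast at e1 e2 e4 ⊢
    linarith
  have hs1 : ∀ t, Summable fun i => W i * Real.cos (t * ℓ i) := by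
    intro t
    refine Summable.of_norm_bounded hWs fun i => ?_
    rw [Real.norm_eq_abs, abs_mul, abs_of_nonneg (hW i)]
    exact mul_le_of_le_one_right (hW i) (Real.abs_cos_le_one _)
  have hs2 : ∀ t, Summable fun i => W i * x i * Real.cos (t * ℓ i) := by
    intro t
    refine Summable.of_norm_bounded (hWs.mul_left 2) fun i => ?_
    rw [Real.norm_eq_abs, abs_mul, abs_mul, abs_of_nonneg (hW i)]
    calc W i * |x i| * |Real.cos (t * ℓ i)| ≤ W i * 2 * 1 :=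
          mul_le_mul (mul_le_mul_of_nonneg_left (hx i) (hW i)) (Real.abs_cos_le_one _)
            (abs_nonneg _) (mul_nonneg (hW i) (by norm_num))
      _ = 2 * W i := by ring
  have hs3 : ∀ t, Summable fun i => W i * (2 + x i) * Real.cos (t * ℓ i) := by
    intro t
    refine (((hs1 t).mul_left 2).add (hs2 t)).congr fun i => ?_
    ring
  have hsum : ∀ t, ∑' i, W i * (2 + x i) * Real.cos (t * ℓ i) =
      2 * ∑' i, W i * Real.cos (t * ℓ i) + ∑' i, W i * x i * Real.cos (t * ℓ i) := by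
    intro t
    rw [← tsum_mul_left, ← ((hs1 t).mul_left 2).tsum_add (hs2 t)]
    refine tsum_congr fun i => ?_
    ring
  have h3 : 0 ≤ ∑' i, ∑ m ∈ B, ∑ m' ∈ B,
      W i * (2 + x i) * Real.cos ((ThreeTau γ m - ThreeTau γ m') * ℓ i) := by
    refine tsum_nonneg fun i => ?_
    have e1 : (∑ m ∈ B, ∑ m' ∈ B,
        W i * (2 + x i) * Real.cos ((ThreeTau γ m - ThreeTau γ m') * ℓ i)) =
        W i * (2 + x i) * ∑ m ∈ B, ∑ m' ∈ B,
          Real.cos ((ThreeTau γ m - ThreeTau γ m') * ℓ i) := by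
      rw [Finset.mul_sum]
      refine Finset.sum_congr rfl fun m _ => ?_
      rw [Finset.mul_sum]
    rw [e1]
    refine mul_nonneg (mul_nonneg (hW i) ?_) (Three_cos_nonneg B (ThreeTau γ) (ℓ i))
    have := (abs_le.mp (hx i)).1
    linarith
  rw [Summable.tsum_finsetSum fun m _ => summable_sum fun m' _ => hs3 _] at h3
  have h4 : (∑ m ∈ B, ∑' i, ∑ m' ∈ B,
      W i * (2 + x i) * Real.cos ((ThreeTau γ m - ThreeTau γ m') * ℓ i)) =
      ∑ m ∈ B, ∑ m' ∈ B, ∑' i,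
      W i * (2 + x i) * Real.cos ((ThreeTau γ m - ThreeTau γ m') * ℓ i) := by
    refine Finset.sum_congr rfl fun m _ => ?_
    rw [Summable.tsum_finsetSum fun m' _ => hs3 _]
  rw [h4] at h3
  have h5 : (∑ m ∈ B, ∑ m' ∈ B, ∑' i,
      W i * (2 + x i) * Real.cos ((ThreeTau γ m - ThreeTau γ m') * ℓ i)) ≤
      ∑ m ∈ B, ∑ m' ∈ B, (3 * κ + 2 * G (ThreeTau γ m - ThreeTau γ m') -
        9 / 10 * ∑ j, G (ThreeTau γ m - ThreeTau γ m' - γ j)) := by
    refine Finset.sum_le_sum fun m hm => Finset.sum_le_sum fun m' hm' => ?_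
    rw [hsum]
    have e1 := h1 _ (hτ m hm m' hm')
    have e2 := h2 _ (hτ m hm m' hm')
    linarith
  have h6 : (∑ m ∈ B, ∑ m' ∈ B, (3 * κ + 2 * G (ThreeTau γ m - ThreeTau γ m') -
        9 / 10 * ∑ j, G (ThreeTau γ m - ThreeTau γ m' - γ j))) =
      3 * κ * (B.card : ℝ) ^ 2 + 2 * ThreePsi G γ (r + 1) -
        9 / 10 * ∑ j, ∑ m ∈ B, ∑ m' ∈ B, G (ThreeTau γ m - ThreeTau γ m' - γ j) := by
    have e1 : (∑ j, ∑ m ∈ B, ∑ m' ∈ B, G (ThreeTau γ m - ThreeTau γ m' - γ j)) =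
        ∑ m ∈ B, ∑ m' ∈ B, ∑ j, G (ThreeTau γ m - ThreeTau γ m' - γ j) := by
      rw [Finset.sum_comm]
      refine Finset.sum_congr rfl fun m _ => ?_
      rw [Finset.sum_comm]
    rw [e1]
    unfold ThreePsi
    simp only [Finset.sum_sub_distrib, Finset.sum_add_distrib, Finset.sum_const, nsmul_eq_mul,
      ← Finset.mul_sum]
    ring
  rw [h6] at h5
  have h7 : (3 : ℝ) * ThreePsi G γ r ≤
      ∑ j, ∑ m ∈ B, ∑ m' ∈ B, G (ThreeTau γ m - ThreeTau γ m' - γ j) := by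
    have e1 : (3 : ℝ) * ThreePsi G γ r = ∑ j : Fin 3, ThreePsi G γ r := by
      simp
    rw [e1]
    exact Finset.sum_le_sum fun j _ => Three_shift hG γ r j
  have h8 : 3 * κ * (B.card : ℝ) ^ 2 ≤ 1 / 2 := by
    rw [hB, Three_card]
    have e3 : ((r + 1 : ℕ) : ℝ) ≤ R := by exact_mod_cast hrR
    have e4 : (((2 * (r + 1) + 1) ^ 3 : ℕ) : ℝ) ^ 2 ≤ (2 * (R : ℝ) + 1) ^ 6 := by
      push_cast at e3 ⊢
      rw [← pow_mul]
      exact pow_le_pow_left₀ (by positivity) (by linarith) _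
    have e5 : (0 : ℝ) < (2 * (R : ℝ) + 1) ^ 6 := by positivity
    have e6 : 3 * κ * (2 * (R : ℝ) + 1) ^ 6 = 1 / 2 := by
      rw [hκ]
      field_simp
      norm_num
    have e7 : 0 < κ := by rw [hκ]; positivity
    calc 3 * κ * (((2 * (r + 1) + 1) ^ 3 : ℕ) : ℝ) ^ 2 ≤ 3 * κ * (2 * (R : ℝ) + 1) ^ 6 :=
          mul_le_mul_of_nonneg_left e4 (by positivity)
      _ = 1 / 2 := e6
  have h9 := Three_ge hG hG0 γ (r + 1)
  linarith

end Pool.Agent.MPfb225e.Zfr
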