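import Mathlib
import Pool.Agent.Lib.MP_fb225e_nt.Zfr.OneCurve
import Pool.Agent.Lib.MP_fb225e_nt.Zfr.Three
import Pool.Agent.Lib.MP_fb225e_nt.Zfr.Pair
import Pool.Agent.Lib.MP_fb225e_nt.Zfr.Split
import Pool.Agent.Lib.MP_fb225e_nt.Zfr.Conj
import Pool.Agent.Lib.MP_fb225e_nt.Zfr.PlacesBias
import Pool.Agent.Lib.MP_fb225e_nt.Fam.Completed

/-!
MP_fb225e_nt, project ZFR: assembly.
-/

namespace Pool.Agent.MPfb225e.Zfr

open Filter Topology Complex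
open NumberField IsDedekindDomain

universe u

/-- The growth parameter `M` dominates `F` on `Re s ≥ 3/2 - δ`, `|Im s| ≤ N (T+1)`, and the error
term of the ideal count with exponent `1 - δ`. -/
structure Growth {K : Type u} [Field K] [NumberField K] (N : ℕ) (F : ℂ → ℂ) (δ T M : ℝ) : Prop where
  hδ : 0 < δ
  hδ1 : δ ≤ 1 / 2
  hT : 0 ≤ T
  hM : 2 ≤ M
  hF : ∀ s : ℂ, 3 / 2 - δ ≤ s.re → |s.im| ≤ N * (T + 1) → ‖F s‖ ≤ M
  hcount : ∃ κ : ℝ, ∀ x : ℝ, 1 ≤ x →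
      |(Nat.card {J : Ideal (𝓞 K) // J ≠ ⊥ ∧ (Ideal.absNorm J : ℝ) ≤ x} : ℝ) - κ * x| ≤
        M * x ^ (1 - δ)

theorem exists_ne {K : Type u} [Field K] [NumberField K] (W : WeierstrassCurve K) {F : ℂ → ℂ}
    (hFL : ∀ s : ℂ, 3 / 2 < s.re → F s = W.LSeries s) : ∃ z, F z ≠ 0 := by
  refine ⟨2, fun h => ?_⟩
  have := re_le_of_zero W hFL h
  norm_num at this

section weights

variable {K : Type u} [Field K] [NumberField K]

theorem summable_W {ε : ℝ} (hε : 0 < ε) : Summable fun v : HeightOneSpectrum (𝓞 K) =>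
    ε * (Real.log (nrm v) * nrm v ^ (-(1 + ε))) := (summable_lw ε hε).mul_left ε

theorem W_nonneg {ε : ℝ} (hε : 0 < ε) (v : HeightOneSpectrum (𝓞 K)) :
    0 ≤ ε * (Real.log (nrm v) * nrm v ^ (-(1 + ε))) := mul_nonneg hε.le (lw_nonneg ε v)

end weights

/-- **(a)** At most two zeros. -/
theorem at_most_two' (n : ℕ) : ∃ c : ℝ, 0 < c ∧ ∃ N : ℕ,
    ∀ (K : Type u) [Field K] [NumberField K] (W : WeierstrassCurve K), Module.finrank ℚ K = n →
    ∀ (F : ℂ → ℂ), Differentiable ℂ F → (∀ s : ℂ, 3 / 2 < s.re → F s = W.LSeries s) →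
    ∀ (κ δ T M : ℝ), 0 < δ → δ ≤ 1 / 2 → 0 ≤ T → 2 ≤ M →
    (∀ s : ℂ, 3 / 2 - δ ≤ s.re → |s.im| ≤ N * (T + 1) → ‖F s‖ ≤ M) →
    (∀ x : ℝ, 1 ≤ x →
      |(Nat.card {J : Ideal (𝓞 K) // J ≠ ⊥ ∧ (Ideal.absNorm J : ℝ) ≤ x} : ℝ) - κ * x| ≤
        M * x ^ (1 - δ)) →
    ∀ S : Finset ℂ, (∀ ρ ∈ S, 3 / 2 - c * δ / Lg M T δ < ρ.re ∧ |ρ.im| ≤ T) →
      ∑ ρ ∈ S, analyticOrderNatAt F ρ ≤ 2 := by
  obtain ⟨N, κ₀, hκ₀, hno⟩ := no_three.{u}
  set κ' : ℝ := min κ₀ (1 / 10) with hκ'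
  have hκ'0 : 0 < κ' := by positivity
  have hκ'1 : κ' ≤ 1 / 10 := min_le_right _ _
  have hκ'2 : κ' ≤ κ₀ := min_le_left _ _
  obtain ⟨θ₁, hθ₁, h1⟩ := one_sided_zeta'.{u} n N κ' hκ'0
  obtain ⟨θ₂, hθ₂, h2⟩ := one_sided_curve'.{u} n N 3 κ' hκ'0 (by linarith)
  set θ : ℝ := min θ₁ θ₂ with hθ
  have hθ0 : 0 < θ := by positivity
  refine ⟨κ' * θ, by positivity, N + 1, ?_⟩
  intro K _ _ W hn F hF hFL κ δ T M hδ hδ1 hT hM hFM hcount S hS
  by_contra hcon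
  push Not at hcon
  have hL2 := two_le_Lg hδ hδ1 hT hM
  obtain ⟨ρ, h, hh, hρS, hfac⟩ := split_zeros F hF (exists_ne W hFL) 3 S (by omega)
  set ε : ℝ := θ * δ / Lg M T δ with hε
  have hε0 : 0 < ε := by
    have : 0 < Lg M T δ := by linarith
    positivity
  have hρ : ∀ j, 3 / 2 - κ' * ε ≤ (ρ j).re := by
    intro j
    have h3 := (hS _ (hρS j)).1
    have e : κ' * ε = κ' * θ * δ / Lg M T δ := by rw [hε]; ring
    rw [e]
    exact h3.le
  have H1 := h1 K hn κ δ T M θ hδ hδ1 hT hM hθ0 (min_le_left _ _) hcount ε hε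
  have H2 := h2 K W hn F hF hFL κ δ T M θ hδ hδ1 hT hM hθ0 (min_le_right _ _)
    (fun s hs hs' => hFM s hs (by push_cast; exact hs')) hcount ρ h hh hfac ε hε hρ
  refine hno (fun v : HeightOneSpectrum (𝓞 K) => ε * (Real.log (nrm v) * nrm v ^ (-(1 + ε))))
    (xK W) (fun v => Real.log (nrm v)) (gk ε) (fun j => (ρ j).im) T (W_nonneg hε0) (summable_W hε0)
    (abs_xK_le W) (gk_nonneg ε) (gk_le_one ε) (gk_zero ε) (fun j => (hS _ (hρS j)).2) ?_ ?_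
  · intro t ht
    refine (H1 t ht).trans ?_
    linarith
  · intro t ht
    refine (H2 t ht).trans ?_
    have h3 : 0 ≤ ∑ j, gk ε (t - (ρ j).im) := Finset.sum_nonneg fun j _ => gk_nonneg _ _
    nlinarith

/-- The core of (b): a pair of zeros with opposite imaginary parts forces a bias. -/
theorem pair_core (n : ℕ) (η : ℝ) (hη : 0 < η) (hη1 : η ≤ 1) : ∃ (κ' θ₀ : ℝ) (N : ℕ), 0 < κ' ∧
    0 < θ₀ ∧ ∀ (K : Type u) [Field K] [NumberField K] (W : WeierstrassCurve K),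
    Module.finrank ℚ K = n →
    ∀ (F : ℂ → ℂ), Differentiable ℂ F → (∀ s : ℂ, 3 / 2 < s.re → F s = W.LSeries s) →
    ∀ (κ δ T M θ : ℝ), 0 < δ → δ ≤ 1 / 2 → 0 ≤ T → 2 ≤ M → 0 < θ → θ ≤ θ₀ →
    (∀ s : ℂ, 3 / 2 - δ ≤ s.re → |s.im| ≤ N * (T + 1) → ‖F s‖ ≤ M) →
    (∀ x : ℝ, 1 ≤ x →
      |(Nat.card {J : Ideal (𝓞 K) // J ≠ ⊥ ∧ (Ideal.absNorm J : ℝ) ≤ x} : ℝ) - κ * x| ≤
        M * x ^ (1 - δ)) →
    ∀ (ρ : Fin 2 → ℂ) (h : ℂ → ℂ), Differentiable ℂ h → (∀ z, F z = (∏ j, (z - ρ j)) * h z) →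
    (∀ j, 3 / 2 - κ' * θ * δ / Lg M T δ < (ρ j).re) → (ρ 1).im = -(ρ 0).im → |(ρ 0).im| ≤ T →
    ∀ ε : ℝ, ε = θ * δ / Lg M T δ →
    η / 12 ≤ ε * ∑' v : HeightOneSpectrum (𝓞 K), {v | xK W v < -2 + η}.indicator
        (fun v => Real.log (nrm v) * nrm v ^ (-(1 + ε))) v := by
  obtain ⟨N, κ₀, hκ₀, hpair⟩ := pair_bias.{u} η hη hη1
  set κ' : ℝ := min κ₀ 1 with hκ'
  have hκ'0 : 0 < κ' := by positivity
  have hκ'1 : κ' ≤ 1 := min_le_right _ _
  have hκ'2 : κ' ≤ κ₀ := min_le_left _ _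
  obtain ⟨θ₁, hθ₁, h1⟩ := one_sided_zeta'.{u} n N κ' hκ'0
  obtain ⟨θ₂, hθ₂, h2⟩ := one_sided_curve'.{u} n N 2 κ' hκ'0 hκ'1
  refine ⟨κ', min θ₁ θ₂, N + 1, hκ'0, by positivity, ?_⟩
  intro K _ _ W hn F hF hFL κ δ T M θ hδ hδ1 hT hM hθ0 hθ hFM hcount ρ h hh hfac hρ him hT0 ε hε
  have hL2 := two_le_Lg hδ hδ1 hT hM
  have hε0 : 0 < ε := by
    have : 0 < Lg M T δ := by linarith
    rw [hε]; positivity
  have hρ' : ∀ j, 3 / 2 - κ' * ε ≤ (ρ j).re := by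
    intro j
    have e : κ' * ε = κ' * θ * δ / Lg M T δ := by rw [hε]; ring
    rw [e]
    exact (hρ j).le
  have H1 := h1 K hn κ δ T M θ hδ hδ1 hT hM hθ0 (hθ.trans (min_le_left _ _)) hcount ε hε
  have H2 := h2 K W hn F hF hFL κ δ T M θ hδ hδ1 hT hM hθ0 (hθ.trans (min_le_right _ _))
    (fun s hs hs' => hFM s hs (by push_cast; exact hs')) hcount ρ h hh hfac ε hε hρ'
  have key := hpair
    (fun v : HeightOneSpectrum (𝓞 K) => ε * (Real.log (nrm v) * nrm v ^ (-(1 + ε))))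
    (xK W) (fun v => Real.log (nrm v)) (gk ε) (ρ 0).im T (W_nonneg hε0) (summable_W hε0)
    (abs_xK_le W) (gk_nonneg ε) (fun s t hst => gk_anti hst) (gk_zero ε) hT0 ?_ ?_
  · refine key.trans (le_of_eq ?_)
    rw [← tsum_mul_left]
    refine tsum_congr fun v => ?_
    by_cases hv : v ∈ {v | xK W v < -2 + η}
    · rw [Set.indicator_of_mem hv, Set.indicator_of_mem hv]
    · rw [Set.indicator_of_notMem hv, Set.indicator_of_notMem hv, mul_zero]
  · intro t ht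
    refine (H1 t ht).trans ?_
    linarith
  · intro t ht
    refine (H2 t ht).trans ?_
    rw [Fin.sum_univ_two, him, sub_neg_eq_add]
    have h3 : 0 ≤ gk ε (t - (ρ 0).im) + gk ε (t + (ρ 0).im) :=
      add_nonneg (gk_nonneg _ _) (gk_nonneg _ _)
    nlinarith

/-- splitting off one zero -/
theorem split_one {F : ℂ → ℂ} (hF : Differentiable ℂ F) {ρ : ℂ} (h0 : F ρ = 0) :
    ∃ F₁ : ℂ → ℂ, Differentiable ℂ F₁ ∧ ∀ z, F z = (z - ρ) * F₁ z := by
  refine ⟨dslope F ρ, ?_, fun z => ?_⟩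
  · have h1 : DifferentiableOn ℂ F Set.univ := hF.differentiableOn
    have h2 := (Complex.differentiableOn_dslope (c := ρ) (s := Set.univ) Filter.univ_mem).2 h1
    exact differentiableOn_univ.1 h2
  · have h := sub_smul_dslope F ρ z
    rw [smul_eq_mul, h0, sub_zero] at h
    exact h.symm

/-- **(b)** At most one zero, simple and real, unless there is a bias. -/
theorem at_most_one' (E : WeierstrassCurve ℚ) [E.IsElliptic] (n : ℕ) (η : ℝ) (hη : 0 < η)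
    (hη1 : η ≤ 1)
    (hbias : ∀ᶠ ε : ℝ in 𝓝[>] 0, ε * ∑' p : Nat.Primes,
      {p : Nat.Primes | Fam.lam E p < -2 + η}.indicator
        (fun p : Nat.Primes => Real.log p * (p : ℝ) ^ (-(1 + ε))) p ≤ η / (16 * n)) :
    ∃ c : ℝ, 0 < c ∧ ∃ N : ℕ, ∀ (K : Type u) [Field K] [NumberField K], Module.finrank ℚ K = n →
    ∀ (F : ℂ → ℂ), Differentiable ℂ F → (∀ s : ℂ, 3 / 2 < s.re → F s = (E.baseChange K).LSeries s) →
    ∀ (κ δ T M : ℝ), 0 < δ → δ ≤ 1 / 2 → 0 ≤ T → 2 ≤ M →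
    (∀ s : ℂ, 3 / 2 - δ ≤ s.re → |s.im| ≤ N * (T + 1) → ‖F s‖ ≤ M) →
    (∀ x : ℝ, 1 ≤ x →
      |(Nat.card {J : Ideal (𝓞 K) // J ≠ ⊥ ∧ (Ideal.absNorm J : ℝ) ≤ x} : ℝ) - κ * x| ≤
        M * x ^ (1 - δ)) →
    ∃ β : ℝ, ∀ ρ : ℂ, 3 / 2 - c * δ / Lg M T δ < ρ.re → |ρ.im| ≤ T → F ρ = 0 →
      ρ = β ∧ analyticOrderNatAt F ρ = 1 := by
  obtain ⟨κ', θ₀, N, hκ', hθ₀, hcore⟩ := pair_core.{u} n η hη hη1
  obtain ⟨C, hC⟩ := bias_places.{u} E n
  rw [eventually_nhdsWithin_iff, Metric.eventually_nhds_iff] at hbias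
  obtain ⟨ε₀, hε₀, hbias⟩ := hbias
  set C' : ℝ := |C| + 1 with hC'
  have hC'0 : 0 < C' := by positivity
  set θ : ℝ := min (min θ₀ (ε₀ / 2)) (η / 60 / C') with hθ
  have hθ0 : 0 < θ := by positivity
  have hθ1 : θ ≤ θ₀ := (min_le_left _ _).trans (min_le_left _ _)
  have hθ2 : θ ≤ ε₀ / 2 := (min_le_left _ _).trans (min_le_right _ _)
  have hθ3 : θ ≤ η / 60 / C' := min_le_right _ _
  refine ⟨κ' * θ, by positivity, N, ?_⟩
  intro K _ _ hn F hF hFL κ δ T M hδ hδ1 hT hM hFM hcount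
  have hL2 := two_le_Lg hδ hδ1 hT hM
  have hLpos : 0 < Lg M T δ := by linarith
  -- no pair of zeros
  have nopair : ∀ (ρ : Fin 2 → ℂ) (h : ℂ → ℂ), Differentiable ℂ h →
      (∀ z, F z = (∏ j, (z - ρ j)) * h z) →
      (∀ j, 3 / 2 - κ' * θ * δ / Lg M T δ < (ρ j).re) → (ρ 1).im = -(ρ 0).im →
      |(ρ 0).im| ≤ T → False := by
    intro ρ h hh hfac hρ him hT0
    set ε : ℝ := θ * δ / Lg M T δ with hε
    have hε0 : 0 < ε := by positivity
    have hεθ : ε ≤ θ := by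
      rw [hε, div_le_iff₀ hLpos]
      nlinarith
    have h1 := hcore K (E.baseChange K) hn F hF hFL κ δ T M θ hδ hδ1 hT hM hθ0 hθ1 hFM hcount ρ h
      hh hfac hρ him hT0 ε hε
    have h2 := hC K hn (-2 + η) ε hε0
    have h3 := hbias (y := ε) (by rw [Real.dist_eq, sub_zero, abs_of_pos hε0]; linarith) hε0
    set P := ∑' p : Nat.Primes, {p : Nat.Primes | Fam.lam E p < -2 + η}.indicator
        (fun p : Nat.Primes => Real.log p * (p : ℝ) ^ (-(1 + ε))) p with hP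
    have h4 : ε * (n * P + C) ≤ η / 16 + η / 60 := by
      have h5 : ε * (n * P) ≤ η / 16 := by
        rcases Nat.eq_zero_or_pos n with h0 | h0
        · rw [h0]; simp; positivity
        · have hn0 : (0 : ℝ) < n := by exact_mod_cast h0
          have h6 : n * (ε * P) ≤ n * (η / (16 * n)) := mul_le_mul_of_nonneg_left h3 hn0.le
          have h7 : n * (η / (16 * n)) = η / 16 := by field_simp
          rw [h7] at h6
          linarith
      have h6 : ε * C ≤ η / 60 := by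
        have h7 : ε * C ≤ θ * C' := by
          have h8 : C ≤ C' := by rw [hC']; linarith [le_abs_self C]
          calc ε * C ≤ ε * C' := mul_le_mul_of_nonneg_left h8 hε0.le
            _ ≤ θ * C' := mul_le_mul_of_nonneg_right hεθ hC'0.le
        rw [le_div_iff₀ hC'0] at hθ3
        linarith
      rw [mul_add]
      linarith
    have h5 := mul_le_mul_of_nonneg_left h2 hε0.le
    linarith
  -- every zero is real
  have hreal : ∀ ρ : ℂ, 3 / 2 - κ' * θ * δ / Lg M T δ < ρ.re → |ρ.im| ≤ T → F ρ = 0 →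
      ρ.im = 0 := by
    intro ρ hρ hρT h0
    by_contra him
    have h1 : F ((starRingEnd ℂ) ρ) = 0 := by
      rw [conj_symm K (E.baseChange K) F hF hFL, h0, map_zero]
    obtain ⟨F₁, hF₁, hfac₁⟩ := split_one hF h0
    have hne : (starRingEnd ℂ) ρ - ρ ≠ 0 := by
      intro h
      have := congrArg Complex.im h
      simp at this
      apply him
      linarith
    have h2 : F₁ ((starRingEnd ℂ) ρ) = 0 := by
      rw [hfac₁] at h1
      exact (mul_eq_zero.1 h1).resolve_left hne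
    obtain ⟨F₂, hF₂, hfac₂⟩ := split_one hF₁ h2
    refine nopair ![ρ, (starRingEnd ℂ) ρ] F₂ hF₂ ?_ ?_ ?_ ?_
    · intro z
      rw [hfac₁, hfac₂, Fin.prod_univ_two]
      simp only [Matrix.cons_val_zero, Matrix.cons_val_one]
      ring
    · intro j
      fin_cases j
      · exact hρ
      · simpa using hρ
    · simp
    · exact hρT
  -- at most one zero
  have hone : ∀ S : Finset ℂ, (∀ ρ ∈ S, 3 / 2 - κ' * θ * δ / Lg M T δ < ρ.re ∧ |ρ.im| ≤ T ∧ F ρ = 0) →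
      ∑ ρ ∈ S, analyticOrderNatAt F ρ ≤ 1 := by
    intro S hS
    by_contra hcon
    push Not at hcon
    obtain ⟨ρ, h, hh, hρS, hfac⟩ := split_zeros F hF (exists_ne _ hFL) 2 S (by omega)
    have him : ∀ j, (ρ j).im = 0 := fun j => by
      obtain ⟨h1, h2, h3⟩ := hS _ (hρS j)
      exact hreal _ h1 h2 h3
    refine nopair ρ h hh hfac (fun j => (hS _ (hρS j)).1) ?_ ?_
    · rw [him 0, him 1, neg_zero]
    · rw [him 0, abs_zero]; exact hT
  have hord : ∀ ρ : ℂ, F ρ = 0 → 1 ≤ analyticOrderNatAt F ρ := by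
    intro ρ h0
    have htop : analyticOrderAt F ρ ≠ ⊤ := by
      intro ht
      obtain ⟨z, hz⟩ := exists_ne _ hFL
      apply hz
      have hA : AnalyticOnNhd ℂ F Set.univ := fun w _ => hF.analyticAt w
      have := hA.eqOn_zero_of_preconnected_of_eventuallyEq_zero isPreconnected_univ
        (Set.mem_univ ρ) (analyticOrderAt_eq_top.1 ht)
      exact this (Set.mem_univ z)
    have h1 : analyticOrderAt F ρ ≠ 0 := by
      intro h
      exact ((hF.analyticAt ρ).analyticOrderAt_eq_zero.1 h) h0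
    have h2 := Nat.cast_analyticOrderNatAt htop
    by_contra hcon
    have h3 : analyticOrderNatAt F ρ = 0 := by omega
    rw [h3] at h2
    exact h1 h2.symm
  by_cases hex : ∃ ρ : ℂ, 3 / 2 - κ' * θ * δ / Lg M T δ < ρ.re ∧ |ρ.im| ≤ T ∧ F ρ = 0
  · obtain ⟨ρ₀, h1, h2, h3⟩ := hex
    refine ⟨ρ₀.re, fun ρ hρ hρT h0 => ?_⟩
    have hρ₀ : ρ₀ = (ρ₀.re : ℂ) := by
      apply Complex.ext
      · simp
      · simp [hreal ρ₀ h1 h2 h3]
    rw [← hρ₀]
    constructor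
    · by_contra hne
      have h4 := hone {ρ, ρ₀} (by
        intro z hz
        rw [Finset.mem_insert, Finset.mem_singleton] at hz
        rcases hz with rfl | rfl
        · exact ⟨hρ, hρT, h0⟩
        · exact ⟨h1, h2, h3⟩)
      rw [Finset.sum_pair hne] at h4
      have := hord ρ h0
      have := hord ρ₀ h3
      omega
    · have h4 := hone {ρ} (by
        intro z hz
        rw [Finset.mem_singleton] at hz
        rw [hz]
        exact ⟨hρ, hρT, h0⟩)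
      rw [Finset.sum_singleton] at h4
      have := hord ρ h0
      omega
  · push Not at hex
    exact ⟨0, fun ρ hρ hρT h0 => absurd h0 (hex ρ hρ hρT)⟩

end Pool.Agent.MPfb225e.Zfr
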