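import Mathlib
import Pool.Agent.Lib.MP_fb225e_nt.Zfr.Main

/-!
MP_fb225e_nt, project ZFR: the classical zero-free region for a fixed pair `(E, K)`.
-/

namespace Pool.Agent.MPfb225e.Zfr

open Filter Topology Complex
open NumberField IsDedekindDomain

universe u

theorem idealCount (K : Type u) [Field K] [NumberField K] : IdealCount K :=
  Cone.idealCount K (Cone.volumeFormula K) (Cone.coneDescription K)

/-- The classical region for a fixed number field. -/
theorem classical_region (E : WeierstrassCurve ℚ) [E.IsElliptic] (η : ℝ) (hη : 0 < η)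
    (hη1 : η ≤ 1) (K : Type u) [Field K] [NumberField K]
    (hbias : ∀ᶠ ε : ℝ in 𝓝[>] 0, ε * ∑' p : Nat.Primes,
      {p : Nat.Primes | Fam.lam E p < -2 + η}.indicator
        (fun p : Nat.Primes => Real.log p * (p : ℝ) ^ (-(1 + ε))) p ≤
        η / (16 * (Module.finrank ℚ K : ℕ)))
    (F : ℂ → ℂ) (hF : Differentiable ℂ F)
    (hFL : ∀ s : ℂ, 3 / 2 < s.re → F s = (E.baseChange K).LSeries s)
    (hgr : ∃ δ : ℝ, 0 < δ ∧ ∃ (B : ℕ) (C : ℝ), ∀ s : ℂ, 3 / 2 - δ ≤ s.re →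
      ‖F s‖ ≤ C * (|s.im| + 2) ^ B) :
    ∃ c : ℝ, 0 < c ∧ ∀ ρ : ℂ, 3 / 2 - c / Real.log (|ρ.im| + 3) < ρ.re → F ρ = 0 →
      ρ = 3 / 2 ∧ analyticOrderNatAt F ρ = 1 := by
  obtain ⟨c₀, hc₀, N, hmain⟩ := at_most_one'.{u} E (Module.finrank ℚ K) η hη hη1 hbias
  obtain ⟨κ, -, η', hη', hη'1, CK, hCK⟩ := idealCount K
  obtain ⟨δ₀, hδ₀, B, C, hC⟩ := hgr
  set δ : ℝ := min (min δ₀ η') (1 / 2) with hδ
  have hδ0 : 0 < δ := by positivity
  have hδ1 : δ ≤ 1 / 2 := min_le_right _ _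
  have hδ2 : δ ≤ δ₀ := (min_le_left _ _).trans (min_le_left _ _)
  have hδ3 : δ ≤ η' := (min_le_left _ _).trans (min_le_right _ _)
  set A : ℝ := 2 + |CK| + |C| * ((N : ℝ) + 2) ^ B with hA
  have hA2 : 2 ≤ A := by rw [hA]; have : 0 ≤ |CK| + |C| * ((N : ℝ) + 2) ^ B := by positivity
                         linarith
  have hlog3 : 1 ≤ Real.log 3 := by
    have h1 : Real.exp 1 ≤ 3 := by linarith [Real.exp_one_lt_d9]
    calc (1 : ℝ) = Real.log (Real.exp 1) := (Real.log_exp 1).symm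
      _ ≤ Real.log 3 := Real.log_le_log (Real.exp_pos 1) h1
  set C₂ : ℝ := Real.log (A / δ) + B + 1 with hC₂
  have hlogA : 0 ≤ Real.log (A / δ) := by
    refine Real.log_nonneg ?_
    rw [le_div_iff₀ hδ0]
    linarith
  have hC₂0 : 0 < C₂ := by positivity
  -- the region for given height
  have hT : ∀ T : ℝ, 0 ≤ T → ∃ β : ℝ, ∀ ρ : ℂ,
      3 / 2 - c₀ * δ / C₂ / Real.log (T + 3) < ρ.re → |ρ.im| ≤ T → F ρ = 0 →
      ρ = β ∧ analyticOrderNatAt F ρ = 1 := by
    intro T hT0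
    set M : ℝ := A * (T + 3) ^ B with hM
    have hT1 : 1 ≤ (T + 3) ^ B := one_le_pow₀ (by linarith)
    have hM2 : 2 ≤ M := by
      calc (2 : ℝ) ≤ A * 1 := by linarith
        _ ≤ M := mul_le_mul_of_nonneg_left hT1 (by linarith)
    have hlogT : 1 ≤ Real.log (T + 3) := hlog3.trans (Real.log_le_log (by norm_num) (by linarith))
    have hFM : ∀ s : ℂ, 3 / 2 - δ ≤ s.re → |s.im| ≤ N * (T + 1) → ‖F s‖ ≤ M := by
      intro s hs hs'
      refine (hC s (by linarith)).trans ?_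
      have h4 : (|s.im| + 2) ^ B ≤ (((N : ℝ) + 2) * (T + 3)) ^ B := by
        refine pow_le_pow_left₀ (by positivity) ?_ B
        have : (0 : ℝ) ≤ N := Nat.cast_nonneg N
        nlinarith
      calc C * (|s.im| + 2) ^ B ≤ |C| * (|s.im| + 2) ^ B :=
            mul_le_mul_of_nonneg_right (le_abs_self C) (by positivity)
        _ ≤ |C| * (((N : ℝ) + 2) * (T + 3)) ^ B := mul_le_mul_of_nonneg_left h4 (abs_nonneg C)
        _ = |C| * ((N : ℝ) + 2) ^ B * (T + 3) ^ B := by rw [mul_pow]; ring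
        _ ≤ M := by
            rw [hM]
            refine mul_le_mul_of_nonneg_right ?_ (by positivity)
            rw [hA]
            linarith [abs_nonneg CK]
    have hcount : ∀ x : ℝ, 1 ≤ x →
        |(Nat.card {J : Ideal (𝓞 K) // J ≠ ⊥ ∧ (Ideal.absNorm J : ℝ) ≤ x} : ℝ) - κ * x| ≤
          M * x ^ (1 - δ) := by
      intro x hx
      refine (hCK x hx).trans ?_
      have h4 : x ^ (1 - η') ≤ x ^ (1 - δ) := Real.rpow_le_rpow_of_exponent_le hx (by linarith)
      calc CK * x ^ (1 - η') ≤ |CK| * x ^ (1 - η') :=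
            mul_le_mul_of_nonneg_right (le_abs_self CK) (by positivity)
        _ ≤ |CK| * x ^ (1 - δ) := mul_le_mul_of_nonneg_left h4 (abs_nonneg CK)
        _ ≤ M * x ^ (1 - δ) := by
            refine mul_le_mul_of_nonneg_right ?_ (by positivity)
            have h5 : |CK| ≤ A * 1 := by
              rw [hA, mul_one]
              have : 0 ≤ |C| * ((N : ℝ) + 2) ^ B := by positivity
              linarith
            exact h5.trans (mul_le_mul_of_nonneg_left hT1 (by linarith))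
    obtain ⟨β, hβ⟩ := hmain K rfl F hF hFL κ δ T M hδ0 hδ1 hT0 hM2 hFM hcount
    refine ⟨β, fun ρ h1 h2 h3 => hβ ρ ?_ h2 h3⟩
    have hL2 := two_le_Lg hδ0 hδ1 hT0 hM2
    have hLle : Lg M T δ ≤ C₂ * Real.log (T + 3) := by
      have h4 : M * (T + 2) / δ ≤ A / δ * (T + 3) ^ (B + 1) := by
        rw [hM, pow_succ, div_mul_eq_mul_div]
        refine div_le_div_of_nonneg_right ?_ hδ0.le
        have : 0 ≤ A * (T + 3) ^ B := by positivity
        nlinarith
      have h5 : Real.log (A / δ * (T + 3) ^ (B + 1)) =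
          Real.log (A / δ) + (B + 1) * Real.log (T + 3) := by
        rw [Real.log_mul (by positivity) (by positivity), Real.log_pow]
        push_cast; ring
      have h6 : Lg M T δ ≤ Real.log (A / δ) + (B + 1) * Real.log (T + 3) := by
        rw [← h5]
        exact Real.log_le_log (by positivity) h4
      rw [hC₂]
      nlinarith
    have h7 : c₀ * δ / C₂ / Real.log (T + 3) ≤ c₀ * δ / Lg M T δ := by
      rw [div_div]
      exact div_le_div_of_nonneg_left (by positivity) (by linarith) hLle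
    linarith
  set c₁ : ℝ := c₀ * δ / C₂ with hc₁
  have hc₁0 : 0 < c₁ := by positivity
  have hreal : ∀ ρ : ℂ, 3 / 2 - c₁ / Real.log (|ρ.im| + 3) < ρ.re → F ρ = 0 →
      ρ.im = 0 ∧ analyticOrderNatAt F ρ = 1 := by
    intro ρ hρ h0
    obtain ⟨β, hβ⟩ := hT |ρ.im| (abs_nonneg _)
    obtain ⟨h1, h2⟩ := hβ ρ hρ le_rfl h0
    refine ⟨?_, h2⟩
    rw [h1, Complex.ofReal_im]
  obtain ⟨β₀, hβ₀⟩ := hT 0 le_rfl
  rw [zero_add] at hβ₀
  have hle : ∀ z : ℂ, F z = 0 → z.re ≤ 3 / 2 := fun z hz => re_le_of_zero _ hFL hz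
  by_cases hβ : β₀ < 3 / 2
  · refine ⟨min c₁ (3 / 2 - β₀), by
      have : 0 < 3 / 2 - β₀ := by linarith
      positivity, fun ρ hρ h0 => ?_⟩
    exfalso
    have hlogρ : 1 ≤ Real.log (|ρ.im| + 3) :=
      hlog3.trans (Real.log_le_log (by norm_num) (by linarith [abs_nonneg ρ.im]))
    have h1 : 3 / 2 - c₁ / Real.log (|ρ.im| + 3) < ρ.re := by
      have : min c₁ (3 / 2 - β₀) / Real.log (|ρ.im| + 3) ≤ c₁ / Real.log (|ρ.im| + 3) :=
        div_le_div_of_nonneg_right (min_le_left _ _) (by linarith)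
      linarith
    obtain ⟨him, -⟩ := hreal ρ h1 h0
    rw [him, abs_zero, zero_add] at h1
    obtain ⟨h2, -⟩ := hβ₀ ρ h1 (by rw [him, abs_zero]) h0
    have h3 : ρ.re = β₀ := by rw [h2, Complex.ofReal_re]
    have h4 : min c₁ (3 / 2 - β₀) / Real.log (|ρ.im| + 3) ≤ 3 / 2 - β₀ := by
      refine (div_le_self ?_ hlogρ).trans (min_le_right _ _)
      have : 0 < 3 / 2 - β₀ := by linarith
      positivity
    linarith
  · refine ⟨c₁, hc₁0, fun ρ hρ h0 => ?_⟩
    obtain ⟨him, hord⟩ := hreal ρ hρ h0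
    refine ⟨?_, hord⟩
    rw [him, abs_zero, zero_add] at hρ
    obtain ⟨h2, -⟩ := hβ₀ ρ hρ (by rw [him, abs_zero]) h0
    have h3 : ρ.re = β₀ := by rw [h2, Complex.ofReal_re]
    have h4 := hle ρ h0
    apply Complex.ext
    · have : ρ.re = 3 / 2 := by push Not at hβ; linarith
      rw [this]; norm_num
    · rw [him]; norm_num

end Pool.Agent.MPfb225e.Zfr
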